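import Pool.Agent.H.MP_9ba241_pr.Moments

open MeasureTheory ProbabilityTheory Filter Topology
open scoped ENNReal NNReal

set_option linter.unusedSectionVars false

namespace Pool.Agent.H.MP_9ba241_pr

section canon
variable {K : ℕ → ℝ} {α : ℝ} {μc : Measure ℝ} {γ q φ : ℝ}
  {ρ : Measure (ℕ × Bool)} [IsProbabilityMeasure ρ] [IsProbabilityMeasure μc]

/-! ### the total weight of renewal epochs -/

lemma Tm_moment (hP : Par K α μc γ q φ) (hρ : IsStep ρ fun n => ENNReal.ofReal (K n)) (m : ℕ) :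
    ∫⁻ c, Tm ρ m c ^ γ ∂seqLaw μc ≤ ENNReal.ofReal (1 / (1 - q)) := by
  have hk0 : ENNReal.ofReal (K 0) = 0 := by rw [hP.hK.zero, ENNReal.ofReal_zero]
  have hq0 : 0 ≤ q := by simpa using hP.hq ∅
  have h1q : 0 < 1 - q := by linarith [hP.q1]
  induction m using Nat.strong_induction_on with
  | _ m ih =>
    have h := moment_step μc γ hP.γ0 hP.γ1 (Tm ρ m) (fun _ => 1) (Finset.Icc 1 m)
      (fun n => ENNReal.ofReal (K n) * 2⁻¹) (fun n => Tm ρ (m - n)) measurable_const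
      (fun n => measurable_Tm _) (fun c => (Tm_step hρ hk0 m c).le)
    refine h.trans ?_
    calc ∫⁻ _, (1 : ℝ≥0∞) ^ γ ∂seqLaw μc + ∑ n ∈ Finset.Icc 1 m, (ENNReal.ofReal (K n) * 2⁻¹) ^ γ *
          (1 + phi μc γ ^ n) * ∫⁻ c, Tm ρ (m - n) c ^ γ ∂seqLaw μc
        ≤ 1 + ∑ n ∈ Finset.Icc 1 m, ENNReal.ofReal (kg K γ φ n) * ENNReal.ofReal (1 / (1 - q)) := by
          gcongr with n hn
          · simp
          · exact (kg_eq hP n).le
          · rw [Finset.mem_Icc] at hn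
            exact ih (m - n) (by omega)
      _ = 1 + ENNReal.ofReal (∑ n ∈ Finset.Icc 1 m, kg K γ φ n) * ENNReal.ofReal (1 / (1 - q)) := by
          rw [← Finset.sum_mul, ENNReal.ofReal_sum_of_nonneg fun n _ => kg_nonneg hP n]
      _ ≤ 1 + ENNReal.ofReal q * ENNReal.ofReal (1 / (1 - q)) := by
          gcongr; exact hP.hq _
      _ = ENNReal.ofReal (1 / (1 - q)) := by
          rw [← ENNReal.ofReal_mul hq0, ← ENNReal.ofReal_one, ← ENNReal.ofReal_add zero_le_one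
            (by positivity)]
          congr 1; field_simp; ring

lemma Tm_bounded (hP : Par K α μc γ q φ) (hρ : IsStep ρ fun n => ENNReal.ofReal (K n)) :
    ∀ᵐ c ∂seqLaw μc, ∃ B : ℝ, 0 < B ∧ ∀ m, Tm ρ m c ≤ ENNReal.ofReal B := by
  have hmono : ∀ c, Monotone fun m => Tm ρ m c ^ γ := fun c m m' h =>
    ENNReal.rpow_le_rpow (Tm_mono c h) hP.γ0.le
  have h1 : ∫⁻ c, ⨆ m, Tm ρ m c ^ γ ∂seqLaw μc ≤ ENNReal.ofReal (1 / (1 - q)) := by
    rw [lintegral_iSup (fun m => (measurable_Tm m).pow_const γ) (fun m m' h c => hmono c h)]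
    exact iSup_le fun m => Tm_moment hP hρ m
  have h2 : ∀ᵐ c ∂seqLaw μc, ⨆ m, Tm ρ m c ^ γ < ∞ :=
    ae_lt_top (Measurable.iSup fun m => (measurable_Tm m).pow_const γ)
      (ne_top_of_le_ne_top ENNReal.ofReal_ne_top h1)
  filter_upwards [h2] with c hc
  set s := ⨆ m, Tm ρ m c ^ γ with hs
  refine ⟨(s ^ (1 / γ)).toReal + 1, by positivity, fun m => ?_⟩
  have h3 : Tm ρ m c ^ γ ≤ s := le_iSup (fun m => Tm ρ m c ^ γ) m
  have h4 : Tm ρ m c ≤ s ^ (1 / γ) := by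
    have := ENNReal.rpow_le_rpow h3 (show 0 ≤ 1 / γ by have := hP.γ0; positivity)
    rwa [← ENNReal.rpow_mul, mul_one_div_cancel hP.γ0.ne', ENNReal.rpow_one] at this
  have h5 : s ^ (1 / γ) ≠ ∞ := ENNReal.rpow_ne_top_of_nonneg (by have := hP.γ0; positivity) hc.ne
  refine h4.trans ?_
  rw [ENNReal.ofReal_add ENNReal.toReal_nonneg zero_le_one, ENNReal.ofReal_toReal h5]
  exact le_self_add

/-! ### the probability to stay up -/

lemma Uf_bound (hK : InterArrival K α) (hρ : IsStep ρ fun n => ENNReal.ofReal (K n)) :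
    ∃ C : ℝ, 0 < C ∧ ∀ N : ℕ, 1 ≤ N → Uf ρ N ≤ ENNReal.ofReal (C * (N : ℝ) ^ (-α)) := by
  have hk0 : ENNReal.ofReal (K 0) = 0 := by rw [hK.zero, ENNReal.ofReal_zero]
  obtain ⟨c1, c2, hc1, hc2, hb⟩ := K_bounds hK
  obtain ⟨c3, c4, hc3, hc4, hkb⟩ := kb_bounds hK
  have hα := hK.α_pos
  obtain ⟨D, hD, hmain⟩ := renewal_bound c2 (1 + α) α (1 / 2) hc2.le (by linarith) hα.le
    (by linarith) (by norm_num)
  refine ⟨D * c4 + 1, by positivity, ?_⟩
  intro N hN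
  have hKn := K_nonneg hK
  have hkbtop : ∀ N, 1 ≤ N → kb (fun n => ENNReal.ofReal (K n)) N ≠ ∞ := fun N hN =>
    ne_top_of_le_ne_top ENNReal.ofReal_ne_top (hkb N hN).2
  have htop : ∀ N, Uf ρ N ≠ ∞ := fun N => ne_top_of_le_ne_top ENNReal.one_ne_top (Uf_le_one N)
  have h := hmain (fun n => K n / 2)
    (fun N => (kb (fun n => ENNReal.ofReal (K n)) N * 2⁻¹).toReal)
    (fun N => (Uf ρ N).toReal) c4 N (fun n => by have := hKn n; positivity)
    (fun _ => ENNReal.toReal_nonneg)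
    (fun _ => ENNReal.toReal_nonneg) hc4.le (fun n hn => by
      have h1 := (hb n hn).2
      have h2 := hKn n
      show K n / 2 ≤ c2 * (n : ℝ) ^ (-(1 + α))
      linarith) (fun s => by
      rw [← Finset.sum_div]
      have := sum_le_hasSum s (fun n _ => hKn n) hK.sum_one
      linarith) (fun N hN _ => by
      apply ENNReal.toReal_le_of_le_ofReal (by positivity)
      calc kb (fun n => ENNReal.ofReal (K n)) N * 2⁻¹
          ≤ kb (fun n => ENNReal.ofReal (K n)) N * 1 := by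
            gcongr; rw [ENNReal.inv_le_one]; exact one_le_two
        _ ≤ _ := by rw [mul_one]; exact (hkb N hN).2) (fun N hN _ => by
      have h1 := Uf_step hρ hk0 N hN
      have h2 : kb (fun n => ENNReal.ofReal (K n)) N * 2⁻¹ ≠ ∞ :=
        ENNReal.mul_ne_top (hkbtop N hN) (by simp)
      have h3 : ∀ n ∈ Finset.Ico 1 N, (ENNReal.ofReal (K n) * 2⁻¹) * Uf ρ (N - n) ≠ ∞ :=
        fun n _ => ENNReal.mul_ne_top (ENNReal.mul_ne_top ENNReal.ofReal_ne_top (by simp)) (htop _)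
      show (Uf ρ N).toReal ≤ _
      rw [h1, ENNReal.toReal_add h2 (ENNReal.sum_ne_top.2 h3), ENNReal.toReal_sum h3]
      apply le_of_eq
      congr 1
      refine Finset.sum_congr rfl fun n _ => ?_
      rw [ENNReal.toReal_mul, ENNReal.toReal_mul, ENNReal.toReal_ofReal (hKn n),
        ENNReal.toReal_inv, ENNReal.toReal_ofNat]
      ring) N hN le_rfl
  have h' : (Uf ρ N).toReal ≤ D * c4 * (N : ℝ) ^ (-α) := h
  rw [← ENNReal.ofReal_toReal (htop N)]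
  apply ENNReal.ofReal_le_ofReal
  refine h'.trans ?_
  have : 0 ≤ (N : ℝ) ^ (-α) := Real.rpow_nonneg (Nat.cast_nonneg _) _
  nlinarith

/-! ### lower bounds of the partition function -/

lemma Zf_lower (hK : InterArrival K α) (hρ : IsStep ρ fun n => ENNReal.ofReal (K n)) :
    ∃ c : ℝ, 0 < c ∧ ∀ N : ℕ, 1 ≤ N → ∀ x, ENNReal.ofReal (c * (N : ℝ) ^ (-α)) ≤ Zf ρ N x := by
  have hk0 : ENNReal.ofReal (K 0) = 0 := by rw [hK.zero, ENNReal.ofReal_zero]
  obtain ⟨c3, c4, hc3, hc4, hkb⟩ := kb_bounds hK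
  refine ⟨c3 / 2, by positivity, ?_⟩
  intro N hN x
  rw [Zf_step hρ hk0 N hN x]
  calc ENNReal.ofReal (c3 / 2 * (N : ℝ) ^ (-α))
      = ENNReal.ofReal (c3 * (N : ℝ) ^ (-α)) * 2⁻¹ := by
        rw [show c3 / 2 * (N : ℝ) ^ (-α) = (c3 * (N : ℝ) ^ (-α)) * 2⁻¹ by ring,
          ENNReal.ofReal_mul (by positivity), ENNReal.ofReal_inv_of_pos two_pos, ENNReal.ofReal_ofNat]
    _ ≤ kb (fun n => ENNReal.ofReal (K n)) N * (2⁻¹ * (1 + En N x)) := by
        gcongr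
        · exact (hkb N hN).1
        · exact le_mul_of_one_le_right zero_le le_self_add
    _ ≤ _ := le_self_add

lemma Zf_lower2 (hK : InterArrival K α) (hρ : IsStep ρ fun n => ENNReal.ofReal (K n)) :
    ∃ c : ℝ, 0 < c ∧ ∀ N l : ℕ, 1 ≤ l → l < N → ∀ x,
      ENNReal.ofReal (c * (N : ℝ) ^ (-(1 + α)) * (l : ℝ) ^ (-α)) * En l (sh (N - l) x) ≤
        Zf ρ N x := by
  have hk0 : ENNReal.ofReal (K 0) = 0 := by rw [hK.zero, ENNReal.ofReal_zero]
  obtain ⟨c1, c2, hc1, hc2, hb⟩ := K_bounds hK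
  obtain ⟨c3, c4, hc3, hc4, hkb⟩ := kb_bounds hK
  refine ⟨c1 / 2 * (c3 / 2), by positivity, ?_⟩
  intro N l hl hlN x
  have hα := hK.α_pos
  have hl0 : (0:ℝ) < l := by exact_mod_cast hl
  have h1 : Zf ρ l (sh (N - l) x) ≥ ENNReal.ofReal (c3 * (l : ℝ) ^ (-α)) * (2⁻¹ * En l (sh (N - l) x)) := by
    rw [Zf_step hρ hk0 l hl]
    refine le_trans ?_ le_self_add
    gcongr
    · exact (hkb l hl).1
    · exact le_add_self
  have h2 : (ENNReal.ofReal (K (N - l)) * 2⁻¹) * (1 + En (N - l) x) * Zf ρ (N - (N - l)) (sh (N - l) x) ≤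
      Zf ρ N x := by
    rw [Zf_step hρ hk0 N (by omega) x]
    refine le_trans ?_ le_add_self
    exact Finset.single_le_sum (f := fun n => (ENNReal.ofReal (K n) * 2⁻¹) * (1 + En n x) *
      Zf ρ (N - n) (sh n x)) (fun _ _ => zero_le) (by rw [Finset.mem_Ico]; omega)
  have h3 : N - (N - l) = l := by omega
  rw [h3] at h2
  refine le_trans ?_ h2
  have h4 : ENNReal.ofReal (c1 * (N : ℝ) ^ (-(1 + α))) ≤ ENNReal.ofReal (K (N - l)) := by
    apply ENNReal.ofReal_le_ofReal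
    refine le_trans ?_ (hb (N - l) (by omega)).1
    apply mul_le_mul_of_nonneg_left _ hc1.le
    apply Real.rpow_le_rpow_of_nonpos
    · exact_mod_cast (by omega : 0 < N - l)
    · exact_mod_cast Nat.sub_le N l
    · linarith
  calc ENNReal.ofReal (c1 / 2 * (c3 / 2) * (N : ℝ) ^ (-(1 + α)) * (l : ℝ) ^ (-α)) * En l (sh (N - l) x)
      = (ENNReal.ofReal (c1 * (N : ℝ) ^ (-(1 + α))) * 2⁻¹) * 1 *
          (ENNReal.ofReal (c3 * (l : ℝ) ^ (-α)) * (2⁻¹ * En l (sh (N - l) x))) := by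
        have e : c1 / 2 * (c3 / 2) * (N : ℝ) ^ (-(1 + α)) * (l : ℝ) ^ (-α) =
          (c1 * (N : ℝ) ^ (-(1 + α))) * 2⁻¹ * ((c3 * (l : ℝ) ^ (-α)) * 2⁻¹) := by ring
        have hN0 : (0:ℝ) ≤ (N : ℝ) ^ (-(1 + α)) := Real.rpow_nonneg (Nat.cast_nonneg _) _
        have hl1 : (0:ℝ) ≤ (l : ℝ) ^ (-α) := Real.rpow_nonneg (Nat.cast_nonneg _) _
        rw [e, ENNReal.ofReal_mul (by positivity), ENNReal.ofReal_mul (by positivity),
          ENNReal.ofReal_mul (p := c3 * (l : ℝ) ^ (-α)) (by positivity),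
          ENNReal.ofReal_inv_of_pos two_pos, ENNReal.ofReal_ofNat]
        ring
    _ ≤ _ := by
        gcongr
        exact le_self_add

/-! ### the restricted partition function is negligible along a subsequence -/

lemma S_limit (γ b : ℝ) (hγ : 0 < γ) (hb : 1 < b) :
    Tendsto (fun N : ℕ => (N : ℝ) ^ (-γ) * ∑ j ∈ Finset.Icc 1 N, (j : ℝ) ^ (-(b - γ))) atTop (𝓝 0) := by
  set f : ℕ → ℕ → ℝ := fun N j => if j ∈ Finset.Icc 1 N then (N : ℝ) ^ (-γ) * (j : ℝ) ^ (-(b - γ)) else 0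
    with hf
  have h1 : ∀ N : ℕ, (N : ℝ) ^ (-γ) * ∑ j ∈ Finset.Icc 1 N, (j : ℝ) ^ (-(b - γ)) = ∑' j, f N j := by
    intro N
    rw [tsum_eq_sum (s := Finset.Icc 1 N), Finset.mul_sum]
    · refine Finset.sum_congr rfl fun j hj => by simp only [hf]; rw [if_pos hj]
    · intro j hj; simp only [hf]; rw [if_neg hj]
  have h2 : Tendsto (fun N => ∑' j, f N j) atTop (𝓝 (∑' _ : ℕ, (0:ℝ))) := by
    apply tendsto_tsum_of_dominated_convergence (bound := fun j : ℕ => (j : ℝ) ^ (-b))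
    · exact Real.summable_nat_rpow.2 (by linarith)
    · intro j
      have h3 : Tendsto (fun N : ℕ => (N : ℝ) ^ (-γ) * (j : ℝ) ^ (-(b - γ))) atTop
          (𝓝 (0 * (j : ℝ) ^ (-(b - γ)))) :=
        ((tendsto_rpow_neg_atTop hγ).comp tendsto_natCast_atTop_atTop).mul_const _
      rw [zero_mul] at h3
      refine squeeze_zero (fun N => ?_) (fun N => ?_) h3
      · simp only [hf]; split_ifs
        · positivity
        · exact le_rfl
      · simp only [hf]; split_ifs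
        · exact le_rfl
        · positivity
    · refine Eventually.of_forall fun N j => ?_
      simp only [hf]
      split_ifs with h
      · rw [Finset.mem_Icc] at h
        have hj : (0:ℝ) < j := by exact_mod_cast h.1
        have hjN : (j:ℝ) ≤ N := by exact_mod_cast h.2
        rw [Real.norm_eq_abs, abs_of_nonneg (by positivity)]
        calc (N : ℝ) ^ (-γ) * (j : ℝ) ^ (-(b - γ)) ≤ (j : ℝ) ^ (-γ) * (j : ℝ) ^ (-(b - γ)) := by
              apply mul_le_mul_of_nonneg_right _ (by positivity)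
              exact Real.rpow_le_rpow_of_nonpos hj hjN (by linarith)
          _ = (j : ℝ) ^ (-b) := by rw [← Real.rpow_add hj]; congr 1; ring
      · rw [norm_zero]; positivity
  rw [tsum_zero] at h2
  exact h2.congr fun N => (h1 N).symm

/-- the index of the first site of the window `[ε N, N]` -/
noncomputable def mi (ε : ℝ) (N : ℕ) : ℕ := ⌈ε * N⌉₊ - 1

lemma mi_lt (ε : ℝ) (hε0 : 0 < ε) (hε1 : ε < 1) (N : ℕ) (hN : 1 ≤ N) : mi ε N < N := by
  unfold mi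
  have hN0 : (0:ℝ) < N := by exact_mod_cast hN
  have h1 : ⌈ε * N⌉₊ ≤ N := Nat.ceil_le.2 (by nlinarith)
  have h2 : 0 < ⌈ε * N⌉₊ := Nat.ceil_pos.2 (by positivity)
  omega

lemma mi_ge (ε : ℝ) (hε0 : 0 < ε) (N : ℕ) (hN : 1 ≤ N) : ε * N ≤ (mi ε N : ℝ) + 1 := by
  unfold mi
  have hN0 : (0:ℝ) < N := by exact_mod_cast hN
  have h2 : 0 < ⌈ε * N⌉₊ := Nat.ceil_pos.2 (by positivity)
  have h3 : ((⌈ε * N⌉₊ - 1 : ℕ) : ℝ) + 1 = (⌈ε * N⌉₊ : ℝ) := by
    rw [Nat.cast_sub h2]; simp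
  rw [h3]; exact Nat.le_ceil _

lemma mi_sub (ε : ℝ) (hε0 : 0 < ε) (hε1 : ε < 1) (N : ℕ) (hN : 1 ≤ N) :
    (1 - ε) * N ≤ ((N - mi ε N : ℕ) : ℝ) := by
  have h1 := mi_lt ε hε0 hε1 N hN
  rw [Nat.cast_sub h1.le]
  unfold mi
  have hN0 : (0:ℝ) < N := by exact_mod_cast hN
  have h2 : 0 < ⌈ε * N⌉₊ := Nat.ceil_pos.2 (by positivity)
  have h3 : ((⌈ε * N⌉₊ - 1 : ℕ) : ℝ) = (⌈ε * N⌉₊ : ℝ) - 1 := by
    rw [Nat.cast_sub h2]; simp
  rw [h3]
  have h4 := Nat.ceil_lt_add_one (show 0 ≤ ε * N by positivity)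
  linarith

lemma ratio_moment (hP : Par K α μc γ q φ) (hρ : IsStep ρ fun n => ENNReal.ofReal (K n)) (ε : ℝ)
    (hε0 : 0 < ε) (hε1 : ε < 1) :
    Tendsto (fun N => ∫⁻ c, (Wf ρ N (mi ε N) c / Zf ρ N c) ^ γ ∂seqLaw μc) atTop (𝓝 0) := by
  obtain ⟨cz, hcz, hz⟩ := Zf_lower (ρ := ρ) hP.hK hρ
  obtain ⟨C, hC, hw⟩ := wm_bound hP hρ
  have hγ := hP.γ0
  have hα := hP.hK.α_pos
  set b : ℝ := (1 + α) * γ with hb
  have hlim := S_limit γ b hγ hP.hb
  have hlim2 : Tendsto (fun N : ℕ => ENNReal.ofReal (cz ^ (-γ) * C * ε ^ (-b) * ((N : ℝ) ^ (-γ) *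
      ∑ j ∈ Finset.Icc 1 N, (j : ℝ) ^ (-(b - γ))))) atTop (𝓝 0) := by
    have h1 := (hlim.const_mul (cz ^ (-γ) * C * ε ^ (-b)))
    rw [mul_zero] at h1
    have h2 := (ENNReal.continuous_ofReal.tendsto 0).comp h1
    rw [ENNReal.ofReal_zero] at h2
    exact h2
  refine tendsto_of_tendsto_of_tendsto_of_le_of_le' tendsto_const_nhds hlim2
    (Eventually.of_forall fun _ => zero_le) ?_
  filter_upwards [eventually_ge_atTop 1] with N hN
  have hN0 : (0:ℝ) < N := by exact_mod_cast hN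
  set L : ℝ := cz * (N : ℝ) ^ (-α) with hL
  have hL0 : 0 < L := by rw [hL]; positivity
  have h1 : ∀ c, (Wf ρ N (mi ε N) c / Zf ρ N c) ^ γ ≤
      ENNReal.ofReal (L ^ (-γ)) * Wf ρ N (mi ε N) c ^ γ := by
    intro c
    calc (Wf ρ N (mi ε N) c / Zf ρ N c) ^ γ ≤ (Wf ρ N (mi ε N) c / ENNReal.ofReal L) ^ γ :=
          ENNReal.rpow_le_rpow (ENNReal.div_le_div_left (hz N hN c) _) hγ.le
      _ = _ := by
          rw [div_eq_mul_inv, ENNReal.mul_rpow_of_nonneg _ _ hγ.le, mul_comm, ENNReal.inv_rpow,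
            ENNReal.ofReal_rpow_of_pos hL0, ← ENNReal.ofReal_inv_of_pos (by positivity),
            Real.rpow_neg hL0.le]
  calc ∫⁻ c, (Wf ρ N (mi ε N) c / Zf ρ N c) ^ γ ∂seqLaw μc
      ≤ ∫⁻ c, ENNReal.ofReal (L ^ (-γ)) * Wf ρ N (mi ε N) c ^ γ ∂seqLaw μc := lintegral_mono h1
    _ = ENNReal.ofReal (L ^ (-γ)) * wm ρ μc γ N (mi ε N) := by
        rw [lintegral_const_mul _ ((measurable_Wf _ _).pow_const γ)]; rfl
    _ ≤ ENNReal.ofReal (L ^ (-γ)) * ENNReal.ofReal (C * (∑ j ∈ Finset.Icc 1 N, (j : ℝ) ^ (-(α * γ))) *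
          ((mi ε N : ℝ) + 1) ^ (-b)) := by
        gcongr
        rw [← ENNReal.ofReal_toReal (wm_ne_top hP hρ N (mi ε N))]
        exact ENNReal.ofReal_le_ofReal (hw N (mi ε N) (mi_lt ε hε0 hε1 N hN))
    _ ≤ _ := by
        rw [← ENNReal.ofReal_mul (by positivity)]
        apply ENNReal.ofReal_le_ofReal
        have hS0 : 0 ≤ ∑ j ∈ Finset.Icc 1 N, (j : ℝ) ^ (-(α * γ)) :=
          Finset.sum_nonneg fun j _ => Real.rpow_nonneg (Nat.cast_nonneg _) _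
        have e1 : ((mi ε N : ℝ) + 1) ^ (-b) ≤ ε ^ (-b) * (N : ℝ) ^ (-b) := by
          rw [← Real.mul_rpow hε0.le hN0.le]
          apply Real.rpow_le_rpow_of_nonpos (by positivity) (mi_ge ε hε0 N hN)
          have := hP.hb; linarith
        have e2 : L ^ (-γ) = cz ^ (-γ) * (N : ℝ) ^ (α * γ) := by
          rw [hL, Real.mul_rpow hcz.le (by positivity), ← Real.rpow_mul hN0.le]
          congr 2; ring
        have e3 : (N : ℝ) ^ (α * γ) * (N : ℝ) ^ (-b) = (N : ℝ) ^ (-γ) := by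
          rw [← Real.rpow_add hN0]; congr 1; rw [hb]; ring
        have e4 : b - γ = α * γ := by rw [hb]; ring
        rw [e4, e2]
        calc cz ^ (-γ) * (N : ℝ) ^ (α * γ) * (C * (∑ j ∈ Finset.Icc 1 N, (j : ℝ) ^ (-(α * γ))) *
              ((mi ε N : ℝ) + 1) ^ (-b))
            ≤ cz ^ (-γ) * (N : ℝ) ^ (α * γ) * (C * (∑ j ∈ Finset.Icc 1 N, (j : ℝ) ^ (-(α * γ))) *
              (ε ^ (-b) * (N : ℝ) ^ (-b))) := by gcongr
          _ = cz ^ (-γ) * C * ε ^ (-b) * (((N : ℝ) ^ (α * γ) * (N : ℝ) ^ (-b)) *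
              ∑ j ∈ Finset.Icc 1 N, (j : ℝ) ^ (-(α * γ))) := by ring
          _ = _ := by rw [e3]

theorem canon_limsup (hP : Par K α μc γ q φ) (hρ : IsStep ρ fun n => ENNReal.ofReal (K n)) (ε : ℝ)
    (hε0 : 0 < ε) (hε1 : ε < 1) :
    ∀ᵐ c ∂seqLaw μc, ∀ η : ℝ≥0∞, 0 < η → ∃ᶠ N in atTop, Wf ρ N (mi ε N) c / Zf ρ N c < η := by
  have hmeas : ∀ N, Measurable fun c => (Wf ρ N (mi ε N) c / Zf ρ N c) ^ γ := fun N =>
    ((measurable_Wf _ _).div (measurable_Zf _)).pow_const γ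
  have h1 : ∫⁻ c, liminf (fun N => (Wf ρ N (mi ε N) c / Zf ρ N c) ^ γ) atTop ∂seqLaw μc = 0 := by
    refine le_antisymm ((lintegral_liminf_le hmeas).trans ?_) zero_le
    rw [(ratio_moment hP hρ ε hε0 hε1).liminf_eq]
  rw [lintegral_eq_zero_iff (Measurable.liminf hmeas)] at h1
  filter_upwards [h1] with c hc η hη
  by_contra hcon
  rw [not_frequently] at hcon
  have h2 : η ^ γ ≤ liminf (fun N => (Wf ρ N (mi ε N) c / Zf ρ N c) ^ γ) atTop := by
    apply le_liminf_of_le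
    · isBoundedDefault
    · filter_upwards [hcon] with N hN
      exact ENNReal.rpow_le_rpow (not_lt.1 hN) hP.γ0.le
  have hc' : liminf (fun N => (Wf ρ N (mi ε N) c / Zf ρ N c) ^ γ) atTop = 0 := hc
  rw [hc'] at h2
  have h3 : 0 < η ^ γ := by
    rcases eq_or_ne η ∞ with h | h
    · rw [h, ENNReal.top_rpow_of_pos hP.γ0]; exact ENNReal.zero_lt_top
    · exact ENNReal.rpow_pos hη h
  exact absurd h2 (not_le.2 h3)

end canon

end Pool.Agent.H.MP_9ba241_pr
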