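import Pool.Agent.H.MP_9ba241_pr.Interior

open MeasureTheory ProbabilityTheory Filter Topology
open scoped ENNReal NNReal

set_option linter.unusedSectionVars false
set_option linter.style.haveILetI false
set_option maxHeartbeats 400000

namespace Pool.Agent.H.MP_9ba241_pr

lemma K_le_one {K : ℕ → ℝ} {α : ℝ} (hK : InterArrival K α) (n : ℕ) : K n ≤ 1 := by
  have := sum_le_hasSum {n} (fun n _ => K_nonneg hK n) hK.sum_one
  simpa using this

lemma exists_gamma {K : ℕ → ℝ} {α : ℝ} (hK : InterArrival K α) :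
    ∃ γ : ℝ, 0 < γ ∧ γ < 1 ∧ 1 < (1 + α) * γ ∧ Summable (fun n => (K n / 2) ^ γ) ∧
      ∑' n, (K n / 2) ^ γ < 3 / 4 := by
  obtain ⟨c1, c2, hc1, hc2, hKb⟩ := K_bounds hK
  have hKn := K_nonneg hK
  have hα := hK.α_pos
  set γ0 : ℝ := (1 / (1 + α) + 1) / 2 with hγ0
  have h1 : 1 / (1 + α) < 1 := by rw [div_lt_one (by linarith)]; linarith
  have h2 : 0 < 1 / (1 + α) := by positivity
  have hγ01 : γ0 < 1 := by rw [hγ0]; linarith
  have hγ00 : 0 < γ0 := by rw [hγ0]; linarith
  have hb : ∀ γ, γ0 ≤ γ → 1 < (1 + α) * γ := by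
    intro γ hγ
    have h3 : 1 / (1 + α) < γ := by rw [hγ0] at hγ; linarith
    rw [div_lt_iff₀ (by linarith)] at h3
    linarith
  have hs : ∀ γ, γ0 ≤ γ → Summable fun n : ℕ => (K n / 2) ^ γ := by
    intro γ hγ
    have hγp : 0 < γ := by linarith
    have h1 : Summable fun n : ℕ => c2 ^ γ * (n : ℝ) ^ (-((1 + α) * γ)) :=
      (Real.summable_nat_rpow.2 (by linarith [hb γ hγ])).mul_left _
    refine Summable.of_nonneg_of_le (fun n => by have := hKn n; positivity) (fun n => ?_) h1
    rcases Nat.eq_zero_or_pos n with h | h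
    · subst h
      rw [hK.zero, zero_div, Real.zero_rpow hγp.ne']
      positivity
    · have hn0 : (0:ℝ) < n := by exact_mod_cast h
      calc (K n / 2) ^ γ ≤ (c2 * (n : ℝ) ^ (-(1 + α))) ^ γ := by
            apply Real.rpow_le_rpow (by have := hKn n; positivity) _ hγp.le
            have := (hKb n h).2
            have := hKn n
            linarith
        _ = c2 ^ γ * (n : ℝ) ^ (-((1 + α) * γ)) := by
            rw [Real.mul_rpow hc2.le (by positivity), ← Real.rpow_mul hn0.le]
            congr 2; ring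
  have hcont : ContinuousOn (fun γ : ℝ => ∑' n, (K n / 2) ^ γ) (Set.Icc γ0 1) := by
    apply continuousOn_tsum (u := fun n => (K n / 2) ^ γ0)
    · intro n
      rcases Nat.eq_zero_or_pos n with h | h
      · subst h
        refine (continuousOn_const (c := (0:ℝ))).congr fun γ hγ => ?_
        have : 0 < γ := by have := hγ.1; linarith
        show (K 0 / 2) ^ γ = 0
        rw [hK.zero, zero_div, Real.zero_rpow this.ne']
      · have : K n / 2 ≠ 0 := by have := hK.pos n h; positivity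
        exact (Real.continuous_const_rpow this).continuousOn
    · exact hs γ0 le_rfl
    · intro n γ hγ
      rw [Real.norm_eq_abs, abs_of_nonneg (by have := hKn n; positivity)]
      rcases Nat.eq_zero_or_pos n with h | h
      · subst h
        have : 0 < γ := by have := hγ.1; linarith
        rw [hK.zero, zero_div, Real.zero_rpow this.ne', Real.zero_rpow hγ00.ne']
      · apply Real.rpow_le_rpow_of_exponent_ge
        · have := hK.pos n h; positivity
        · have := K_le_one hK n; linarith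
        · exact hγ.1
  have hval : ∑' n, (K n / 2) ^ (1:ℝ) = 1 / 2 := by
    simp_rw [Real.rpow_one]
    rw [tsum_div_const, hK.sum_one.tsum_eq]
  have hev : ∀ᶠ γ in 𝓝[Set.Icc γ0 1] (1:ℝ), ∑' n, (K n / 2) ^ γ < 3 / 4 := by
    apply (hcont 1 ⟨hγ01.le, le_rfl⟩).eventually (gt_mem_nhds _)
    show ∑' n, (K n / 2) ^ (1:ℝ) < 3 / 4
    rw [hval]; norm_num
  have hle : 𝓝[Set.Ioo γ0 1] (1:ℝ) ≤ 𝓝[Set.Icc γ0 1] 1 :=
    nhdsWithin_mono _ fun x hx => ⟨hx.1.le, hx.2.le⟩
  have hne : (𝓝[Set.Ioo γ0 1] (1:ℝ)).NeBot := by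
    rw [← mem_closure_iff_nhdsWithin_neBot, closure_Ioo hγ01.ne]
    exact ⟨hγ01.le, le_rfl⟩
  obtain ⟨γ, h3, h4⟩ := ((hev.filter_mono hle).and self_mem_nhdsWithin).exists
  exact ⟨γ, hγ00.trans h4.1, h4.2, hb γ h4.1.le, hs γ h4.1.le, h3⟩

section law
variable {ν : Measure ℝ} [IsProbabilityMeasure ν]

/-- Jensen -/
lemma one_le_mgf (hexp : ∀ t : ℝ, Integrable (fun x => Real.exp (t * x)) ν)
    (hint : Integrable (fun x => x) ν) (hmean : ∫ x, x ∂ν = 0) (t : ℝ) :
    1 ≤ ∫ x, Real.exp (t * x) ∂ν := by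
  have h1 : ∫ x, (t * x + 1) ∂ν = 1 := by
    rw [integral_add (hint.const_mul t) (integrable_const _), integral_const_mul, hmean]
    simp
  rw [← h1]
  apply integral_mono ((hint.const_mul t).add (integrable_const _)) (hexp t)
  intro x
  exact Real.add_one_le_exp (t * x)

/-- the ratio of moments becomes small -/
lemma exists_u (hexp : ∀ t : ℝ, Integrable (fun x => Real.exp (t * x)) ν)
    (hatom : ∀ η : ℝ≥0∞, 0 < η → ∃ a : ℝ, 0 < ν (Set.Iic a) ∧ ν (Set.Iic a) < η)
    (γ : ℝ) (hγ0 : 0 < γ) (hγ1 : γ < 1) :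
    ∃ u : ℝ, 0 < u ∧ ∫ x, Real.exp (γ * (-u * x)) ∂ν ≤ 1 / 8 * (∫ x, Real.exp (-u * x) ∂ν) ^ γ := by
  -- constants
  obtain ⟨δ, hδ0, hδγ⟩ : ∃ δ : ℝ, 0 < δ ∧ δ ^ γ ≤ 1 / 32 := by
    refine ⟨(1 / 32) ^ (1 / γ), by positivity, ?_⟩
    rw [← Real.rpow_mul (by norm_num), one_div_mul_cancel hγ0.ne', Real.rpow_one]
  set Cρ : ℝ := ((32:ℝ) ^ (1 / (1 - γ))) ^ γ with hCρ
  have hCρ0 : 0 < Cρ := by rw [hCρ]; positivity
  have h1γ : 0 < 1 - γ := by linarith
  -- y^γ ≤ y/32 + Cρ
  have hyoung : ∀ y : ℝ, 0 ≤ y → y ^ γ ≤ 1 / 32 * y + Cρ := by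
    intro y hy
    rcases le_or_gt y ((32:ℝ) ^ (1 / (1 - γ))) with h | h
    · have := Real.rpow_le_rpow hy h hγ0.le
      linarith
    · have hy0 : 0 < y := lt_trans (by positivity) h
      have h2 : (32:ℝ) ≤ y ^ (1 - γ) := by
        have := Real.rpow_le_rpow (by positivity) h.le h1γ.le
        rwa [← Real.rpow_mul (by norm_num), one_div_mul_cancel h1γ.ne', Real.rpow_one] at this
      have h3 : y ^ γ * y ^ (1 - γ) = y := by
        rw [← Real.rpow_add hy0]; simp
      have h4 : 0 < y ^ γ := Real.rpow_pos_of_pos hy0 _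
      nlinarith
  -- the set of small measure
  obtain ⟨a, ha0, haη⟩ := hatom (ENNReal.ofReal (1 / (32 * Cρ))) (by
    rw [ENNReal.ofReal_pos]; positivity)
  -- right continuity of the distribution function
  obtain ⟨x, hx0, hx⟩ : ∃ x : ℝ, 0 < x ∧ ν (Set.Iic (a + x)) < ENNReal.ofReal (1 / (32 * Cρ)) := by
    have hlim : Tendsto (fun n : ℕ => ν (Set.Iic (a + 1 / ((n : ℝ) + 1)))) atTop (𝓝 (ν (Set.Iic a))) := by
      have hanti : Antitone fun n : ℕ => Set.Iic (a + 1 / ((n : ℝ) + 1)) := by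
        intro n m h
        apply Set.Iic_subset_Iic.2
        have : (1:ℝ) / ((m : ℝ) + 1) ≤ 1 / ((n : ℝ) + 1) :=
          one_div_le_one_div_of_le (by positivity) (by
            have : (n:ℝ) ≤ m := by exact_mod_cast h
            linarith)
        linarith
      have h1 := tendsto_measure_iInter_atTop (μ := ν)
        (fun n => measurableSet_Iic.nullMeasurableSet) hanti ⟨0, measure_ne_top _ _⟩
      have h2 : ⋂ n : ℕ, Set.Iic (a + 1 / ((n : ℝ) + 1)) = Set.Iic a := by
        ext y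
        simp only [Set.mem_iInter, Set.mem_Iic]
        constructor
        · intro h
          apply le_of_forall_pos_le_add
          intro e he
          obtain ⟨n, hn⟩ := exists_nat_one_div_lt he
          linarith [h n]
        · intro h n
          have : (0:ℝ) < 1 / ((n : ℝ) + 1) := by positivity
          linarith
      rw [h2] at h1
      exact h1
    obtain ⟨n, hn⟩ := (hlim.eventually (gt_mem_nhds haη)).exists
    exact ⟨1 / ((n : ℝ) + 1), by positivity, hn⟩
  set p : ℝ := ν.real (Set.Iic a) with hp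
  have hp0 : 0 < p := by
    rw [hp, measureReal_def]; exact ENNReal.toReal_pos ha0.ne' (measure_ne_top _ _)
  -- choice of u
  obtain ⟨u, hu0, hu⟩ : ∃ u : ℝ, 0 < u ∧ -Real.log (δ * p) ≤ u * x := by
    refine ⟨|Real.log (δ * p)| / x + 1, by positivity, ?_⟩
    have h1 := neg_abs_le (Real.log (δ * p))
    have h2 : (|Real.log (δ * p)| / x + 1) * x = |Real.log (δ * p)| + x := by field_simp
    rw [h2]; linarith [neg_le_abs (Real.log (δ * p))]
  refine ⟨u, hu0, ?_⟩
  set Mu : ℝ := ∫ x, Real.exp (-u * x) ∂ν with hMu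
  -- lower bound of the moment
  have hMlow : Real.exp (-u * a) * p ≤ Mu := by
    have h1 : ∫ x in Set.Iic a, Real.exp (-u * a) ∂ν ≤ ∫ x in Set.Iic a, Real.exp (-u * x) ∂ν := by
      apply setIntegral_mono_on (integrable_const _).integrableOn (hexp (-u)).integrableOn
        measurableSet_Iic
      intro y hy
      apply Real.exp_le_exp.2
      have : y ≤ a := hy
      nlinarith
    have h2 : ∫ x in Set.Iic a, Real.exp (-u * x) ∂ν ≤ Mu :=
      setIntegral_le_integral (hexp (-u)) (Eventually.of_forall fun x => (Real.exp_pos _).le)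
    have h3 : ∫ x in Set.Iic a, Real.exp (-u * a) ∂ν = Real.exp (-u * a) * p := by
      rw [setIntegral_const, smul_eq_mul, mul_comm]
    linarith
  have hM0 : 0 < Mu := lt_of_lt_of_le (by positivity) hMlow
  -- pointwise inequality
  have hpt : ∀ y : ℝ, Real.exp (γ * (-u * y)) ≤ Mu ^ γ *
      (1 / 32 + 1 / 32 * (Real.exp (-u * y) / Mu) + Cρ * (Set.Iic (a + x)).indicator 1 y) := by
    intro y
    have e1 : Real.exp (γ * (-u * y)) = Mu ^ γ * (Real.exp (-u * y) / Mu) ^ γ := by
      rw [Real.div_rpow (Real.exp_pos _).le hM0.le, ← Real.exp_mul, mul_div_cancel₀]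
      · congr 1; ring
      · exact (Real.rpow_pos_of_pos hM0 _).ne'
    rw [e1]
    apply mul_le_mul_of_nonneg_left _ (by positivity)
    set z : ℝ := Real.exp (-u * y) / Mu with hz
    have hz0 : 0 < z := by rw [hz]; positivity
    rcases le_or_gt z δ with h | h
    · have h1 := Real.rpow_le_rpow hz0.le h hγ0.le
      have h2 : 0 ≤ Cρ * (Set.Iic (a + x)).indicator (1 : ℝ → ℝ) y := by
        apply mul_nonneg hCρ0.le
        exact Set.indicator_nonneg (fun _ _ => zero_le_one) _
      linarith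
    · have hy : y ∈ Set.Iic (a + x) := by
        show y ≤ a + x
        have h1 : δ * (Real.exp (-u * a) * p) < Real.exp (-u * y) := by
          calc δ * (Real.exp (-u * a) * p) ≤ δ * Mu := mul_le_mul_of_nonneg_left hMlow hδ0.le
            _ < z * Mu := mul_lt_mul_of_pos_right h hM0
            _ = Real.exp (-u * y) := by rw [hz]; field_simp
        have h2 := Real.log_lt_log (by positivity) h1
        rw [Real.log_exp, show δ * (Real.exp (-u * a) * p) = Real.exp (-u * a) * (δ * p) by ring,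
          Real.log_mul (Real.exp_pos _).ne' (by positivity), Real.log_exp] at h2
        nlinarith
      rw [Set.indicator_of_mem hy, Pi.one_apply, mul_one]
      have := hyoung z hz0.le
      linarith
  have hintl : Integrable (fun y => Real.exp (γ * (-u * y))) ν := by
    refine (hexp (-γ * u)).congr (Eventually.of_forall fun y => ?_)
    show Real.exp (-γ * u * y) = _
    congr 1; ring
  have hind : Integrable (fun y => (Set.Iic (a + x)).indicator (1 : ℝ → ℝ) y) ν :=
    (integrable_const (1:ℝ)).indicator measurableSet_Iic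
  have hi1 : Integrable (fun y => 1 / 32 * (Real.exp (-u * y) / Mu)) ν :=
    ((hexp (-u)).div_const Mu).const_mul _
  have hi2 : Integrable (fun y => 1 / 32 + 1 / 32 * (Real.exp (-u * y) / Mu)) ν :=
    (integrable_const _).add hi1
  have hi3 : Integrable (fun y => Cρ * (Set.Iic (a + x)).indicator (1 : ℝ → ℝ) y) ν :=
    hind.const_mul _
  have hI : ∫ y, Real.exp (γ * (-u * y)) ∂ν ≤ Mu ^ γ * (1 / 32 + 1 / 32 * 1 + Cρ * ν.real (Set.Iic (a + x))) := by
    calc ∫ y, Real.exp (γ * (-u * y)) ∂ν ≤ ∫ y, Mu ^ γ *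
          (1 / 32 + 1 / 32 * (Real.exp (-u * y) / Mu) + Cρ * (Set.Iic (a + x)).indicator 1 y) ∂ν :=
          integral_mono hintl ((hi2.add hi3).const_mul _) hpt
      _ = _ := by
          have hA : ∫ y, 1 / 32 * (Real.exp (-u * y) / Mu) ∂ν = 1 / 32 * 1 := by
            rw [integral_const_mul, integral_div, ← hMu, div_self hM0.ne']
          have hB : ∫ y, Cρ * (Set.Iic (a + x)).indicator (1 : ℝ → ℝ) y ∂ν
              = Cρ * ν.real (Set.Iic (a + x)) := by
            rw [integral_const_mul, integral_indicator_one measurableSet_Iic]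
          have hC : ∫ _ : ℝ, (1 / 32 : ℝ) ∂ν = 1 / 32 := by simp
          rw [integral_const_mul, integral_add hi2 hi3, integral_add (integrable_const _) hi1,
            hA, hB, hC]
  have hsmall : Cρ * ν.real (Set.Iic (a + x)) ≤ 1 / 32 := by
    have h1 : ν.real (Set.Iic (a + x)) ≤ 1 / (32 * Cρ) := by
      rw [measureReal_def]
      exact ENNReal.toReal_le_of_le_ofReal (by positivity) hx.le
    calc Cρ * ν.real (Set.Iic (a + x)) ≤ Cρ * (1 / (32 * Cρ)) :=
          mul_le_mul_of_nonneg_left h1 hCρ0.le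
      _ = 1 / 32 := by field_simp
  refine hI.trans ?_
  have hMγ : 0 < Mu ^ γ := Real.rpow_pos_of_pos hM0 _
  nlinarith

end law

section main
variable {Ω Ω' : Type*} {mΩ : MeasurableSpace Ω} {mΩ' : MeasurableSpace Ω'} {K : ℕ → ℝ} {α : ℝ}
  {P : Measure Ω'} [IsProbabilityMeasure P] {ξ : ℕ → Ω' → ℕ} {ζ : ℕ → Ω' → Bool}
  {ν : Measure ℝ} {Q : Measure Ω} [IsProbabilityMeasure Q] {ω : ℕ → Ω → ℝ}

/-- no limit at all at some interior points -/
theorem no_limit (hK : InterArrival K α) (hR : RenewalSigns K P ξ ζ) (hC : Charges ν Q ω)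
    (hexp : ∀ t : ℝ, Integrable (fun x => Real.exp (t * x)) ν)
    (hint : Integrable (fun x => x) ν) (hmean : ∫ x, x ∂ν = 0)
    (hatom : ∀ η : ℝ≥0∞, 0 < η → ∃ a : ℝ, 0 < ν (Set.Iic a) ∧ ν (Set.Iic a) < η) :
    ∃ lam h : ℝ, 0 < lam ∧ 0 < h ∧ (lam, h) ∈ interior (delocRegion P ξ ζ Q ω) ∧
    ∀ ε : ℝ, 0 < ε → ε < 1 → ∀ᵐ a ∂Q,
      limsup (fun N => polymer P ξ ζ lam h (fun n => ω n a) N (staysUp ξ ζ ε N)) atTop = 1 ∧
      liminf (fun N => polymer P ξ ζ lam h (fun n => ω n a) N (staysUp ξ ζ ε N)) atTop = 0 := by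
  haveI := hC.isProb_ν
  obtain ⟨γ, hγ0, hγ1, hb, hs, hsum⟩ := exists_gamma hK
  obtain ⟨u, hu0, hu⟩ := exists_u hexp hatom γ hγ0 hγ1
  set Mu : ℝ := ∫ x, Real.exp (-u * x) ∂ν with hMu
  have hM1 : 1 ≤ Mu := one_le_mgf hexp hint hmean (-u)
  have hM0 : 0 < Mu := by linarith
  have hMγ : 8 ≤ Mu ^ γ := by
    have h1 := one_le_mgf hexp hint hmean (-(γ * u))
    have h2 : ∫ x, Real.exp (-(γ * u) * x) ∂ν = ∫ x, Real.exp (γ * (-u * x)) ∂ν := by
      congr 1; ext x; congr 1; ring
    rw [h2] at h1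
    linarith
  have hM8 : 8 ≤ Mu := by
    have : Mu ^ γ ≤ Mu ^ (1:ℝ) := Real.rpow_le_rpow_of_exponent_le hM1 hγ1.le
    rw [Real.rpow_one] at this
    linarith
  set lam : ℝ := u / 2 with hlam
  set h : ℝ := (Real.log Mu - Real.log 2) / u with hh
  have hlam0 : 0 < lam := by rw [hlam]; positivity
  have hlog : Real.log 2 < Real.log Mu := Real.log_lt_log (by norm_num) (by linarith)
  have hh0 : 0 < h := by rw [hh]; apply div_pos _ hu0; linarith
  have huh : u * h = Real.log Mu - Real.log 2 := by rw [hh]; field_simp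
  have hphγ : ∀ g : ℝ, ph ν lam h g = (2 / Mu) ^ g * ∫ x, Real.exp (g * (-u * x)) ∂ν := by
    intro g
    unfold ph
    rw [← integral_const_mul]
    congr 1; ext t
    have e1 : (2 / Mu) ^ g = Real.exp (-(g * (u * h))) := by
      rw [huh, Real.rpow_def_of_pos (by positivity), Real.log_div (by norm_num) hM0.ne']
      congr 1; ring
    rw [e1, ← Real.exp_add]
    congr 1
    rw [hlam]; ring
  have hph1 : ph ν lam h 1 = 2 := by
    rw [hphγ 1]
    simp only [one_mul, Real.rpow_one]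
    rw [← hMu]; field_simp
  have hphg : ph ν lam h γ ≤ 1 / 4 := by
    rw [hphγ γ]
    have h1 : (2 / Mu) ^ γ = 2 ^ γ / Mu ^ γ := Real.div_rpow (by norm_num) hM0.le γ
    have h2 : (2:ℝ) ^ γ ≤ 2 := by
      have : (2:ℝ) ^ γ ≤ 2 ^ (1:ℝ) := Real.rpow_le_rpow_of_exponent_le (by norm_num) hγ1.le
      rwa [Real.rpow_one] at this
    have hMγ0 : 0 < Mu ^ γ := by linarith
    rw [h1]
    calc 2 ^ γ / Mu ^ γ * ∫ x, Real.exp (γ * (-u * x)) ∂ν
        ≤ 2 ^ γ / Mu ^ γ * (1 / 8 * Mu ^ γ) := by gcongr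
      _ = 2 ^ γ / 8 := by field_simp
      _ ≤ 1 / 4 := by linarith
  have hpn := ph_nonneg ν lam h γ
  have hq : ∀ s : Finset ℕ, ∑ n ∈ s, kg K γ (ph ν lam h γ) n ≤ 15 / 16 := by
    intro s
    have h1 : ∑ n ∈ s, (K n / 2) ^ γ ≤ 3 / 4 :=
      (hs.sum_le_tsum s fun n _ => by have := K_nonneg hK n; positivity).trans hsum.le
    calc ∑ n ∈ s, kg K γ (ph ν lam h γ) n ≤ ∑ n ∈ s, (K n / 2) ^ γ * (5 / 4) := by
          refine Finset.sum_le_sum fun n _ => ?_
          unfold kg
          rcases Nat.eq_zero_or_pos n with h0 | h0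
          · subst h0
            rw [hK.zero, zero_div, Real.zero_rpow hγ0.ne']; simp
          · have h2 : ph ν lam h γ ^ n ≤ 1 / 4 := by
              calc ph ν lam h γ ^ n ≤ ph ν lam h γ ^ 1 :=
                    pow_le_pow_of_le_one hpn (by linarith) h0
                _ ≤ 1 / 4 := by rw [pow_one]; exact hphg
            apply mul_le_mul_of_nonneg_left _ (by have := K_nonneg hK n; positivity)
            linarith
      _ = (∑ n ∈ s, (K n / 2) ^ γ) * (5 / 4) := by rw [Finset.sum_mul]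
      _ ≤ 15 / 16 := by linarith
  have hgen := general hK hR hC hexp lam h γ (15 / 16) hlam0 hh0 hγ0 hγ1.le hb (by linarith)
    (by norm_num) hq
  refine ⟨lam, h, hlam0, hh0, hgen.1, fun ε hε0 hε1 => ?_⟩
  filter_upwards [hgen.2 ε hε0 hε1] with a ha
  exact ⟨ha.1, ha.2 (by rw [hph1]; norm_num)⟩

/-- the strongly delocalized region, for every law of the charges -/
theorem annealed (hK : InterArrival K α) (hR : RenewalSigns K P ξ ζ) (hC : Charges ν Q ω)
    (hexp : ∀ t : ℝ, Integrable (fun x => Real.exp (t * x)) ν)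
    (hint : Integrable (fun x => x) ν) (hmean : ∫ x, x ∂ν = 0)
    (lam h : ℝ) (hlam : 0 < lam) (hφ : ∫ t, Real.exp (-2 * lam * (t + h)) ∂ν < 1) :
    (lam, h) ∈ interior (delocRegion P ξ ζ Q ω) ∧
    ∀ ε : ℝ, 0 < ε → ε < 1 → ∀ᵐ a ∂Q,
      limsup (fun N => polymer P ξ ζ lam h (fun n => ω n a) N (staysUp ξ ζ ε N)) atTop = 1 := by
  haveI := hC.isProb_ν
  have hph : ph ν lam h 1 = ∫ t, Real.exp (-2 * lam * (t + h)) ∂ν := by
    unfold ph; simp only [one_mul]
  have hp1 : ph ν lam h 1 < 1 := by rw [hph]; exact hφ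
  have hpn := ph_nonneg ν lam h 1
  have hh : 0 < h := by
    by_contra hcon
    push Not at hcon
    have h1 := one_le_mgf hexp hint hmean (-2 * lam)
    have h2 : ∫ x, Real.exp (-2 * lam * x) ∂ν ≤ ∫ t, Real.exp (-2 * lam * (t + h)) ∂ν := by
      apply integral_mono (hexp _)
      · have := ph_integrable hexp lam h 1
        simp only [one_mul] at this
        exact this
      · intro t
        apply Real.exp_le_exp.2
        nlinarith
    linarith
  have hα := hK.α_pos
  have hgen := general hK hR hC hexp lam h 1 ((1 + ph ν lam h 1) / 2) hlam hh one_pos le_rfl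
    (by linarith) hp1 (by linarith) (by
      intro s
      have hsum := sum_le_hasSum s (fun n _ => K_nonneg hK n) hK.sum_one
      calc ∑ n ∈ s, kg K 1 (ph ν lam h 1) n ≤ ∑ n ∈ s, K n * ((1 + ph ν lam h 1) / 2) := by
            refine Finset.sum_le_sum fun n _ => ?_
            unfold kg
            rw [Real.rpow_one]
            rcases Nat.eq_zero_or_pos n with h0 | h0
            · subst h0; rw [hK.zero]; simp
            · have h2 : ph ν lam h 1 ^ n ≤ ph ν lam h 1 := by
                calc ph ν lam h 1 ^ n ≤ ph ν lam h 1 ^ 1 := pow_le_pow_of_le_one hpn hp1.le h0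
                  _ = _ := pow_one _
              have := K_nonneg hK n
              nlinarith
        _ = (∑ n ∈ s, K n) * ((1 + ph ν lam h 1) / 2) := by rw [Finset.sum_mul]
        _ ≤ 1 * ((1 + ph ν lam h 1) / 2) := mul_le_mul_of_nonneg_right hsum (by linarith)
        _ = _ := one_mul _)
  refine ⟨hgen.1, fun ε hε0 hε1 => ?_⟩
  filter_upwards [hgen.2 ε hε0 hε1] with a ha
  exact ha.1

end main

end Pool.Agent.H.MP_9ba241_pr
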