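import Mathlib

/-!
# The copolymer model near a selective interface

Definitions: renewal process with signs, charges, polymer measure, delocalized region.
-/

open MeasureTheory ProbabilityTheory Filter Topology
open scoped ENNReal NNReal

namespace Pool.Agent.H.MP_9ba241_pr

/-- `K` is an inter-arrival law on `{1, 2, ...}`: `K n > 0` for `n ≥ 1`, the values sum to `1`
and `K n ∼ c n^{-(1+α)}` for some `c > 0`, with `α > 0`. -/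
structure InterArrival (K : ℕ → ℝ) (α : ℝ) : Prop where
  α_pos : 0 < α
  zero : K 0 = 0
  pos : ∀ n, 0 < n → 0 < K n
  sum_one : HasSum K 1
  tail : ∃ c, 0 < c ∧ Tendsto (fun n : ℕ => K n * (n : ℝ) ^ (1 + α)) atTop (𝓝 c)

section model
variable {Ω' : Type*} {mΩ' : MeasurableSpace Ω'}

/-- Under `P` the inter-arrival times `ξ 0, ξ 1, ...` have law `K`, the signs `ζ 0, ζ 1, ...` are
fair, and all these variables are independent. -/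
structure RenewalSigns (K : ℕ → ℝ) (P : Measure Ω') (ξ : ℕ → Ω' → ℕ) (ζ : ℕ → Ω' → Bool) :
    Prop where
  meas_ξ : ∀ i, Measurable (ξ i)
  meas_ζ : ∀ i, Measurable (ζ i)
  law_ξ : ∀ i n, P {x | ξ i x = n} = ENNReal.ofReal (K n)
  law_ζ : ∀ i b, P {x | ζ i x = b} = 2⁻¹
  indep_pair : ∀ i, IndepFun (ξ i) (ζ i) P
  indep : iIndepFun (fun i x => (ξ i x, ζ i x)) P

/-- The renewal times `τ_0 = 0`, `τ_i = ξ 0 + ... + ξ (i - 1)`. -/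
def tau (ξ : ℕ → Ω' → ℕ) (i : ℕ) (x : Ω') : ℕ := ∑ j ∈ Finset.range i, ξ j x

/-- `Δ_n = 1`: monomer `n` lies in the lower half plane, i.e. `n ∈ (τ_i, τ_{i+1}]` for an
excursion `i` whose sign is `true`. -/
def Lower (ξ : ℕ → Ω' → ℕ) (ζ : ℕ → Ω' → Bool) (n : ℕ) (x : Ω') : Prop :=
  ∃ i, tau ξ i x < n ∧ n ≤ tau ξ (i + 1) x ∧ ζ i x = true

open Classical in
/-- The variable `Δ_n ∈ {0, 1}`. -/
noncomputable def Delta (ξ : ℕ → Ω' → ℕ) (ζ : ℕ → Ω' → Bool) (n : ℕ) (x : Ω') : ℝ :=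
  if Lower ξ ζ n x then 1 else 0

/-- The Boltzmann weight `exp (-2 λ ∑_{n=1}^N (w_n + h) Δ_n)`. -/
noncomputable def boltz (ξ : ℕ → Ω' → ℕ) (ζ : ℕ → Ω' → Bool) (lam h : ℝ) (w : ℕ → ℝ) (N : ℕ)
    (x : Ω') : ℝ :=
  Real.exp (-2 * lam * ∑ n ∈ Finset.Icc 1 N, (w n + h) * Delta ξ ζ n x)

/-- The partition function. -/
noncomputable def Zpart (P : Measure Ω') (ξ : ℕ → Ω' → ℕ) (ζ : ℕ → Ω' → Bool) (lam h : ℝ)
    (w : ℕ → ℝ) (N : ℕ) : ℝ := ∫ x, boltz ξ ζ lam h w N x ∂P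

/-- The polymer probability of the event `A`. -/
noncomputable def polymer (P : Measure Ω') (ξ : ℕ → Ω' → ℕ) (ζ : ℕ → Ω' → Bool) (lam h : ℝ)
    (w : ℕ → ℝ) (N : ℕ) (A : Set Ω') : ℝ :=
  (∫ x in A, boltz ξ ζ lam h w N x ∂P) / Zpart P ξ ζ lam h w N

/-- The event `Δ_n = 0` for every `n ∈ [ε N, N]`. -/
def staysUp (ξ : ℕ → Ω' → ℕ) (ζ : ℕ → Ω' → Bool) (ε : ℝ) (N : ℕ) : Set Ω' :=
  {x | ∀ n : ℕ, ε * N ≤ n → n ≤ N → Delta ξ ζ n x = 0}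

/-- Under `Q` the charges `ω 1, ω 2, ...` are independent with law `ν`. -/
structure Charges {Ω : Type*} {mΩ : MeasurableSpace Ω} (ν : Measure ℝ) (Q : Measure Ω)
    (ω : ℕ → Ω → ℝ) : Prop where
  meas : ∀ n, Measurable (ω n)
  law : ∀ n, Q.map (ω n) = ν
  indep : iIndepFun ω Q

/-- The free energy `lim_N N⁻¹ E log Z_N` exists and vanishes. -/
def FreeEnergyZero {Ω : Type*} {mΩ : MeasurableSpace Ω} (P : Measure Ω') (ξ : ℕ → Ω' → ℕ)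
    (ζ : ℕ → Ω' → Bool) (Q : Measure Ω) (ω : ℕ → Ω → ℝ) (lam h : ℝ) : Prop :=
  Tendsto (fun N : ℕ => (∫ a, Real.log (Zpart P ξ ζ lam h (fun n => ω n a) N) ∂Q) / N) atTop (𝓝 0)

/-- The delocalized region `{(λ, h) : λ ≥ 0, h ≥ 0, free energy = 0}`. -/
def delocRegion {Ω : Type*} {mΩ : MeasurableSpace Ω} (P : Measure Ω') (ξ : ℕ → Ω' → ℕ)
    (ζ : ℕ → Ω' → Bool) (Q : Measure Ω) (ω : ℕ → Ω → ℝ) : Set (ℝ × ℝ) :=
  {p | 0 ≤ p.1 ∧ 0 ≤ p.2 ∧ FreeEnergyZero P ξ ζ Q ω p.1 p.2}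

end model

end Pool.Agent.H.MP_9ba241_pr
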