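import Pool.Agent.H.MP_9ba241_pr.Canon

open MeasureTheory ProbabilityTheory Filter Topology
open scoped ENNReal NNReal

set_option linter.unusedSectionVars false
set_option maxHeartbeats 400000

namespace Pool.Agent.H.MP_9ba241_pr

section env
variable {μc : Measure ℝ} [IsProbabilityMeasure μc]

/-- sum of the first `l` variables -/
def sE (l : ℕ) (c : ℕ → ℝ) : ℝ := ∑ i ∈ Finset.range l, c i

lemma measurable_sE (l : ℕ) : Measurable (sE l) :=
  Finset.measurable_sum _ fun i _ => measurable_pi_apply i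

lemma En_eq (l : ℕ) (c : ℕ → ℝ) : En l c = ENNReal.ofReal (Real.exp (sE l c)) := rfl

lemma En_pointwise (l J : ℕ) (c : ℕ → ℝ) :
    En l c ≤ 1 + ∑ j ∈ Finset.range J, ENNReal.ofReal (Real.exp (j + 1)) *
      {c | (j : ℝ) ≤ sE l c}.indicator 1 c + ENNReal.ofReal (Real.exp (-J)) * En l c ^ (2:ℝ) := by
  rcases lt_or_ge (sE l c) 0 with h | h
  · have h1 : En l c ≤ 1 := by
      rw [En_eq, ENNReal.ofReal_le_one]; exact Real.exp_le_one_iff.2 h.le
    refine h1.trans ?_
    rw [add_assoc]; exact le_self_add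
  · rcases lt_or_ge (sE l c) J with h' | h'
    · have hj : ⌊sE l c⌋₊ < J := (Nat.floor_lt h).2 h'
      have h1 : En l c ≤ ENNReal.ofReal (Real.exp (⌊sE l c⌋₊ + 1)) * {c | ((⌊sE l c⌋₊ : ℕ) : ℝ) ≤ sE l c}.indicator 1 c := by
        rw [Set.indicator_of_mem (show c ∈ {c | ((⌊sE l c⌋₊ : ℕ) : ℝ) ≤ sE l c} from Nat.floor_le h)]
        rw [Pi.one_apply, mul_one, En_eq]
        apply ENNReal.ofReal_le_ofReal
        exact Real.exp_le_exp.2 (Nat.lt_floor_add_one _).le
      have h2 : ENNReal.ofReal (Real.exp (⌊sE l c⌋₊ + 1)) *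
          {c' | ((⌊sE l c⌋₊ : ℕ) : ℝ) ≤ sE l c'}.indicator 1 c ≤
          ∑ j ∈ Finset.range J, ENNReal.ofReal (Real.exp (j + 1)) *
          {c | (j : ℝ) ≤ sE l c}.indicator 1 c :=
        Finset.single_le_sum (f := fun j : ℕ => ENNReal.ofReal (Real.exp (j + 1)) *
          {c | (j : ℝ) ≤ sE l c}.indicator 1 c) (fun _ _ => zero_le) (Finset.mem_range.2 hj)
      have h3 : En l c ≤ ∑ j ∈ Finset.range J, ENNReal.ofReal (Real.exp (j + 1)) *
          {c | (j : ℝ) ≤ sE l c}.indicator 1 c := by
        refine le_trans (le_of_eq ?_) (le_trans h1 (le_trans (le_of_eq ?_) h2))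
        · rfl
        · congr 1
      refine h3.trans ?_
      exact le_trans le_add_self le_self_add
    · have h1 : En l c ≤ ENNReal.ofReal (Real.exp (-J)) * En l c ^ (2:ℝ) := by
        rw [En_rpow, En_eq, ← ENNReal.ofReal_mul (Real.exp_pos _).le, ← Real.exp_add]
        apply ENNReal.ofReal_le_ofReal
        apply Real.exp_le_exp.2
        have : sE l c = ∑ i ∈ Finset.range l, c i := rfl
        rw [← this]
        linarith
      exact h1.trans le_add_self

lemma tail_exists (s : ℝ) (hs : 1 < s) (hs2 : ENNReal.ofReal (s ^ 2) ≤ phi μc 1) (B : ℕ)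
    (hB : 1 ≤ B) (hB2 : phi μc 2 ≤ ENNReal.ofReal (Real.exp B)) (l : ℕ) (hl : 1 ≤ l)
    (hl4 : 4 < s ^ (2 * l)) :
    ∃ j : ℕ, ENNReal.ofReal (Real.exp (-(j + 1)) * s ^ (2 * l) / (2 * (B * l : ℕ))) ≤
      seqLaw μc {c | (j : ℝ) ≤ sE l c} := by
  by_contra hcon
  push Not at hcon
  set J : ℕ := B * l with hJ
  have hJ1 : 1 ≤ J := by rw [hJ]; exact Nat.one_le_iff_ne_zero.2 (by positivity)
  have hJ0 : (0:ℝ) < J := by exact_mod_cast hJ1
  have hmeas : ∀ j : ℕ, MeasurableSet {c : ℕ → ℝ | (j : ℝ) ≤ sE l c} := fun j =>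
    measurableSet_le measurable_const (measurable_sE l)
  have hs0 : 0 < s := by linarith
  have h1 : phi μc 1 ^ l ≤ 1 + ∑ j ∈ Finset.range J, ENNReal.ofReal (Real.exp (j + 1)) *
      seqLaw μc {c | (j : ℝ) ≤ sE l c} + ENNReal.ofReal (Real.exp (-J)) * phi μc 2 ^ l := by
    have h2 : ∫⁻ c, En l c ∂seqLaw μc = phi μc 1 ^ l := by
      rw [← lintegral_En_rpow μc 1 l]; simp
    rw [← h2, ← lintegral_En_rpow μc 2 l]
    refine (lintegral_mono fun c => En_pointwise l J c).trans ?_
    have m1 : Measurable fun c : ℕ → ℝ => ∑ j ∈ Finset.range J, ENNReal.ofReal (Real.exp (j + 1)) *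
        {c | (j : ℝ) ≤ sE l c}.indicator 1 c :=
      Finset.measurable_sum _ fun j _ => (measurable_one.indicator (hmeas j)).const_mul _
    have m2 : Measurable fun c : ℕ → ℝ => 1 + ∑ j ∈ Finset.range J, ENNReal.ofReal (Real.exp (j + 1)) *
        {c | (j : ℝ) ≤ sE l c}.indicator 1 c := measurable_const.add m1
    rw [lintegral_add_left m2, lintegral_add_left measurable_const,
      lintegral_finsetSum _ fun j _ => (measurable_one.indicator (hmeas j)).const_mul _,
      lintegral_const_mul _ ((measurable_En l).pow_const _)]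
    gcongr with j _
    · simp
    · rw [lintegral_const_mul _ (measurable_one.indicator (hmeas j)),
        lintegral_indicator_one (hmeas j)]
  have h2 : ENNReal.ofReal (Real.exp (-J)) * phi μc 2 ^ l ≤ 1 := by
    calc ENNReal.ofReal (Real.exp (-J)) * phi μc 2 ^ l
        ≤ ENNReal.ofReal (Real.exp (-J)) * ENNReal.ofReal (Real.exp B) ^ l := by gcongr
      _ = 1 := by
          rw [← ENNReal.ofReal_pow (Real.exp_pos _).le, ← ENNReal.ofReal_mul (Real.exp_pos _).le,
            ← Real.exp_nat_mul, ← Real.exp_add]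
          have : -(J : ℝ) + l * B = 0 := by rw [hJ]; push_cast; ring
          rw [this, Real.exp_zero, ENNReal.ofReal_one]
  have h3 : ∑ j ∈ Finset.range J, ENNReal.ofReal (Real.exp (j + 1)) *
      seqLaw μc {c | (j : ℝ) ≤ sE l c} ≤ ENNReal.ofReal (s ^ (2 * l) / 2) := by
    calc ∑ j ∈ Finset.range J, ENNReal.ofReal (Real.exp (j + 1)) *
          seqLaw μc {c | (j : ℝ) ≤ sE l c}
        ≤ ∑ _j ∈ Finset.range J, ENNReal.ofReal (s ^ (2 * l) / (2 * J)) := by
          refine Finset.sum_le_sum fun j _ => ?_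
          calc ENNReal.ofReal (Real.exp (j + 1)) * seqLaw μc {c | (j : ℝ) ≤ sE l c}
              ≤ ENNReal.ofReal (Real.exp (j + 1)) *
                ENNReal.ofReal (Real.exp (-(j + 1)) * s ^ (2 * l) / (2 * J)) := by
                gcongr; exact (hcon j).le
            _ = _ := by
                rw [← ENNReal.ofReal_mul (Real.exp_pos _).le]
                congr 1
                have : Real.exp ((j : ℝ) + 1) * Real.exp (-((j : ℝ) + 1)) = 1 := by
                  rw [← Real.exp_add, add_neg_cancel, Real.exp_zero]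
                calc Real.exp ((j : ℝ) + 1) * (Real.exp (-((j : ℝ) + 1)) * s ^ (2 * l) / (2 * J))
                    = (Real.exp ((j : ℝ) + 1) * Real.exp (-((j : ℝ) + 1))) * s ^ (2 * l) / (2 * J) := by
                      ring
                  _ = _ := by rw [this, one_mul]
      _ = _ := by
          rw [Finset.sum_const, Finset.card_range, ← ENNReal.ofReal_nsmul]
          congr 1
          rw [nsmul_eq_mul]; field_simp
  have h4 : ENNReal.ofReal (s ^ (2 * l)) ≤ phi μc 1 ^ l := by
    rw [pow_mul, ENNReal.ofReal_pow (by positivity)]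
    gcongr
  have h5 : ENNReal.ofReal (s ^ (2 * l)) ≤ ENNReal.ofReal (2 + s ^ (2 * l) / 2) := by
    refine h4.trans (h1.trans ?_)
    calc 1 + ∑ j ∈ Finset.range J, ENNReal.ofReal (Real.exp (j + 1)) *
          seqLaw μc {c | (j : ℝ) ≤ sE l c} + ENNReal.ofReal (Real.exp (-J)) * phi μc 2 ^ l
        ≤ 1 + ENNReal.ofReal (s ^ (2 * l) / 2) + 1 := by gcongr
      _ = _ := by
          rw [show (1:ℝ≥0∞) = ENNReal.ofReal 1 by simp, ← ENNReal.ofReal_add zero_le_one (by positivity),
            ← ENNReal.ofReal_add (by positivity) zero_le_one]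
          congr 1; ring
  rw [ENNReal.ofReal_le_ofReal_iff (by positivity)] at h5
  linarith

/-- disjoint blocks are independent -/
lemma blocks (l : ℕ) (A : Set (ℕ → ℝ)) (hA : MeasurableSet A)
    (hdep : DependsOn (A.indicator (1 : (ℕ → ℝ) → ℝ≥0∞)) (Set.Iio l)) (n : ℕ) :
    seqLaw μc {c | ∀ i < n, sh (i * l) c ∉ A} = (seqLaw μc Aᶜ) ^ n := by
  have hdepc : DependsOn (Aᶜ.indicator (1 : (ℕ → ℝ) → ℝ≥0∞)) (Set.Iio l) := by
    intro c c' h
    have h1 := hdep h
    by_cases hc : c ∈ A
    · by_cases hc' : c' ∈ A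
      · rw [Set.indicator_of_notMem (by simpa using hc), Set.indicator_of_notMem (by simpa using hc')]
      · rw [Set.indicator_of_mem hc, Set.indicator_of_notMem hc'] at h1
        exact absurd h1 one_ne_zero
    · by_cases hc' : c' ∈ A
      · rw [Set.indicator_of_notMem hc, Set.indicator_of_mem hc'] at h1
        exact absurd h1.symm one_ne_zero
      · rw [Set.indicator_of_mem (by simpa using hc), Set.indicator_of_mem (by simpa using hc')]
        rfl
  have hm : ∀ n, MeasurableSet {c : ℕ → ℝ | ∀ i < n, sh (i * l) c ∉ A} := by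
    intro n
    have : {c : ℕ → ℝ | ∀ i < n, sh (i * l) c ∉ A} = ⋂ i, ⋂ (_ : i < n), sh (i * l) ⁻¹' Aᶜ := by
      ext c; simp
    rw [this]
    exact MeasurableSet.iInter fun i => MeasurableSet.iInter fun _ => measurable_sh _ hA.compl
  induction n with
  | zero => simp
  | succ n ih =>
    have h1 := lintegral_split μc l (Aᶜ.indicator 1) ({c | ∀ i < n, sh (i * l) c ∉ A}.indicator 1)
      (measurable_one.indicator hA.compl) (measurable_one.indicator (hm n)) hdepc
    rw [lintegral_indicator_one hA.compl, lintegral_indicator_one (hm n), ih] at h1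
    rw [pow_succ', ← h1, ← lintegral_indicator_one (hm (n + 1))]
    congr 1; ext c
    have hiff : (∀ i < n + 1, sh (i * l) c ∉ A) ↔ (c ∉ A ∧ ∀ i < n, sh (i * l) (sh l c) ∉ A) := by
      constructor
      · intro h
        refine ⟨?_, fun i hi => ?_⟩
        · have := h 0 (by omega)
          rw [zero_mul] at this
          have e : sh 0 c = c := by ext i; simp [sh]
          rwa [e] at this
        · have := h (i + 1) (by omega)
          have e : sh ((i + 1) * l) c = sh (i * l) (sh l c) := by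
            ext j; simp only [sh]; congr 1; ring
          rwa [e] at this
      · rintro ⟨h0, h⟩ i hi
        cases i with
        | zero =>
          rw [zero_mul]
          have e : sh 0 c = c := by ext i; simp [sh]
          rwa [e]
        | succ i =>
          have e : sh ((i + 1) * l) c = sh (i * l) (sh l c) := by
            ext j; simp only [sh]; congr 1; ring
          rw [e]
          exact h i (by omega)
    by_cases h : ∀ i < n + 1, sh (i * l) c ∉ A
    · obtain ⟨h2, h3⟩ := hiff.1 h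
      rw [Set.indicator_of_mem (show c ∈ {c | ∀ i < n + 1, sh (i * l) c ∉ A} from h),
        Set.indicator_of_mem (show c ∈ Aᶜ from h2),
        Set.indicator_of_mem (show sh l c ∈ {c | ∀ i < n, sh (i * l) c ∉ A} from h3)]
      simp
    · rw [Set.indicator_of_notMem (show c ∉ {c | ∀ i < n + 1, sh (i * l) c ∉ A} from h)]
      rw [hiff, not_and_or] at h
      rcases h with h | h
      · rw [Set.indicator_of_notMem (show c ∉ Aᶜ from h), zero_mul]
      · rw [Set.indicator_of_notMem (show sh l c ∉ {c | ∀ i < n, sh (i * l) c ∉ A} from h), mul_zero]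

/-- existence of favourable windows -/
theorem windows (h1 : 1 < phi μc 1) (h2 : phi μc 2 ≠ ∞) :
    ∃ s : ℝ, 1 < s ∧ ∃ (j : ℕ → ℕ) (n : ℕ → ℕ), Tendsto n atTop atTop ∧
      (∀ᶠ l in atTop, Real.exp (-(j l)) ≤ 2 * Real.exp 1 / (n l * s ^ l)) ∧
      ∀ᵐ c ∂seqLaw μc, ∀ᶠ l in atTop, ∃ i < n l, (j l : ℝ) ≤ sE l (sh (n l + i * l) c) := by
  obtain ⟨s, hs, hs2⟩ : ∃ s : ℝ, 1 < s ∧ ENNReal.ofReal (s ^ 2) ≤ phi μc 1 := by
    rcases eq_or_ne (phi μc 1) ∞ with h | h
    · exact ⟨2, by norm_num, by rw [h]; exact le_top⟩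
    · have h3 : 1 < (phi μc 1).toReal := by
        rw [← ENNReal.toReal_one]
        exact (ENNReal.toReal_lt_toReal ENNReal.one_ne_top h).2 h1
      refine ⟨Real.sqrt (phi μc 1).toReal, ?_, ?_⟩
      · rw [Real.lt_sqrt zero_le_one]; simpa using h3
      · rw [Real.sq_sqrt (by linarith), ENNReal.ofReal_toReal h]
  obtain ⟨B, hB, hB2⟩ : ∃ B : ℕ, 1 ≤ B ∧ phi μc 2 ≤ ENNReal.ofReal (Real.exp B) := by
    obtain ⟨B, hB⟩ := exists_nat_ge (phi μc 2).toReal
    refine ⟨B + 1, by omega, ?_⟩
    rw [← ENNReal.ofReal_toReal h2]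
    apply ENNReal.ofReal_le_ofReal
    have := Real.add_one_le_exp ((B + 1 : ℕ) : ℝ)
    push_cast at this ⊢
    linarith
  have hs0 : 0 < s := by linarith
  have hev4 : ∀ᶠ l : ℕ in atTop, 4 < s ^ (2 * l) := by
    have : Tendsto (fun l : ℕ => s ^ (2 * l)) atTop atTop :=
      (tendsto_pow_atTop_atTop_of_one_lt hs).comp (tendsto_id.const_mul_atTop' (by norm_num))
    exact this.eventually_gt_atTop 4
  have hex : ∀ l : ℕ, ∃ j : ℕ, (1 ≤ l ∧ 4 < s ^ (2 * l)) →
      ENNReal.ofReal (Real.exp (-(j + 1)) * s ^ (2 * l) / (2 * (B * l : ℕ))) ≤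
      seqLaw μc {c | (j : ℝ) ≤ sE l c} := by
    intro l
    by_cases h : 1 ≤ l ∧ 4 < s ^ (2 * l)
    · obtain ⟨j, hj⟩ := tail_exists s hs hs2 B hB hB2 l h.1 h.2
      exact ⟨j, fun _ => hj⟩
    · exact ⟨0, fun h' => absurd h' h⟩
  choose j hj using hex
  set n : ℕ → ℕ := fun l => ⌈Real.exp (j l + 1) / s ^ l⌉₊ with hn
  have hev : ∀ᶠ l : ℕ in atTop, 1 ≤ l ∧ 4 < s ^ (2 * l) := (eventually_ge_atTop 1).and hev4
  -- lower bound of the size of the exponential
  have hexp : ∀ᶠ l : ℕ in atTop, s ^ l / (2 * (B * l : ℕ)) ≤ Real.exp (j l + 1) / s ^ l := by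
    filter_upwards [hev] with l hl
    have h3 := (hj l hl).trans prob_le_one
    rw [ENNReal.ofReal_le_one] at h3
    have hBl : (0:ℝ) < 2 * (B * l : ℕ) := by
      have : 0 < B * l := Nat.mul_pos (by omega) (by omega)
      positivity
    rw [div_le_one hBl] at h3
    have h4 : s ^ (2 * l) ≤ Real.exp (j l + 1) * (2 * (B * l : ℕ)) := by
      have e : Real.exp ((j l : ℝ) + 1) * Real.exp (-((j l : ℝ) + 1)) = 1 := by
        rw [← Real.exp_add, add_neg_cancel, Real.exp_zero]
      calc s ^ (2 * l) = Real.exp ((j l : ℝ) + 1) * (Real.exp (-((j l : ℝ) + 1)) * s ^ (2 * l)) := by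
            rw [← mul_assoc, e, one_mul]
        _ ≤ _ := mul_le_mul_of_nonneg_left h3 (Real.exp_pos _).le
    rw [div_le_div_iff₀ hBl (by positivity)]
    calc s ^ l * s ^ l = s ^ (2 * l) := by rw [← pow_add]; congr 1; ring
      _ ≤ _ := h4
  have hgrow : Tendsto (fun l : ℕ => s ^ l / (2 * (B * l : ℕ))) atTop atTop := by
    have h3 : Tendsto (fun l : ℕ => (l : ℝ) ^ 1 / s ^ l) atTop (𝓝 0) :=
      tendsto_pow_const_div_const_pow_of_one_lt 1 hs
    have h4 : Tendsto (fun l : ℕ => (2 * B : ℝ) * ((l : ℝ) ^ 1 / s ^ l)) atTop (𝓝 (2 * B * 0)) :=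
      h3.const_mul _
    rw [mul_zero] at h4
    have h5 : Tendsto (fun l : ℕ => (2 * B : ℝ) * ((l : ℝ) ^ 1 / s ^ l)) atTop (𝓝[>] 0) := by
      rw [tendsto_nhdsWithin_iff]
      refine ⟨h4, ?_⟩
      filter_upwards [eventually_ge_atTop 1] with l hl
      have hl0 : (0:ℝ) < l := by exact_mod_cast hl
      have hB0 : (0:ℝ) < B := by exact_mod_cast hB
      show (0:ℝ) < _
      positivity
    have h6 := h5.inv_tendsto_nhdsGT_zero
    refine h6.congr fun l => ?_
    simp only [Pi.inv_apply]
    push_cast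
    rw [pow_one]
    rcases Nat.eq_zero_or_pos l with h | h
    · subst h; simp
    · have hl0 : (0:ℝ) < l := by exact_mod_cast h
      have hB0 : (0:ℝ) < B := by exact_mod_cast hB
      field_simp
  refine ⟨s, hs, j, n, ?_, ?_, ?_⟩
  · -- n tends to infinity
    rw [← tendsto_natCast_atTop_iff (R := ℝ)]
    refine tendsto_atTop_mono' _ ?_ hgrow
    filter_upwards [hexp] with l hl
    exact hl.trans (Nat.le_ceil _)
  · filter_upwards [hexp, hgrow.eventually_ge_atTop 1] with l hl h1l
    have h3 : 1 ≤ Real.exp (j l + 1) / s ^ l := h1l.trans hl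
    have h4 : (n l : ℝ) ≤ 2 * (Real.exp (j l + 1) / s ^ l) := by
      have := Nat.ceil_lt_add_one (show 0 ≤ Real.exp (j l + 1) / s ^ l by positivity)
      linarith
    have h5 : (0:ℝ) < n l := by
      have h6 : (0:ℝ) < Real.exp (j l + 1) / s ^ l := by positivity
      have h7 : 0 < n l := Nat.ceil_pos.2 h6
      exact_mod_cast h7
    rw [le_div_iff₀ (by positivity)]
    calc Real.exp (-(j l : ℝ)) * (n l * s ^ l)
        ≤ Real.exp (-(j l : ℝ)) * (2 * (Real.exp (j l + 1) / s ^ l) * s ^ l) := by gcongr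
      _ = 2 * (Real.exp (-(j l : ℝ)) * Real.exp (j l + 1)) := by field_simp
      _ = 2 * Real.exp 1 := by
          rw [← Real.exp_add]; congr 2; ring
  · -- Borel-Cantelli
    set bad : ℕ → Set (ℕ → ℝ) := fun l => {c | ∀ i < n l, ¬ (j l : ℝ) ≤ sE l (sh (n l + i * l) c)}
      with hbad
    have hbadm : ∀ᶠ l : ℕ in atTop, seqLaw μc (bad l) ≤ ENNReal.ofReal ((2 * B : ℝ) * ((l : ℝ) ^ 1 * (s⁻¹) ^ l)) := by
      filter_upwards [hev] with l hl
      set A : Set (ℕ → ℝ) := {c | (j l : ℝ) ≤ sE l c} with hA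
      have hAm : MeasurableSet A := measurableSet_le measurable_const (measurable_sE l)
      have hdep : DependsOn (A.indicator (1 : (ℕ → ℝ) → ℝ≥0∞)) (Set.Iio l) := by
        intro c c' h
        have : sE l c = sE l c' := Finset.sum_congr rfl fun i hi => h i (Finset.mem_range.1 hi)
        by_cases hc : c ∈ A
        · have hc' : c' ∈ A := by
            show (j l : ℝ) ≤ sE l c'
            rw [← this]; exact hc
          rw [Set.indicator_of_mem hc, Set.indicator_of_mem hc']; rfl
        · have hc' : c' ∉ A := by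
            intro h'
            apply hc
            show (j l : ℝ) ≤ sE l c
            rw [this]; exact h'
          rw [Set.indicator_of_notMem hc, Set.indicator_of_notMem hc']
      have hset : bad l = sh (n l) ⁻¹' {c | ∀ i < n l, sh (i * l) c ∉ A} := by
        ext c
        simp only [hbad, Set.mem_ofPred_eq, Set.mem_preimage, hA]
        refine forall_congr' fun i => forall_congr' fun _ => ?_
        have e : sh (n l + i * l) c = sh (i * l) (sh (n l) c) := by
          ext k; simp only [sh]; congr 1; ring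
        rw [e]
      have hm : MeasurableSet {c : ℕ → ℝ | ∀ i < n l, sh (i * l) c ∉ A} := by
        have : {c : ℕ → ℝ | ∀ i < n l, sh (i * l) c ∉ A} = ⋂ i, ⋂ (_ : i < n l), sh (i * l) ⁻¹' Aᶜ := by
          ext c; simp
        rw [this]
        exact MeasurableSet.iInter fun i => MeasurableSet.iInter fun _ => measurable_sh _ hAm.compl
      have h3 : seqLaw μc (bad l) = (seqLaw μc Aᶜ) ^ n l := by
        rw [hset, ← Measure.map_apply (measurable_sh _) hm, map_sh, blocks l A hAm hdep]
      rw [h3]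
      have hp : ENNReal.ofReal (Real.exp (-(j l + 1)) * s ^ (2 * l) / (2 * (B * l : ℕ))) ≤
        seqLaw μc A := hj l hl
      set p : ℝ := Real.exp (-(j l + 1)) * s ^ (2 * l) / (2 * (B * l : ℕ)) with hpdef
      have hBl : (0:ℝ) < 2 * (B * l : ℕ) := by
        have : 0 < B * l := Nat.mul_pos (by omega) (by omega)
        positivity
      have hp0 : 0 < p := by rw [hpdef]; positivity
      have h4 : seqLaw μc Aᶜ ≤ ENNReal.ofReal (Real.exp (-p)) := by
        rw [prob_compl_eq_one_sub hAm]
        calc 1 - seqLaw μc A ≤ 1 - ENNReal.ofReal p := tsub_le_tsub_left hp _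
          _ = ENNReal.ofReal (1 - p) := by
              rw [ENNReal.ofReal_sub _ hp0.le, ENNReal.ofReal_one]
          _ ≤ _ := by
              apply ENNReal.ofReal_le_ofReal
              have := Real.add_one_le_exp (-p)
              linarith
      calc (seqLaw μc Aᶜ) ^ n l ≤ ENNReal.ofReal (Real.exp (-p)) ^ n l := by gcongr
        _ = ENNReal.ofReal (Real.exp (-(p * n l))) := by
            rw [← ENNReal.ofReal_pow (Real.exp_pos _).le, ← Real.exp_nat_mul]
            congr 2; ring
        _ ≤ _ := by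
            apply ENNReal.ofReal_le_ofReal
            have h5 : s ^ l / (2 * (B * l : ℕ)) ≤ p * n l := by
              have h6 : Real.exp (j l + 1) / s ^ l ≤ n l := Nat.le_ceil _
              calc s ^ l / (2 * (B * l : ℕ)) = p * (Real.exp (j l + 1) / s ^ l) := by
                    rw [hpdef]
                    have e : Real.exp (-((j l : ℝ) + 1)) * Real.exp ((j l : ℝ) + 1) = 1 := by
                      rw [← Real.exp_add, neg_add_cancel, Real.exp_zero]
                    have e2 : s ^ (2 * l) = s ^ l * s ^ l := by rw [← pow_add]; congr 1; ring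
                    rw [e2]
                    have e3 : Real.exp (-((j l : ℝ) + 1)) * (s ^ l * s ^ l) / (2 * (B * l : ℕ)) *
                        (Real.exp ((j l : ℝ) + 1) / s ^ l) =
                        (Real.exp (-((j l : ℝ) + 1)) * Real.exp ((j l : ℝ) + 1)) *
                          (s ^ l / (2 * (B * l : ℕ))) := by field_simp
                    rw [e3, e, one_mul]
                _ ≤ _ := mul_le_mul_of_nonneg_left h6 hp0.le
            set x : ℝ := s ^ l / (2 * (B * l : ℕ)) with hx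
            have hx0 : 0 < x := by rw [hx]; positivity
            have h7 : Real.exp (-(p * n l)) ≤ x⁻¹ := by
              rw [Real.exp_neg]
              apply inv_anti₀ hx0
              have := Real.add_one_le_exp (p * n l)
              linarith
            refine h7.trans (le_of_eq ?_)
            rw [hx, inv_div, inv_pow]
            push_cast
            rw [pow_one]
            field_simp
    have hsum : Summable fun l : ℕ => (2 * B : ℝ) * ((l : ℝ) ^ 1 * (s⁻¹) ^ l) := by
      apply Summable.mul_left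
      apply summable_pow_mul_geometric_of_norm_lt_one
      rw [Real.norm_eq_abs, abs_of_pos (inv_pos.2 hs0)]
      exact inv_lt_one_of_one_lt₀ hs
    obtain ⟨L, hL⟩ := eventually_atTop.1 hbadm
    have hfin : ∑' l, seqLaw μc (bad (l + L)) ≠ ∞ := by
      refine ne_top_of_le_ne_top (b := ∑' l : ℕ, ENNReal.ofReal ((2 * B : ℝ) *
          (((l + L : ℕ) : ℝ) ^ 1 * (s⁻¹) ^ (l + L)))) ?_
          (ENNReal.tsum_le_tsum fun l => hL (l + L) (by omega))
      have := ((summable_nat_add_iff L).2 hsum)
      exact this.tsum_ofReal_ne_top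
    have h3 := ae_eventually_notMem hfin
    filter_upwards [h3] with c hc
    have hc2 := (tendsto_sub_atTop_nat L).eventually hc
    filter_upwards [hc2, eventually_ge_atTop L] with l hl hlL
    have e : l - L + L = l := by omega
    rw [e] at hl
    simp only [hbad, Set.mem_ofPred_eq, not_forall, not_not] at hl
    obtain ⟨i, hi, h⟩ := hl
    exact ⟨i, hi, h⟩

end env

end Pool.Agent.H.MP_9ba241_pr
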