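import Pool.Agent.H.MP_9ba241_pr.Transfer

open MeasureTheory ProbabilityTheory Filter Topology
open scoped ENNReal NNReal

set_option linter.unusedSectionVars false
set_option linter.style.haveILetI false
set_option maxHeartbeats 400000

namespace Pool.Agent.H.MP_9ba241_pr

section main
variable {Ω Ω' : Type*} {mΩ : MeasurableSpace Ω} {mΩ' : MeasurableSpace Ω'} {K : ℕ → ℝ} {α : ℝ}
  {P : Measure Ω'} [IsProbabilityMeasure P] {ξ : ℕ → Ω' → ℕ} {ζ : ℕ → Ω' → Bool}
  {ν : Measure ℝ} {Q : Measure Ω} [IsProbabilityMeasure Q] {ω : ℕ → Ω → ℝ}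

/-- the fractional moment bound implies that the free energy vanishes -/
theorem free_energy_zero {γ q : ℝ} (hR : RenewalSigns K P ξ ζ) (hC : Charges ν Q ω) (lam h : ℝ)
    (hP : Par K α (muc ν lam h) γ q (ph ν lam h γ)) : FreeEnergyZero P ξ ζ Q ω lam h := by
  haveI := hR.isProb_rho
  haveI := hC.isProb_muc lam h
  have hγ := hP.γ0
  have hα := hP.hK.α_pos
  obtain ⟨cz, hcz, hz⟩ := Zf_lower (ρ := rho P ξ ζ) hP.hK hR.isStep
  obtain ⟨C, hC0, hzm⟩ := zm_bound hP hR.isStep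
  set Z : ℕ → Ω → ℝ := fun N a => Zpart P ξ ζ lam h (fun n => ω n a) N with hZ
  have hZeq : ∀ N a, Z N a = (Zf (rho P ξ ζ) N (cc lam h fun n => ω n a)).toReal :=
    fun N a => hR.Zpart_eq lam h _ N
  have hZm : ∀ N, Measurable (Z N) := by
    intro N
    have : Z N = fun a => (Zf (rho P ξ ζ) N (cc lam h fun n => ω n a)).toReal := by
      ext a; exact hZeq N a
    rw [this]
    exact ((measurable_Zf N).comp (hC.meas_cc lam h)).ennreal_toReal
  have hZlow : ∀ N : ℕ, 1 ≤ N → ∀ a, cz * (N : ℝ) ^ (-α) ≤ Z N a := by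
    intro N hN a
    rw [hZeq]
    have h1 := hz N hN (cc lam h fun n => ω n a)
    have h2 := ENNReal.toReal_mono (Zf_ne_top _ N _) h1
    rwa [ENNReal.toReal_ofReal (by positivity)] at h2
  have hmom : ∀ N : ℕ, 1 ≤ N → Integrable (fun a => Z N a ^ γ) Q ∧ ∫ a, Z N a ^ γ ∂Q ≤ C := by
    intro N hN
    have hN0 : (0:ℝ) < N := by exact_mod_cast hN
    have h1 : ∫⁻ a, ENNReal.ofReal (Z N a ^ γ) ∂Q = zm (rho P ξ ζ) (muc ν lam h) γ N := by
      unfold zm
      rw [← hC.map_cc lam h, lintegral_map ((measurable_Zf N).pow_const γ) (hC.meas_cc lam h)]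
      refine lintegral_congr fun a => ?_
      rw [hZeq, ENNReal.toReal_rpow, ENNReal.ofReal_toReal]
      exact ENNReal.rpow_ne_top_of_nonneg hγ.le (Zf_ne_top _ N _)
    have hnn : ∀ a, 0 ≤ Z N a ^ γ := fun a => Real.rpow_nonneg (by rw [hZeq]; exact ENNReal.toReal_nonneg) _
    have hm : Measurable fun a => Z N a ^ γ := (hZm N).pow_const γ
    have hint : Integrable (fun a => Z N a ^ γ) Q := by
      refine ⟨hm.aestronglyMeasurable, ?_⟩
      rw [hasFiniteIntegral_iff_ofReal (Eventually.of_forall hnn), h1]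
      exact (zm_ne_top hP hR.isStep N).lt_top
    refine ⟨hint, ?_⟩
    rw [integral_eq_lintegral_of_nonneg_ae (Eventually.of_forall hnn) hm.aestronglyMeasurable, h1]
    refine (hzm N hN).trans ?_
    have : (N : ℝ) ^ (-(α * γ)) ≤ 1 :=
      Real.rpow_le_one_of_one_le_of_nonpos (by exact_mod_cast hN) (by
        have : 0 < α * γ := by positivity
        linarith)
    nlinarith
  -- bounds of the logarithm
  have hlogup : ∀ N : ℕ, 1 ≤ N → ∀ a, Real.log (Z N a) ≤ 1 / γ * Z N a ^ γ := by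
    intro N hN a
    have hN0 : (0:ℝ) < N := by exact_mod_cast hN
    have hpos : 0 < Z N a := lt_of_lt_of_le (by positivity) (hZlow N hN a)
    have h1 := Real.log_le_sub_one_of_pos (Real.rpow_pos_of_pos hpos γ)
    rw [Real.log_rpow hpos] at h1
    rw [div_mul_eq_mul_div, one_mul, le_div_iff₀ hγ]
    linarith
  have hloglow : ∀ N : ℕ, 1 ≤ N → ∀ a, Real.log cz - α * Real.log N ≤ Real.log (Z N a) := by
    intro N hN a
    have hN0 : (0:ℝ) < N := by exact_mod_cast hN
    have h1 := Real.log_le_log (by positivity) (hZlow N hN a)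
    rw [Real.log_mul hcz.ne' (by positivity), Real.log_rpow hN0] at h1
    linarith
  have hint : ∀ N : ℕ, 1 ≤ N → Integrable (fun a => Real.log (Z N a)) Q := by
    intro N hN
    have h1 := ((hmom N hN).1.const_mul (1 / γ)).add
      (integrable_const (|Real.log cz - α * Real.log N|))
    refine h1.mono' (Real.measurable_log.comp (hZm N)).aestronglyMeasurable
      (Eventually.of_forall fun a => ?_)
    have h2 := hlogup N hN a
    have h3 := hloglow N hN a
    have h4 := neg_abs_le (Real.log cz - α * Real.log N)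
    have h5 : 0 ≤ 1 / γ * Z N a ^ γ := by
      apply mul_nonneg (by positivity)
      exact Real.rpow_nonneg (by rw [hZeq]; exact ENNReal.toReal_nonneg) _
    rw [Real.norm_eq_abs, abs_le]
    show -(1 / γ * Z N a ^ γ + |Real.log cz - α * Real.log N|) ≤ _ ∧
      _ ≤ 1 / γ * Z N a ^ γ + |Real.log cz - α * Real.log N|
    constructor
    · linarith
    · linarith [abs_nonneg (Real.log cz - α * Real.log N)]
  have hup : ∀ N : ℕ, 1 ≤ N → (∫ a, Real.log (Z N a) ∂Q) / N ≤ (1 / γ * C) / N := by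
    intro N hN
    have hN0 : (0:ℝ) < N := by exact_mod_cast hN
    apply div_le_div_of_nonneg_right _ hN0.le
    calc ∫ a, Real.log (Z N a) ∂Q ≤ ∫ a, 1 / γ * Z N a ^ γ ∂Q :=
          integral_mono (hint N hN) ((hmom N hN).1.const_mul _) (hlogup N hN)
      _ = 1 / γ * ∫ a, Z N a ^ γ ∂Q := integral_const_mul _ _
      _ ≤ 1 / γ * C := mul_le_mul_of_nonneg_left (hmom N hN).2 (by positivity)
  have hlow : ∀ N : ℕ, 1 ≤ N → (Real.log cz - α * Real.log N) / N ≤ (∫ a, Real.log (Z N a) ∂Q) / N := by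
    intro N hN
    have hN0 : (0:ℝ) < N := by exact_mod_cast hN
    apply div_le_div_of_nonneg_right _ hN0.le
    calc Real.log cz - α * Real.log N = ∫ _, (Real.log cz - α * Real.log N) ∂Q := by simp
      _ ≤ _ := integral_mono (integrable_const _) (hint N hN) (hloglow N hN)
  have hl1 : Tendsto (fun N : ℕ => (1 / γ * C) / (N : ℝ)) atTop (𝓝 0) :=
    tendsto_const_nhds.div_atTop tendsto_natCast_atTop_atTop
  have hl2 : Tendsto (fun N : ℕ => (Real.log cz - α * Real.log N) / (N : ℝ)) atTop (𝓝 0) := by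
    have h1 : Tendsto (fun N : ℕ => Real.log cz / (N : ℝ)) atTop (𝓝 0) :=
      tendsto_const_nhds.div_atTop tendsto_natCast_atTop_atTop
    have h2 : Tendsto (fun N : ℕ => Real.log N / (N : ℝ)) atTop (𝓝 0) := by
      have := Real.isLittleO_log_id_atTop.tendsto_div_nhds_zero
      exact this.comp tendsto_natCast_atTop_atTop
    have h3 := h1.sub (h2.const_mul α)
    rw [mul_zero, sub_zero] at h3
    refine h3.congr fun N => ?_
    ring
  refine tendsto_of_tendsto_of_tendsto_of_le_of_le' hl2 hl1 ?_ ?_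
  · filter_upwards [eventually_ge_atTop 1] with N hN
    exact hlow N hN
  · filter_upwards [eventually_ge_atTop 1] with N hN
    exact hup N hN

/-- continuity of the one-step moment -/
lemma continuous_ph (hexp : ∀ t : ℝ, Integrable (fun x => Real.exp (t * x)) ν) (γ : ℝ) :
    Continuous fun p : ℝ × ℝ => ph ν p.1 p.2 γ := by
  have h1 : Continuous (mgf id ν) := continuous_mgf hexp
  have h2 : (fun p : ℝ × ℝ => ph ν p.1 p.2 γ) =
      fun p => Real.exp (-2 * γ * p.1 * p.2) * mgf id ν (-2 * γ * p.1) := by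
    ext p
    unfold ph mgf
    rw [← integral_const_mul]
    congr 1; ext t
    rw [← Real.exp_add]; congr 1
    simp only [id]; ring
  rw [h2]
  fun_prop

lemma ph_nonneg (ν : Measure ℝ) (lam h γ : ℝ) : 0 ≤ ph ν lam h γ :=
  integral_nonneg fun _ => (Real.exp_pos _).le

/-- the kernel sum is still less than one for a slightly larger `φ` -/
lemma kg_perturb (hK : InterArrival K α) (γ : ℝ) (hγ : 0 < γ) (hb : 1 < (1 + α) * γ) (φ q : ℝ)
    (hφ0 : 0 ≤ φ) (hφ1 : φ < 1) (hq1 : q < 1) (hq : ∀ s : Finset ℕ, ∑ n ∈ s, kg K γ φ n ≤ q) :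
    ∃ φ' q' : ℝ, φ < φ' ∧ φ' < 1 ∧ q' < 1 ∧ ∀ s : Finset ℕ, ∑ n ∈ s, kg K γ φ' n ≤ q' := by
  obtain ⟨c1, c2, hc1, hc2, hKb⟩ := K_bounds hK
  have hKn := K_nonneg hK
  -- summability of the kernel at φ = 1
  have hs1 : Summable fun n : ℕ => (K n / 2) ^ γ := by
    have h1 : Summable fun n : ℕ => c2 ^ γ * (n : ℝ) ^ (-((1 + α) * γ)) :=
      (Real.summable_nat_rpow.2 (by linarith)).mul_left _
    refine Summable.of_nonneg_of_le (fun n => by have := hKn n; positivity) (fun n => ?_) h1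
    rcases Nat.eq_zero_or_pos n with h | h
    · subst h
      rw [hK.zero, zero_div, Real.zero_rpow hγ.ne']
      positivity
    · have hn0 : (0:ℝ) < n := by exact_mod_cast h
      calc (K n / 2) ^ γ ≤ (c2 * (n : ℝ) ^ (-(1 + α))) ^ γ := by
            apply Real.rpow_le_rpow (by have := hKn n; positivity) _ hγ.le
            have := (hKb n h).2
            have := hKn n
            linarith
        _ = c2 ^ γ * (n : ℝ) ^ (-((1 + α) * γ)) := by
            rw [Real.mul_rpow hc2.le (by positivity), ← Real.rpow_mul hn0.le]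
            congr 2; ring
  have hsum : ∀ φ : ℝ, 0 ≤ φ → φ ≤ 1 → Summable fun n => kg K γ φ n := by
    intro φ h0 h1
    refine Summable.of_nonneg_of_le (fun n => ?_) (fun n => ?_) (hs1.mul_right 2)
    · unfold kg; have := hKn n; positivity
    · unfold kg
      have h2 := pow_le_one₀ (n := n) h0 h1
      have h3 : 0 ≤ (K n / 2) ^ γ := by have := hKn n; positivity
      nlinarith
  have hcont : ContinuousOn (fun φ : ℝ => ∑' n, kg K γ φ n) (Set.Icc 0 1) := by
    apply continuousOn_tsum (u := fun n => (K n / 2) ^ γ * 2)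
    · intro n
      unfold kg
      fun_prop
    · exact hs1.mul_right 2
    · intro n φ hφ
      have h3 : 0 ≤ (K n / 2) ^ γ := by have := hKn n; positivity
      have h0 := hφ.1
      have h2 := pow_le_one₀ (n := n) hφ.1 hφ.2
      unfold kg
      rw [Real.norm_eq_abs, abs_of_nonneg (by positivity)]
      nlinarith
  have hlt : ∑' n, kg K γ φ n < 1 := by
    refine lt_of_le_of_lt ?_ hq1
    exact (hsum φ hφ0 hφ1.le).tsum_le_of_sum_le hq
  have hev : ∀ᶠ φ' in 𝓝[Set.Icc 0 1] φ, ∑' n, kg K γ φ' n < 1 :=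
    (hcont φ ⟨hφ0, hφ1.le⟩).eventually (gt_mem_nhds hlt)
  have hle : 𝓝[Set.Ioo φ 1] φ ≤ 𝓝[Set.Icc 0 1] φ :=
    nhdsWithin_mono _ fun x hx => ⟨hφ0.trans hx.1.le, hx.2.le⟩
  have hne : (𝓝[Set.Ioo φ 1] φ).NeBot := by
    rw [← mem_closure_iff_nhdsWithin_neBot, closure_Ioo hφ1.ne]
    exact ⟨le_rfl, hφ1.le⟩
  obtain ⟨φ', h1, h2⟩ := ((hev.filter_mono hle).and self_mem_nhdsWithin).exists
  refine ⟨φ', ∑' n, kg K γ φ' n, h2.1, h2.2, h1, fun s => ?_⟩
  apply (hsum φ' (hφ0.trans h2.1.le) h2.2.le).sum_le_tsum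
  intro n _
  have h3 : 0 ≤ (K n / 2) ^ γ := by have := hKn n; positivity
  have h4 : 0 ≤ φ' := hφ0.trans h2.1.le
  unfold kg
  positivity

/-- **General theorem.** -/
theorem general (hK : InterArrival K α) (hR : RenewalSigns K P ξ ζ) (hC : Charges ν Q ω)
    (hexp : ∀ t : ℝ, Integrable (fun x => Real.exp (t * x)) ν) (lam h γ q : ℝ) (hlam : 0 < lam)
    (hh : 0 < h) (hγ0 : 0 < γ) (hγ1 : γ ≤ 1) (hb : 1 < (1 + α) * γ)
    (hφ1 : ph ν lam h γ < 1) (hq1 : q < 1)
    (hq : ∀ s : Finset ℕ, ∑ n ∈ s, kg K γ (ph ν lam h γ) n ≤ q) :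
    (lam, h) ∈ interior (delocRegion P ξ ζ Q ω) ∧
    ∀ ε : ℝ, 0 < ε → ε < 1 → ∀ᵐ a ∂Q,
      limsup (fun N => polymer P ξ ζ lam h (fun n => ω n a) N (staysUp ξ ζ ε N)) atTop = 1 ∧
      (1 < ph ν lam h 1 →
        liminf (fun N => polymer P ξ ζ lam h (fun n => ω n a) N (staysUp ξ ζ ε N)) atTop = 0) := by
  have hmk : ∀ lam h q : ℝ, ph ν lam h γ < 1 → q < 1 →
      (∀ s : Finset ℕ, ∑ n ∈ s, kg K γ (ph ν lam h γ) n ≤ q) →
      Par K α (muc ν lam h) γ q (ph ν lam h γ) := fun lam h q h1 h2 h3 =>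
    ⟨hK, hγ0, hγ1, hb, ph_nonneg ν lam h γ, h1, phi_eq_ph hexp lam h γ, h2, h3⟩
  have hP := hmk lam h q hφ1 hq1 hq
  constructor
  · obtain ⟨φ', q', hφφ', hφ'1, hq'1, hq'⟩ := kg_perturb hK γ hγ0 hb (ph ν lam h γ) q
      (ph_nonneg ν lam h γ) hφ1 hq1 hq
    rw [mem_interior_iff_mem_nhds]
    have h1 : ∀ᶠ p : ℝ × ℝ in 𝓝 (lam, h), ph ν p.1 p.2 γ < φ' :=
      (continuous_ph hexp γ).continuousAt.eventually (gt_mem_nhds hφφ')
    have h2 : ∀ᶠ p : ℝ × ℝ in 𝓝 (lam, h), 0 < p.1 :=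
      continuous_fst.continuousAt.eventually (lt_mem_nhds hlam)
    have h3 : ∀ᶠ p : ℝ × ℝ in 𝓝 (lam, h), 0 < p.2 :=
      continuous_snd.continuousAt.eventually (lt_mem_nhds hh)
    filter_upwards [h1, h2, h3] with p hp1 hp2 hp3
    refine ⟨hp2.le, hp3.le, ?_⟩
    apply free_energy_zero (α := α) (γ := γ) (q := q') hR hC
    apply hmk _ _ _ (hp1.trans hφ'1) hq'1
    intro s
    refine le_trans (Finset.sum_le_sum fun n _ => ?_) (hq' s)
    unfold kg
    have h4 : 0 ≤ (K n / 2) ^ γ := by have := K_nonneg hK n; positivity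
    have h5 : ph ν p.1 p.2 γ ^ n ≤ φ' ^ n := pow_le_pow_left₀ (ph_nonneg _ _ _ _) hp1.le n
    nlinarith
  · intro ε hε0 hε1
    have h1 := limsup_eq_one hR hC lam h hP ε hε0 hε1
    by_cases h2 : 1 < ph ν lam h 1
    · filter_upwards [h1, liminf_eq_zero hR hC hexp lam h hP h2 ε hε0 hε1] with a ha1 ha2
      exact ⟨ha1, fun _ => ha2⟩
    · filter_upwards [h1] with a ha1
      exact ⟨ha1, fun h3 => absurd h3 h2⟩

end main

end Pool.Agent.H.MP_9ba241_pr
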