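import Pool.Agent.H.MP_9ba241_pr.Step

open MeasureTheory ProbabilityTheory Filter Topology
open scoped ENNReal NNReal

set_option linter.unusedSectionVars false

namespace Pool.Agent.H.MP_9ba241_pr

lemma K_bounds {K : ℕ → ℝ} {α : ℝ} (hK : InterArrival K α) :
    ∃ c1 c2 : ℝ, 0 < c1 ∧ 0 < c2 ∧ ∀ n : ℕ, 1 ≤ n →
      c1 * (n : ℝ) ^ (-(1 + α)) ≤ K n ∧ K n ≤ c2 * (n : ℝ) ^ (-(1 + α)) := by
  obtain ⟨c, hc, hlim⟩ := hK.tail
  have hpos : ∀ n : ℕ, 1 ≤ n → 0 < K n * (n : ℝ) ^ (1 + α) := fun n hn =>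
    mul_pos (hK.pos n hn) (Real.rpow_pos_of_pos (by exact_mod_cast hn) _)
  obtain ⟨B, hB⟩ := hlim.bddAbove_range
  have hinv : Tendsto (fun n : ℕ => (K n * (n : ℝ) ^ (1 + α))⁻¹) atTop (𝓝 c⁻¹) :=
    hlim.inv₀ hc.ne'
  obtain ⟨B', hB'⟩ := hinv.bddAbove_range
  have hB1 : ∀ n, K n * (n : ℝ) ^ (1 + α) ≤ max B 1 := fun n =>
    (hB ⟨n, rfl⟩).trans (le_max_left _ _)
  have hB2 : ∀ n, (K n * (n : ℝ) ^ (1 + α))⁻¹ ≤ max B' 1 := fun n =>
    (hB' ⟨n, rfl⟩).trans (le_max_left _ _)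
  have hm1 : (0:ℝ) < max B' 1 := lt_of_lt_of_le one_pos (le_max_right _ _)
  refine ⟨(max B' 1)⁻¹, max B 1, inv_pos.2 hm1, lt_of_lt_of_le one_pos (le_max_right _ _), ?_⟩
  intro n hn
  have hn0 : (0:ℝ) < n := by exact_mod_cast hn
  have hr : (0:ℝ) < (n : ℝ) ^ (1 + α) := Real.rpow_pos_of_pos hn0 _
  have he : (n : ℝ) ^ (-(1 + α)) = ((n : ℝ) ^ (1 + α))⁻¹ := Real.rpow_neg hn0.le _
  rw [he]
  constructor
  · rw [← div_eq_mul_inv, div_le_iff₀ hr]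
    have h1 := hB2 n
    rw [inv_le_iff_one_le_mul₀ (hpos n hn)] at h1
    rw [inv_le_iff_one_le_mul₀ hm1]
    linarith
  · rw [← div_eq_mul_inv, le_div_iff₀ hr]
    exact hB1 n

lemma tel (α : ℝ) (hα : 0 ≤ α) (m : ℕ) (hm : 1 ≤ m) :
    α * ((m : ℝ) + 1) ^ (-(1 + α)) ≤ (m : ℝ) ^ (-α) - ((m : ℝ) + 1) ^ (-α) := by
  have hm0 : (0:ℝ) < m := by exact_mod_cast hm
  have hm1 : (0:ℝ) < (m : ℝ) + 1 := by linarith
  have h1 : (m : ℝ) ^ (-α) = ((m : ℝ) + 1) ^ (-α) * (m / ((m : ℝ) + 1)) ^ (-α) := by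
    rw [← Real.mul_rpow hm1.le (by positivity)]
    congr 1; field_simp
  have h2 : 1 + α / ((m : ℝ) + 1) ≤ (m / ((m : ℝ) + 1)) ^ (-α) := by
    rw [Real.rpow_def_of_pos (by positivity)]
    have h3 : Real.log (m / ((m : ℝ) + 1)) ≤ m / ((m : ℝ) + 1) - 1 :=
      Real.log_le_sub_one_of_pos (by positivity)
    have h4 : (m : ℝ) / (m + 1) - 1 = - (1 / ((m : ℝ) + 1)) := by field_simp; ring
    have h5 := Real.add_one_le_exp (Real.log (m / ((m : ℝ) + 1)) * -α)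
    have h6 : α / ((m : ℝ) + 1) ≤ Real.log (m / ((m : ℝ) + 1)) * -α := by
      rw [h4] at h3
      have := mul_le_mul_of_nonneg_left h3 hα
      have e : α * -(1 / ((m : ℝ) + 1)) = -(α / ((m : ℝ) + 1)) := by ring
      rw [e] at this
      linarith
    linarith
  have h3 : 0 < ((m : ℝ) + 1) ^ (-α) := Real.rpow_pos_of_pos hm1 _
  have h4 : ((m : ℝ) + 1) ^ (-(1 + α)) = ((m : ℝ) + 1) ^ (-α) * ((m : ℝ) + 1)⁻¹ := by
    rw [← Real.rpow_neg_one, ← Real.rpow_add hm1]; congr 1; ring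
  rw [h4, h1]
  have h5 := mul_le_mul_of_nonneg_left h2 h3.le
  have h6 : α * (((m : ℝ) + 1) ^ (-α) * ((m : ℝ) + 1)⁻¹) =
      ((m : ℝ) + 1) ^ (-α) * (1 + α / ((m : ℝ) + 1)) - ((m : ℝ) + 1) ^ (-α) := by
    field_simp; ring
  rw [h6]
  linarith

lemma tail_sum (α : ℝ) (hα : 0 < α) (N : ℕ) (hN : 1 ≤ N) (M : ℕ) :
    ∑ n ∈ Finset.Ico N M, (n : ℝ) ^ (-(1 + α)) ≤ (1 + 1 / α) * (N : ℝ) ^ (-α) := by
  have hN0 : (0:ℝ) < N := by exact_mod_cast hN
  -- stronger statement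
  have key : ∀ d : ℕ, ∑ n ∈ Finset.Ico N (N + 1 + d), (n : ℝ) ^ (-(1 + α)) ≤
      (N : ℝ) ^ (-(1 + α)) + 1 / α * ((N : ℝ) ^ (-α) - ((N + d : ℕ) : ℝ) ^ (-α)) := by
    intro d
    induction d with
    | zero => simp
    | succ d ih =>
      rw [show N + 1 + (d + 1) = (N + 1 + d) + 1 by ring, Finset.sum_Ico_succ_top (by omega)]
      have h1 := tel α hα.le (N + d) (by omega)
      have h2 : ((N + 1 + d : ℕ) : ℝ) = ((N + d : ℕ) : ℝ) + 1 := by push_cast; ring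
      have h3 : ((N + (d + 1) : ℕ) : ℝ) = ((N + d : ℕ) : ℝ) + 1 := by push_cast; ring
      rw [h2, h3]
      have h4 : (((N + d : ℕ) : ℝ) + 1) ^ (-(1 + α)) ≤
          1 / α * (((N + d : ℕ) : ℝ) ^ (-α) - (((N + d : ℕ) : ℝ) + 1) ^ (-α)) := by
        rw [div_mul_eq_mul_div, one_mul, le_div_iff₀ hα]
        linarith
      have h5 : 1 / α * ((N : ℝ) ^ (-α) - (((N + d : ℕ) : ℝ) + 1) ^ (-α)) =
          1 / α * ((N : ℝ) ^ (-α) - ((N + d : ℕ) : ℝ) ^ (-α)) +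
          1 / α * (((N + d : ℕ) : ℝ) ^ (-α) - (((N + d : ℕ) : ℝ) + 1) ^ (-α)) := by ring
      rw [h5]
      linarith
  have hsub : Finset.Ico N M ⊆ Finset.Ico N (N + 1 + M) := Finset.Ico_subset_Ico_right (by omega)
  have h1 : ∑ n ∈ Finset.Ico N M, (n : ℝ) ^ (-(1 + α)) ≤
      ∑ n ∈ Finset.Ico N (N + 1 + M), (n : ℝ) ^ (-(1 + α)) :=
    Finset.sum_le_sum_of_subset_of_nonneg hsub fun n _ _ => Real.rpow_nonneg (Nat.cast_nonneg _) _
  have h2 := key M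
  have h3 : (N : ℝ) ^ (-(1 + α)) ≤ (N : ℝ) ^ (-α) :=
    Real.rpow_le_rpow_of_exponent_le (by exact_mod_cast hN) (by linarith)
  have h4 : 0 ≤ ((N + M : ℕ) : ℝ) ^ (-α) := Real.rpow_nonneg (Nat.cast_nonneg _) _
  have h5 : 1 / α * ((N : ℝ) ^ (-α) - ((N + M : ℕ) : ℝ) ^ (-α)) ≤ 1 / α * (N : ℝ) ^ (-α) :=
    mul_le_mul_of_nonneg_left (by linarith) (by positivity)
  have h6 : (1 + 1 / α) * (N : ℝ) ^ (-α) = (N : ℝ) ^ (-α) + 1 / α * (N : ℝ) ^ (-α) := by ring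
  rw [h6]
  linarith

/-- the tail of the inter-arrival law -/
lemma kb_bounds {K : ℕ → ℝ} {α : ℝ} (hK : InterArrival K α) :
    ∃ c3 c4 : ℝ, 0 < c3 ∧ 0 < c4 ∧ ∀ N : ℕ, 1 ≤ N →
      ENNReal.ofReal (c3 * (N : ℝ) ^ (-α)) ≤ kb (fun n => ENNReal.ofReal (K n)) N ∧
      kb (fun n => ENNReal.ofReal (K n)) N ≤ ENNReal.ofReal (c4 * (N : ℝ) ^ (-α)) := by
  obtain ⟨c1, c2, hc1, hc2, hb⟩ := K_bounds hK
  have hα := hK.α_pos
  have hK0 : ∀ n, 0 ≤ K n := by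
    intro n
    rcases Nat.eq_zero_or_pos n with h | h
    · rw [h, hK.zero]
    · exact (hK.pos n h).le
  refine ⟨c1 * 2 ^ (-(1 + α)), c2 * (1 + 1 / α), by positivity, by positivity, ?_⟩
  intro N hN
  have hN0 : (0:ℝ) < N := by exact_mod_cast hN
  constructor
  · -- lower bound
    have h1 : ENNReal.ofReal (c1 * 2 ^ (-(1 + α)) * (N : ℝ) ^ (-α)) ≤
        ∑ n ∈ Finset.Ico N (2 * N), ENNReal.ofReal (K n) := by
      rw [← ENNReal.ofReal_sum_of_nonneg fun n _ => hK0 n]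
      apply ENNReal.ofReal_le_ofReal
      calc c1 * 2 ^ (-(1 + α)) * (N : ℝ) ^ (-α)
          = ∑ _n ∈ Finset.Ico N (2 * N), c1 * (2 * N : ℝ) ^ (-(1 + α)) := by
            rw [Finset.sum_const, Nat.card_Ico, nsmul_eq_mul, Real.mul_rpow (by norm_num) hN0.le]
            have e1 : ((2 * N - N : ℕ) : ℝ) = N := by congr 1; omega
            have e2 : (N : ℝ) ^ (-α) = N * (N : ℝ) ^ (-(1 + α)) := by
              rw [← Real.rpow_one_add' hN0.le (by linarith)]; congr 1; ring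
            rw [e1, e2]; ring
        _ ≤ ∑ n ∈ Finset.Ico N (2 * N), K n := by
            refine Finset.sum_le_sum fun n hn => ?_
            rw [Finset.mem_Ico] at hn
            refine le_trans ?_ (hb n (by omega)).1
            apply mul_le_mul_of_nonneg_left _ hc1.le
            apply Real.rpow_le_rpow_of_nonpos
            · exact_mod_cast (by omega : 0 < n)
            · have : ((n : ℕ) : ℝ) ≤ ((2 * N : ℕ) : ℝ) := by exact_mod_cast hn.2.le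
              push_cast at this; exact this
            · linarith
    refine h1.trans ?_
    unfold kb
    calc ∑ n ∈ Finset.Ico N (2 * N), ENNReal.ofReal (K n)
        = ∑ n ∈ Finset.Ico N (2 * N), (if N ≤ n then ENNReal.ofReal (K n) else 0) := by
          refine Finset.sum_congr rfl fun n hn => ?_
          rw [if_pos (Finset.mem_Ico.1 hn).1]
      _ ≤ _ := ENNReal.sum_le_tsum _
  · unfold kb
    apply ENNReal.tsum_le_of_sum_range_le
    intro M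
    rw [← Finset.sum_filter, ← ENNReal.ofReal_sum_of_nonneg fun n _ => hK0 n]
    apply ENNReal.ofReal_le_ofReal
    calc ∑ n ∈ (Finset.range M).filter (fun n => N ≤ n), K n
        ≤ ∑ n ∈ (Finset.range M).filter (fun n => N ≤ n), c2 * (n : ℝ) ^ (-(1 + α)) := by
          refine Finset.sum_le_sum fun n hn => ?_
          rw [Finset.mem_filter] at hn
          exact (hb n (by omega)).2
      _ = c2 * ∑ n ∈ Finset.Ico N M, (n : ℝ) ^ (-(1 + α)) := by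
          rw [← Finset.mul_sum]
          congr 2
          ext n
          simp only [Finset.mem_filter, Finset.mem_range, Finset.mem_Ico]
          omega
      _ ≤ c2 * ((1 + 1 / α) * (N : ℝ) ^ (-α)) := by
          apply mul_le_mul_of_nonneg_left (tail_sum α hα N hN M) hc2.le
      _ = _ := by ring

end Pool.Agent.H.MP_9ba241_pr
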