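import Pool.Agent.H.MP_9ba241_pr.Env

open MeasureTheory ProbabilityTheory Filter Topology
open scoped ENNReal NNReal

set_option linter.unusedSectionVars false
set_option maxHeartbeats 400000

namespace Pool.Agent.H.MP_9ba241_pr

section canon
variable {K : ℕ → ℝ} {α : ℝ} {μc : Measure ℝ} {γ q φ : ℝ}
  {ρ : Measure (ℕ × Bool)} [IsProbabilityMeasure ρ] [IsProbabilityMeasure μc]

theorem canon_liminf (hP : Par K α μc γ q φ) (hρ : IsStep ρ fun n => ENNReal.ofReal (K n))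
    (h1 : 1 < phi μc 1) (h2 : phi μc 2 ≠ ∞) (ε : ℝ) (hε0 : 0 < ε) (hε1 : ε < 1) :
    ∀ᵐ c ∂seqLaw μc, ∀ η : ℝ≥0∞, 0 < η → ∃ᶠ N in atTop, Vf ρ N (mi ε N) c / Zf ρ N c < η := by
  have hk0 : ENNReal.ofReal (K 0) = 0 := by rw [hP.hK.zero, ENNReal.ofReal_zero]
  obtain ⟨Cu, hCu, hU⟩ := Uf_bound hP.hK hρ
  obtain ⟨cz, hcz, hZ⟩ := Zf_lower2 hP.hK hρ
  obtain ⟨s, hs, j, n, hn, hjn, hwin⟩ := windows h1 h2
  have hα := hP.hK.α_pos
  have hs0 : 0 < s := by linarith
  filter_upwards [hwin, Tm_bounded hP hρ] with c hc ⟨T, hT0, hT⟩ η hη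
  -- the decaying bound
  set G : ℝ := Cu * (1 - ε) ^ (-α) * T / cz with hG
  have h1ε : 0 < 1 - ε := by linarith
  have hG0 : 0 < G := by rw [hG]; positivity
  have hdecay : Tendsto (fun l : ℕ => ENNReal.ofReal (G * (((l : ℝ) + 1) * (l : ℝ) ^ α *
      (2 * Real.exp 1 / s ^ l)))) atTop (𝓝 0) := by
    obtain ⟨k, hk⟩ := exists_nat_ge α
    have h3 : Tendsto (fun l : ℕ => (l : ℝ) ^ (k + 1) / s ^ l) atTop (𝓝 0) :=
      tendsto_pow_const_div_const_pow_of_one_lt (k + 1) hs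
    have h4 : Tendsto (fun l : ℕ => G * (4 * Real.exp 1) * ((l : ℝ) ^ (k + 1) / s ^ l)) atTop
        (𝓝 (G * (4 * Real.exp 1) * 0)) := h3.const_mul _
    rw [mul_zero] at h4
    have h5 : Tendsto (fun l : ℕ => G * (((l : ℝ) + 1) * (l : ℝ) ^ α *
        (2 * Real.exp 1 / s ^ l))) atTop (𝓝 0) := by
      refine squeeze_zero' (Eventually.of_forall fun l => by positivity) ?_ h4
      filter_upwards [eventually_ge_atTop 1] with l hl
      have hl1 : (1:ℝ) ≤ l := by exact_mod_cast hl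
      have e1 : (l : ℝ) ^ α ≤ (l : ℝ) ^ k := by
        rw [← Real.rpow_natCast]
        exact Real.rpow_le_rpow_of_exponent_le hl1 hk
      have e2 : (l : ℝ) + 1 ≤ 2 * l := by linarith
      calc G * (((l : ℝ) + 1) * (l : ℝ) ^ α * (2 * Real.exp 1 / s ^ l))
          ≤ G * ((2 * l) * (l : ℝ) ^ k * (2 * Real.exp 1 / s ^ l)) := by gcongr
        _ = _ := by rw [pow_succ]; ring
    have h6 := (ENNReal.continuous_ofReal.tendsto 0).comp h5
    rw [ENNReal.ofReal_zero] at h6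
    exact h6
  have hev := hdecay.eventually (gt_mem_nhds hη)
  rw [frequently_atTop]
  intro N0
  obtain ⟨l, hl1, hl2, hl3, hl4, hl5⟩ := ((eventually_ge_atTop 1).and (hc.and (hjn.and
    (hev.and (hn.eventually_ge_atTop (max N0 1)))))).exists
  obtain ⟨i, hi, hgain⟩ := hl2
  set N : ℕ := n l + (i + 1) * l with hN
  have hnl : 1 ≤ n l := (le_max_right _ _).trans hl5
  have hNn : n l ≤ N := by rw [hN]; omega
  refine ⟨N, (le_max_left _ _).trans (hl5.trans hNn), lt_of_le_of_lt ?_ hl4⟩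
  have hN1 : 1 ≤ N := by omega
  have hlN : l < N := by
    rw [hN, Nat.add_mul]; omega
  have hNl : N - l = n l + i * l := by rw [hN, Nat.add_mul]; omega
  have hN0 : (0:ℝ) < N := by exact_mod_cast hN1
  have hl0 : (0:ℝ) < l := by exact_mod_cast hl1
  have hNle : (N : ℝ) ≤ n l * (l + 1) := by
    have h3 : N ≤ n l * (l + 1) := by
      rw [hN]
      have : (i + 1) * l ≤ n l * l := Nat.mul_le_mul_right l hi
      linarith
    exact_mod_cast h3
  have hmi := mi_lt ε hε0 hε1 N hN1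
  have hr : 1 ≤ N - mi ε N := by omega
  have hrr := mi_sub ε hε0 hε1 N hN1
  -- upper bound of V
  have hV : Vf ρ N (mi ε N) c ≤ ENNReal.ofReal (Cu * (1 - ε) ^ (-α) * (N : ℝ) ^ (-α) * T) := by
    have h3 := Vf_le_Tm hρ hk0 (N - mi ε N) hr (mi ε N) c
    rw [show mi ε N + (N - mi ε N) = N by omega] at h3
    refine h3.trans ?_
    calc Uf ρ (N - mi ε N) * Tm ρ (mi ε N) c
        ≤ ENNReal.ofReal (Cu * ((N - mi ε N : ℕ) : ℝ) ^ (-α)) * ENNReal.ofReal T := by
          gcongr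
          · exact hU _ hr
          · exact hT _
      _ ≤ ENNReal.ofReal (Cu * ((1 - ε) ^ (-α) * (N : ℝ) ^ (-α))) * ENNReal.ofReal T := by
          gcongr
          rw [← Real.mul_rpow h1ε.le hN0.le]
          exact Real.rpow_le_rpow_of_nonpos (by positivity) hrr (by linarith)
      _ = _ := by
          rw [← ENNReal.ofReal_mul (by positivity)]; congr 1; ring
  -- lower bound of Z
  have hZl : ENNReal.ofReal (cz * (N : ℝ) ^ (-(1 + α)) * (l : ℝ) ^ (-α) * Real.exp (j l)) ≤ Zf ρ N c := by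
    refine le_trans ?_ (hZ N l hl1 hlN c)
    rw [ENNReal.ofReal_mul (by positivity)]
    gcongr
    rw [hNl, En_eq]
    apply ENNReal.ofReal_le_ofReal
    exact Real.exp_le_exp.2 hgain
  have hden : 0 < cz * (N : ℝ) ^ (-(1 + α)) * (l : ℝ) ^ (-α) * Real.exp (j l) := by positivity
  calc Vf ρ N (mi ε N) c / Zf ρ N c
      ≤ ENNReal.ofReal (Cu * (1 - ε) ^ (-α) * (N : ℝ) ^ (-α) * T) /
        ENNReal.ofReal (cz * (N : ℝ) ^ (-(1 + α)) * (l : ℝ) ^ (-α) * Real.exp (j l)) :=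
        ENNReal.div_le_div hV hZl
    _ = ENNReal.ofReal (Cu * (1 - ε) ^ (-α) * (N : ℝ) ^ (-α) * T /
        (cz * (N : ℝ) ^ (-(1 + α)) * (l : ℝ) ^ (-α) * Real.exp (j l))) := by
        rw [ENNReal.ofReal_div_of_pos hden]
    _ ≤ _ := by
        apply ENNReal.ofReal_le_ofReal
        have e1 : (N : ℝ) ^ (-(1 + α)) = (N : ℝ) ^ (-α) * (N : ℝ)⁻¹ := by
          rw [← Real.rpow_neg_one, ← Real.rpow_add hN0]; congr 1; ring
        have e2 : (l : ℝ) ^ (-α) = ((l : ℝ) ^ α)⁻¹ := Real.rpow_neg hl0.le α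
        have e3 : (Real.exp (j l : ℝ))⁻¹ = Real.exp (-(j l : ℝ)) := (Real.exp_neg _).symm
        have hNα : 0 < (N : ℝ) ^ (-α) := by positivity
        have hlα : 0 < (l : ℝ) ^ α := by positivity
        calc Cu * (1 - ε) ^ (-α) * (N : ℝ) ^ (-α) * T /
              (cz * (N : ℝ) ^ (-(1 + α)) * (l : ℝ) ^ (-α) * Real.exp (j l))
            = G * (N * (l : ℝ) ^ α * (Real.exp (j l : ℝ))⁻¹) := by
              rw [e1, e2, hG]; field_simp
          _ = G * (N * (l : ℝ) ^ α * Real.exp (-(j l : ℝ))) := by rw [e3]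
          _ ≤ G * ((n l * (l + 1)) * (l : ℝ) ^ α * (2 * Real.exp 1 / (n l * s ^ l))) := by
              gcongr
          _ = _ := by
              have : (0:ℝ) < n l := by exact_mod_cast hnl
              field_simp

end canon

end Pool.Agent.H.MP_9ba241_pr
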