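import Pool.Agent.H.MP_9ba241_pr.Choice

open MeasureTheory ProbabilityTheory Filter Topology
open scoped ENNReal NNReal

set_option linter.unusedSectionVars false
set_option linter.style.haveILetI false
set_option maxHeartbeats 400000

namespace Pool.Agent.H.MP_9ba241_pr

/-- The assumptions on the law of a charge: mean `0`, variance `1`, all exponential moments. -/
structure ChargeLaw (ν : Measure ℝ) : Prop where
  prob : IsProbabilityMeasure ν
  exp_moment : ∀ t : ℝ, Integrable (fun x => Real.exp (t * x)) ν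
  mean : ∫ x, x ∂ν = 0
  second : ∫ x, x ^ 2 ∂ν = 1

/-- `ν` has no atom at its essential infimum: there are half lines `(-∞, a]` of positive and
arbitrarily small mass. -/
def NoBottomAtom (ν : Measure ℝ) : Prop :=
  ∀ η : ℝ, 0 < η → ∃ a : ℝ, 0 < ν.real (Set.Iic a) ∧ ν.real (Set.Iic a) < η

lemma ChargeLaw.integrable_id {ν : Measure ℝ} (hν : ChargeLaw ν) :
    Integrable (fun x : ℝ => x) ν := by
  have h := ((hν.exp_moment 1).add (hν.exp_moment (-1)))
  refine h.mono' (by fun_prop) (Eventually.of_forall fun x => ?_)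
  rw [Real.norm_eq_abs]
  show |x| ≤ Real.exp (1 * x) + Real.exp (-1 * x)
  rw [one_mul, neg_one_mul]
  have h1 := Real.add_one_le_exp x
  have h2 := Real.add_one_le_exp (-x)
  have h3 := Real.exp_pos x
  have h4 := Real.exp_pos (-x)
  rcases abs_cases x with ⟨h, _⟩ | ⟨h, _⟩ <;> rw [h] <;> linarith

lemma NoBottomAtom.enn {ν : Measure ℝ} [IsProbabilityMeasure ν] (h : NoBottomAtom ν) :
    ∀ η : ℝ≥0∞, 0 < η → ∃ a : ℝ, 0 < ν (Set.Iic a) ∧ ν (Set.Iic a) < η := by
  intro η hη
  rcases eq_or_ne η ∞ with h1 | h1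
  · obtain ⟨a, ha, _⟩ := h 1 one_pos
    refine ⟨a, ?_, ?_⟩
    · rw [measureReal_def] at ha
      exact (ENNReal.toReal_pos_iff.1 ha).1
    · rw [h1]; exact measure_lt_top _ _
  · obtain ⟨a, ha, ha2⟩ := h η.toReal (ENNReal.toReal_pos hη.ne' h1)
    refine ⟨a, ?_, ?_⟩
    · rw [measureReal_def] at ha
      exact (ENNReal.toReal_pos_iff.1 ha).1
    · rw [measureReal_def] at ha2
      exact (ENNReal.toReal_lt_toReal (measure_ne_top _ _) h1).1 ha2

/-- the standard Gaussian law is a law of charges -/
lemma chargeLaw_gaussian : ChargeLaw (gaussianReal 0 1) where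
  prob := inferInstance
  exp_moment t := integrable_exp_mul_gaussianReal t
  mean := integral_id_gaussianReal
  second := by
    have h := variance_fun_id_gaussianReal (μ := 0) (v := 1)
    rw [variance_of_integral_eq_zero (by fun_prop) integral_id_gaussianReal] at h
    simpa using h

/-- the standard Gaussian law has no atom at its essential infimum -/
lemma noBottomAtom_gaussian : NoBottomAtom (gaussianReal 0 1) := by
  intro η hη
  have hpos : ∀ a : ℝ, 0 < (gaussianReal 0 1).real (Set.Iic a) := by
    intro a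
    rw [measureReal_def]
    apply ENNReal.toReal_pos _ (measure_ne_top _ _)
    intro h0
    have h1 := gaussianReal_absolutelyContinuous' 0 (v := 1) one_ne_zero h0
    rw [Real.volume_Iic] at h1
    exact ENNReal.top_ne_zero h1
  have hlim : Tendsto (fun n : ℕ => (gaussianReal 0 1) (Set.Iic (-(n : ℝ)))) atTop (𝓝 0) := by
    have hanti : Antitone fun n : ℕ => Set.Iic (-(n : ℝ)) := by
      intro n m h
      apply Set.Iic_subset_Iic.2
      have : (n:ℝ) ≤ m := by exact_mod_cast h
      linarith
    have h1 := tendsto_measure_iInter_atTop (μ := gaussianReal 0 1)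
      (fun n => measurableSet_Iic.nullMeasurableSet) hanti ⟨0, measure_ne_top _ _⟩
    have h2 : ⋂ n : ℕ, Set.Iic (-(n : ℝ)) = ∅ := by
      ext y
      simp only [Set.mem_iInter, Set.mem_Iic, Set.mem_empty_iff_false, iff_false, not_forall]
      obtain ⟨n, hn⟩ := exists_nat_gt (-y)
      exact ⟨n, by linarith⟩
    rw [h2, measure_empty] at h1
    exact h1
  have hη' : 0 < ENNReal.ofReal η := ENNReal.ofReal_pos.2 hη
  obtain ⟨n, hn⟩ := (hlim.eventually (gt_mem_nhds hη')).exists
  refine ⟨-(n:ℝ), hpos _, ?_⟩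
  rw [measureReal_def]
  have h3 := (ENNReal.toReal_lt_toReal (measure_ne_top _ _) ENNReal.ofReal_ne_top).2 hn
  rwa [ENNReal.toReal_ofReal hη.le] at h3

/-- a model of i.i.d. charges -/
lemma exists_charges (ν : Measure ℝ) [IsProbabilityMeasure ν] :
    Charges ν (seqLaw ν) (fun n (a : ℕ → ℝ) => a n) where
  meas n := measurable_pi_apply n
  law n := by
    unfold seqLaw
    exact (measurePreserving_eval_infinitePi (fun _ : ℕ => ν) n).map_eq
  indep := indep_coord ν

/-- law of one excursion with its sign -/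
noncomputable def stepPMF (K : ℕ → ℝ) (hK : HasSum (fun n => ENNReal.ofReal (K n)) 1) : PMF ℕ :=
  ⟨fun n => ENNReal.ofReal (K n), hK⟩

lemma hasSum_ofReal {K : ℕ → ℝ} {α : ℝ} (hK : InterArrival K α) :
    HasSum (fun n => ENNReal.ofReal (K n)) 1 := by
  have h := hK.sum_one
  have h1 : ∑' n, ENNReal.ofReal (K n) = 1 := by
    rw [← ENNReal.ofReal_tsum_of_nonneg (fun n => K_nonneg hK n) h.summable, h.tsum_eq,
      ENNReal.ofReal_one]
  rw [← h1]
  exact ENNReal.summable.hasSum

/-- a model of a renewal process with signs -/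
lemma exists_renewal {K : ℕ → ℝ} {α : ℝ} (hK : InterArrival K α) :
    ∃ (ρ : Measure (ℕ × Bool)) (_ : IsProbabilityMeasure ρ),
      RenewalSigns K (seqLaw ρ) (fun i x => (x i).1) (fun i x => (x i).2) := by
  set μK : Measure ℕ := (stepPMF K (hasSum_ofReal hK)).toMeasure with hμK
  set μB : Measure Bool := (PMF.uniformOfFintype Bool).toMeasure with hμB
  haveI : IsProbabilityMeasure μK := by rw [hμK]; infer_instance
  haveI : IsProbabilityMeasure μB := by rw [hμB]; infer_instance
  refine ⟨μK.prod μB, inferInstance, ?_⟩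
  have hmap : ∀ i : ℕ, (seqLaw (μK.prod μB)).map (fun x : ℕ → ℕ × Bool => x i) = μK.prod μB := by
    intro i
    unfold seqLaw
    exact (measurePreserving_eval_infinitePi (fun _ : ℕ => μK.prod μB) i).map_eq
  have hm : ∀ i : ℕ, Measurable fun x : ℕ → ℕ × Bool => x i := fun i => measurable_pi_apply i
  constructor
  · intro i; exact measurable_fst.comp (hm i)
  · intro i; exact measurable_snd.comp (hm i)
  · intro i n
    have h1 : {x : ℕ → ℕ × Bool | (x i).1 = n} = (fun x => x i) ⁻¹' ({n} ×ˢ Set.univ) := by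
      ext x; simp
    rw [h1, ← Measure.map_apply (hm i) ((MeasurableSet.singleton n).prod MeasurableSet.univ),
      hmap, Measure.prod_prod, measure_univ, mul_one, hμK,
      PMF.toMeasure_apply_singleton _ _ (MeasurableSet.singleton n)]
    rfl
  · intro i b
    have h1 : {x : ℕ → ℕ × Bool | (x i).2 = b} = (fun x => x i) ⁻¹' (Set.univ ×ˢ {b}) := by
      ext x; simp
    rw [h1, ← Measure.map_apply (hm i) (MeasurableSet.univ.prod (MeasurableSet.singleton b)),
      hmap, Measure.prod_prod, measure_univ, one_mul, hμB,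
      PMF.toMeasure_apply_singleton _ _ (MeasurableSet.singleton b)]
    simp
  · intro i
    have hf1 : Measurable fun x : ℕ → ℕ × Bool => (x i).1 := measurable_fst.comp (hm i)
    have hf2 : Measurable fun x : ℕ → ℕ × Bool => (x i).2 := measurable_snd.comp (hm i)
    rw [indepFun_iff_map_prod_eq_prod_map_map hf1.aemeasurable hf2.aemeasurable]
    have e1 : (seqLaw (μK.prod μB)).map (fun x : ℕ → ℕ × Bool => (x i).1) = μK := by
      have : (fun x : ℕ → ℕ × Bool => (x i).1) = Prod.fst ∘ fun x => x i := rfl
      rw [this, ← Measure.map_map measurable_fst (hm i), hmap]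
      exact (measurePreserving_fst (μ := μK) (ν := μB)).map_eq
    have e2 : (seqLaw (μK.prod μB)).map (fun x : ℕ → ℕ × Bool => (x i).2) = μB := by
      have : (fun x : ℕ → ℕ × Bool => (x i).2) = Prod.snd ∘ fun x => x i := rfl
      rw [this, ← Measure.map_map measurable_snd (hm i), hmap]
      exact (measurePreserving_snd (μ := μK) (ν := μB)).map_eq
    rw [e1, e2]
    exact hmap i
  · exact indep_coord (μK.prod μB)

/-- for every exponent there is an inter-arrival law -/
lemma exists_interArrival (α : ℝ) (hα : 0 < α) : ∃ K : ℕ → ℝ, InterArrival K α := by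
  set f : ℕ → ℝ := fun n => if n = 0 then 0 else (n : ℝ) ^ (-(1 + α)) with hf
  have hs : Summable f := by
    refine Summable.of_nonneg_of_le (fun n => ?_) (fun n => ?_)
      (Real.summable_nat_rpow.2 (by linarith : -(1 + α) < -1))
    · simp only [hf]; split_ifs <;> positivity
    · simp only [hf]; split_ifs <;> [positivity; exact le_rfl]
  have hf1 : f 1 = 1 := by simp [hf]
  have hn : ∀ n, 0 ≤ f n := fun n => by simp only [hf]; split_ifs <;> positivity
  have hS : 0 < ∑' n, f n := by
    have := hs.le_tsum 1 (fun n _ => hn n)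
    linarith
  refine ⟨fun n => f n / ∑' n, f n, hα, ?_, ?_, ?_, ?_⟩
  · simp [hf]
  · intro n h
    apply div_pos _ hS
    simp only [hf, if_neg (by omega : ¬ n = 0)]
    have : (0:ℝ) < n := by exact_mod_cast h
    positivity
  · have := hs.hasSum.div_const (∑' n, f n)
    rwa [div_self hS.ne'] at this
  · refine ⟨1 / ∑' n, f n, by positivity, ?_⟩
    apply tendsto_const_nhds.congr'
    filter_upwards [eventually_ge_atTop 1] with n h
    have h0 : (0:ℝ) < n := by exact_mod_cast h
    simp only [hf, if_neg (by omega : ¬ n = 0)]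
    rw [div_mul_eq_mul_div, ← Real.rpow_add h0]
    simp

end Pool.Agent.H.MP_9ba241_pr
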