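import Pool.Agent.H.MP_9ba241_pr.Up

open MeasureTheory ProbabilityTheory Filter Topology
open scoped ENNReal NNReal

set_option linter.unusedSectionVars false

namespace Pool.Agent.H.MP_9ba241_pr

/-- the kernel of the fractional moment method -/
noncomputable def kg (K : ℕ → ℝ) (γ φ : ℝ) (n : ℕ) : ℝ := (K n / 2) ^ γ * (1 + φ ^ n)

/-- the standing assumptions of the fractional moment method -/
structure Par (K : ℕ → ℝ) (α : ℝ) (μc : Measure ℝ) (γ q φ : ℝ) : Prop where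
  hK : InterArrival K α
  γ0 : 0 < γ
  γ1 : γ ≤ 1
  hb : 1 < (1 + α) * γ
  φ0 : 0 ≤ φ
  φ1 : φ < 1
  hφ : phi μc γ = ENNReal.ofReal φ
  q1 : q < 1
  hq : ∀ s : Finset ℕ, ∑ n ∈ s, kg K γ φ n ≤ q

section moments
variable {K : ℕ → ℝ} {α : ℝ} {μc : Measure ℝ} {γ q φ : ℝ}
  {ρ : Measure (ℕ × Bool)} [IsProbabilityMeasure ρ]

lemma K_nonneg (hK : InterArrival K α) (n : ℕ) : 0 ≤ K n := by
  rcases Nat.eq_zero_or_pos n with h | h
  · rw [h, hK.zero]
  · exact (hK.pos n h).le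

lemma kg_nonneg (hP : Par K α μc γ q φ) (n : ℕ) : 0 ≤ kg K γ φ n := by
  unfold kg
  have := K_nonneg hP.hK n
  have := hP.φ0
  positivity

lemma kg_eq (hP : Par K α μc γ q φ) (n : ℕ) :
    (ENNReal.ofReal (K n) * 2⁻¹) ^ γ * (1 + phi μc γ ^ n) = ENNReal.ofReal (kg K γ φ n) := by
  have h0 := K_nonneg hP.hK n
  have hφ0 := hP.φ0
  rw [hP.hφ]
  unfold kg
  rw [ENNReal.ofReal_mul (by positivity), ENNReal.ofReal_add zero_le_one (by positivity),
    ENNReal.ofReal_one, ENNReal.ofReal_pow hφ0]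
  congr 1
  rw [← ENNReal.ofReal_rpow_of_nonneg (by positivity) hP.γ0.le, ENNReal.ofReal_div_of_pos two_pos,
    ENNReal.ofReal_ofNat]
  rfl

/-- `C n^{-b}` bound of the kernel -/
lemma kg_le (hP : Par K α μc γ q φ) : ∃ C : ℝ, 0 < C ∧ ∀ n : ℕ, 1 ≤ n →
    kg K γ φ n ≤ C * (n : ℝ) ^ (-((1 + α) * γ)) := by
  obtain ⟨c1, c2, hc1, hc2, hb⟩ := K_bounds hP.hK
  refine ⟨c2 ^ γ * 2, by positivity, ?_⟩
  intro n hn
  have hn0 : (0:ℝ) < n := by exact_mod_cast hn
  have h0 := K_nonneg hP.hK n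
  have h1 : (K n / 2) ^ γ ≤ c2 ^ γ * (n : ℝ) ^ (-((1 + α) * γ)) := by
    calc (K n / 2) ^ γ ≤ (c2 * (n : ℝ) ^ (-(1 + α))) ^ γ := by
          apply Real.rpow_le_rpow (by positivity) _ hP.γ0.le
          have := (hb n hn).2
          linarith
      _ = c2 ^ γ * (n : ℝ) ^ (-((1 + α) * γ)) := by
          rw [Real.mul_rpow hc2.le (by positivity), ← Real.rpow_mul hn0.le]
          congr 2; ring
  have h2 : 1 + φ ^ n ≤ 2 := by
    have := pow_le_one₀ (n := n) hP.φ0 hP.φ1.le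
    linarith
  unfold kg
  calc (K n / 2) ^ γ * (1 + φ ^ n) ≤ (c2 ^ γ * (n : ℝ) ^ (-((1 + α) * γ))) * 2 := by
        apply mul_le_mul h1 h2 (by have := hP.φ0; positivity) (by positivity)
    _ = _ := by ring

/-- fractional moment of the partition function -/
noncomputable def zm (ρ : Measure (ℕ × Bool)) [IsProbabilityMeasure ρ] (μc : Measure ℝ)
    [IsProbabilityMeasure μc] (γ : ℝ) (N : ℕ) : ℝ≥0∞ := ∫⁻ c, Zf ρ N c ^ γ ∂seqLaw μc

variable [IsProbabilityMeasure μc]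

lemma lintegral_A (γ : ℝ) (h0 : 0 < γ) (h1 : γ ≤ 1) (B : ℝ≥0∞) (N : ℕ) :
    ∫⁻ c, (B * (2⁻¹ * (1 + En N c))) ^ γ ∂seqLaw μc ≤ B ^ γ * (1 + phi μc γ ^ N) := by
  calc ∫⁻ c, (B * (2⁻¹ * (1 + En N c))) ^ γ ∂seqLaw μc
      ≤ ∫⁻ c, B ^ γ * (1 + En N c ^ γ) ∂seqLaw μc := by
        apply lintegral_mono
        intro c
        dsimp only
        rw [ENNReal.mul_rpow_of_nonneg _ _ h0.le, ENNReal.mul_rpow_of_nonneg _ _ h0.le]
        gcongr
        calc (2⁻¹ : ℝ≥0∞) ^ γ * (1 + En N c) ^ γ ≤ 1 * (1 ^ γ + En N c ^ γ) := by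
              gcongr
              · apply ENNReal.rpow_le_one _ h0.le
                rw [ENNReal.inv_le_one]; exact one_le_two
              · exact ENNReal.rpow_add_le_add_rpow _ _ h0.le h1
          _ = _ := by rw [ENNReal.one_rpow, one_mul]
    _ = B ^ γ * (1 + phi μc γ ^ N) := by
        have hmeas : Measurable fun c => 1 + En N c ^ γ :=
          measurable_const.add ((measurable_En N).pow_const γ)
        rw [lintegral_const_mul _ hmeas, lintegral_add_left measurable_const, lintegral_En_rpow]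
        simp

lemma zm_step (hP : Par K α μc γ q φ) (hρ : IsStep ρ fun n => ENNReal.ofReal (K n)) (N : ℕ)
    (hN : 1 ≤ N) :
    zm ρ μc γ N ≤ kb (fun n => ENNReal.ofReal (K n)) N ^ γ * (1 + phi μc γ ^ N) +
      ∑ n ∈ Finset.Ico 1 N, ENNReal.ofReal (kg K γ φ n) * zm ρ μc γ (N - n) := by
  have hk0 : ENNReal.ofReal (K 0) = 0 := by rw [hP.hK.zero, ENNReal.ofReal_zero]
  have h := moment_step μc γ hP.γ0 hP.γ1 (Zf ρ N)
    (fun c => kb (fun n => ENNReal.ofReal (K n)) N * (2⁻¹ * (1 + En N c))) (Finset.Ico 1 N)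
    (fun n => ENNReal.ofReal (K n) * 2⁻¹) (fun n => Zf ρ (N - n))
    (((measurable_const.add (measurable_En N)).const_mul _).const_mul _)
    (fun n => measurable_Zf _) (fun c => (Zf_step hρ hk0 N hN c).le)
  refine h.trans ?_
  gcongr with n _
  · exact lintegral_A γ hP.γ0 hP.γ1 _ N
  · exact (kg_eq hP n).le
  · exact le_rfl

lemma kb_ne_top (hP : Par K α μc γ q φ) (N : ℕ) (hN : 1 ≤ N) :
    kb (fun n => ENNReal.ofReal (K n)) N ≠ ∞ := by
  obtain ⟨c3, c4, hc3, hc4, h⟩ := kb_bounds hP.hK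
  exact ne_top_of_le_ne_top ENNReal.ofReal_ne_top (h N hN).2

lemma zm_ne_top (hP : Par K α μc γ q φ) (hρ : IsStep ρ fun n => ENNReal.ofReal (K n)) (N : ℕ) :
    zm ρ μc γ N ≠ ∞ := by
  induction N using Nat.strong_induction_on with
  | _ N ih =>
    rcases Nat.eq_zero_or_pos N with h | h
    · rw [h]; unfold zm; simp [Zf_zero]
    · refine ne_top_of_le_ne_top ?_ (zm_step hP hρ N h)
      have h1 := kb_ne_top hP N h
      have h2 : kb (fun n => ENNReal.ofReal (K n)) N ^ γ ≠ ∞ := ENNReal.rpow_ne_top_of_nonneg hP.γ0.le h1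
      have h3 : phi μc γ ≠ ∞ := by rw [hP.hφ]; exact ENNReal.ofReal_ne_top
      apply ENNReal.add_ne_top.2
      constructor
      · exact ENNReal.mul_ne_top h2 (ENNReal.add_ne_top.2 ⟨ENNReal.one_ne_top, ENNReal.pow_ne_top h3⟩)
      · rw [ENNReal.sum_ne_top]
        intro n hn
        rw [Finset.mem_Ico] at hn
        exact ENNReal.mul_ne_top ENNReal.ofReal_ne_top (ih (N - n) (by omega))

/-- bound of the inhomogeneous term -/
lemma inhom_le (hP : Par K α μc γ q φ) : ∃ A : ℝ, 0 < A ∧ ∀ N : ℕ, 1 ≤ N →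
    (kb (fun n => ENNReal.ofReal (K n)) N ^ γ * (1 + phi μc γ ^ N)).toReal ≤
      A * (N : ℝ) ^ (-(α * γ)) := by
  obtain ⟨c3, c4, hc3, hc4, h⟩ := kb_bounds hP.hK
  refine ⟨c4 ^ γ * 2, by positivity, ?_⟩
  intro N hN
  have hN0 : (0:ℝ) < N := by exact_mod_cast hN
  have h1 : kb (fun n => ENNReal.ofReal (K n)) N ^ γ ≤
      ENNReal.ofReal (c4 ^ γ * (N : ℝ) ^ (-(α * γ))) := by
    refine (ENNReal.rpow_le_rpow (h N hN).2 hP.γ0.le).trans (le_of_eq ?_)
    rw [ENNReal.ofReal_rpow_of_nonneg (by positivity) hP.γ0.le]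
    congr 1
    rw [Real.mul_rpow hc4.le (by positivity), ← Real.rpow_mul hN0.le]
    congr 2; ring
  have h2 : 1 + phi μc γ ^ N ≤ 2 := by
    rw [← one_add_one_eq_two]
    gcongr
    rw [hP.hφ]
    apply pow_le_one₀ zero_le
    rw [ENNReal.ofReal_le_one]; exact hP.φ1.le
  apply ENNReal.toReal_le_of_le_ofReal (by positivity)
  calc kb (fun n => ENNReal.ofReal (K n)) N ^ γ * (1 + phi μc γ ^ N)
      ≤ ENNReal.ofReal (c4 ^ γ * (N : ℝ) ^ (-(α * γ))) * 2 := by gcongr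
    _ = _ := by
        rw [show (2 : ℝ≥0∞) = ENNReal.ofReal 2 by simp, ← ENNReal.ofReal_mul (by positivity)]
        congr 1; ring

lemma zm_step_real (hP : Par K α μc γ q φ) (hρ : IsStep ρ fun n => ENNReal.ofReal (K n)) (N : ℕ)
    (hN : 1 ≤ N) :
    (zm ρ μc γ N).toReal ≤
      (kb (fun n => ENNReal.ofReal (K n)) N ^ γ * (1 + phi μc γ ^ N)).toReal +
      ∑ n ∈ Finset.Ico 1 N, kg K γ φ n * (zm ρ μc γ (N - n)).toReal := by
  have h := zm_step hP hρ N hN
  have h1 := kb_ne_top hP N hN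
  have h2 : kb (fun n => ENNReal.ofReal (K n)) N ^ γ ≠ ∞ := ENNReal.rpow_ne_top_of_nonneg hP.γ0.le h1
  have h3 : phi μc γ ≠ ∞ := by rw [hP.hφ]; exact ENNReal.ofReal_ne_top
  have h4 : kb (fun n => ENNReal.ofReal (K n)) N ^ γ * (1 + phi μc γ ^ N) ≠ ∞ :=
    ENNReal.mul_ne_top h2 (ENNReal.add_ne_top.2 ⟨ENNReal.one_ne_top, ENNReal.pow_ne_top h3⟩)
  have h5 : ∀ n ∈ Finset.Ico 1 N, ENNReal.ofReal (kg K γ φ n) * zm ρ μc γ (N - n) ≠ ∞ :=
    fun n _ => ENNReal.mul_ne_top ENNReal.ofReal_ne_top (zm_ne_top hP hρ _)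
  have h6 := ENNReal.toReal_mono (ENNReal.add_ne_top.2 ⟨h4, ENNReal.sum_ne_top.2 h5⟩) h
  rw [ENNReal.toReal_add h4 (ENNReal.sum_ne_top.2 h5), ENNReal.toReal_sum h5] at h6
  refine h6.trans (le_of_eq ?_)
  congr 1
  refine Finset.sum_congr rfl fun n _ => ?_
  rw [ENNReal.toReal_mul, ENNReal.toReal_ofReal (kg_nonneg hP n)]

theorem zm_bound (hP : Par K α μc γ q φ) (hρ : IsStep ρ fun n => ENNReal.ofReal (K n)) :
    ∃ C : ℝ, 0 < C ∧ ∀ N : ℕ, 1 ≤ N → (zm ρ μc γ N).toReal ≤ C * (N : ℝ) ^ (-(α * γ)) := by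
  obtain ⟨C, hC, hkC⟩ := kg_le hP
  obtain ⟨A, hA, haA⟩ := inhom_le hP
  have hα := hP.hK.α_pos
  have hγ := hP.γ0
  obtain ⟨D, hD, hmain⟩ := renewal_bound C ((1 + α) * γ) (α * γ) q hC.le hP.hb (by positivity)
    (by nlinarith) hP.q1
  refine ⟨D * A + 1, by positivity, ?_⟩
  intro N hN
  have h := hmain (kg K γ φ)
    (fun N => (kb (fun n => ENNReal.ofReal (K n)) N ^ γ * (1 + phi μc γ ^ N)).toReal)
    (fun N => (zm ρ μc γ N).toReal) A N (kg_nonneg hP) (fun _ => ENNReal.toReal_nonneg)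
    (fun _ => ENNReal.toReal_nonneg) hA.le hkC hP.hq (fun N h _ => haA N h)
    (fun N h _ => zm_step_real hP hρ N h) N hN le_rfl
  refine h.trans ?_
  have : 0 ≤ (N : ℝ) ^ (-(α * γ)) := Real.rpow_nonneg (Nat.cast_nonneg _) _
  nlinarith

/-- fractional moment of the restricted partition function -/
noncomputable def wm (ρ : Measure (ℕ × Bool)) [IsProbabilityMeasure ρ] (μc : Measure ℝ)
    [IsProbabilityMeasure μc] (γ : ℝ) (N m : ℕ) : ℝ≥0∞ := ∫⁻ c, Wf ρ N m c ^ γ ∂seqLaw μc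

lemma wm_ne_top (hP : Par K α μc γ q φ) (hρ : IsStep ρ fun n => ENNReal.ofReal (K n)) (N m : ℕ) :
    wm ρ μc γ N m ≠ ∞ := by
  refine ne_top_of_le_ne_top (zm_ne_top hP hρ N) ?_
  apply lintegral_mono
  intro c
  exact ENNReal.rpow_le_rpow (Wf_le N m c) hP.γ0.le

lemma wm_step (hP : Par K α μc γ q φ) (hρ : IsStep ρ fun n => ENNReal.ofReal (K n)) (N m : ℕ)
    (hN : 1 ≤ N) :
    wm ρ μc γ N m ≤ kb (fun n => ENNReal.ofReal (K n)) N ^ γ * phi μc γ ^ N +
      ∑ n ∈ Finset.Ico 1 N, ENNReal.ofReal (kg K γ φ n) *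
        (if n ≤ m then wm ρ μc γ (N - n) (m - n) else zm ρ μc γ (N - n)) := by
  have hk0 : ENNReal.ofReal (K 0) = 0 := by rw [hP.hK.zero, ENNReal.ofReal_zero]
  have h := moment_step μc γ hP.γ0 hP.γ1 (Wf ρ N m)
    (fun c => kb (fun n => ENNReal.ofReal (K n)) N * (2⁻¹ * En N c)) (Finset.Ico 1 N)
    (fun n => ENNReal.ofReal (K n) * 2⁻¹)
    (fun n => if n ≤ m then Wf ρ (N - n) (m - n) else Zf ρ (N - n))
    (((measurable_En N).const_mul _).const_mul _)
    (fun n => by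
      by_cases h : n ≤ m
      · simp only [if_pos h]; exact measurable_Wf _ _
      · simp only [if_neg h]; exact measurable_Zf _)
    (fun c => by
      refine (Wf_step hρ hk0 N m hN c).trans (le_of_eq ?_)
      congr 1
      refine Finset.sum_congr rfl fun n _ => ?_
      by_cases h : n ≤ m
      · simp only [if_pos h]
      · simp only [if_neg h])
  refine h.trans ?_
  gcongr with n _
  · calc ∫⁻ c, (kb (fun n => ENNReal.ofReal (K n)) N * (2⁻¹ * En N c)) ^ γ ∂seqLaw μc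
        ≤ ∫⁻ c, kb (fun n => ENNReal.ofReal (K n)) N ^ γ * En N c ^ γ ∂seqLaw μc := by
          apply lintegral_mono
          intro c
          dsimp only
          rw [ENNReal.mul_rpow_of_nonneg _ _ hP.γ0.le, ENNReal.mul_rpow_of_nonneg _ _ hP.γ0.le]
          gcongr
          calc (2⁻¹ : ℝ≥0∞) ^ γ * En N c ^ γ ≤ 1 * En N c ^ γ := by
                gcongr
                apply ENNReal.rpow_le_one _ hP.γ0.le
                rw [ENNReal.inv_le_one]; exact one_le_two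
            _ = _ := one_mul _
      _ = _ := by
          rw [lintegral_const_mul _ ((measurable_En N).pow_const γ), lintegral_En_rpow]
  · exact (kg_eq hP n).le
  · by_cases h : n ≤ m
    · simp only [if_pos h]
      exact le_rfl
    · simp only [if_neg h]
      exact le_rfl

lemma wm_step_real (hP : Par K α μc γ q φ) (hρ : IsStep ρ fun n => ENNReal.ofReal (K n)) (N m : ℕ)
    (hN : 1 ≤ N) :
    (wm ρ μc γ N m).toReal ≤
      (kb (fun n => ENNReal.ofReal (K n)) N ^ γ * phi μc γ ^ N).toReal +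
      ∑ n ∈ Finset.Ico 1 N, kg K γ φ n *
        (if n ≤ m then (wm ρ μc γ (N - n) (m - n)).toReal else (zm ρ μc γ (N - n)).toReal) := by
  have h := wm_step hP hρ N m hN
  have h1 := kb_ne_top hP N hN
  have h2 : kb (fun n => ENNReal.ofReal (K n)) N ^ γ ≠ ∞ := ENNReal.rpow_ne_top_of_nonneg hP.γ0.le h1
  have h3 : phi μc γ ≠ ∞ := by rw [hP.hφ]; exact ENNReal.ofReal_ne_top
  have h4 : kb (fun n => ENNReal.ofReal (K n)) N ^ γ * phi μc γ ^ N ≠ ∞ :=
    ENNReal.mul_ne_top h2 (ENNReal.pow_ne_top h3)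
  have h5 : ∀ n ∈ Finset.Ico 1 N, ENNReal.ofReal (kg K γ φ n) *
      (if n ≤ m then wm ρ μc γ (N - n) (m - n) else zm ρ μc γ (N - n)) ≠ ∞ := by
    intro n _
    apply ENNReal.mul_ne_top ENNReal.ofReal_ne_top
    by_cases h : n ≤ m
    · rw [if_pos h]; exact wm_ne_top hP hρ _ _
    · rw [if_neg h]; exact zm_ne_top hP hρ _
  have h6 := ENNReal.toReal_mono (ENNReal.add_ne_top.2 ⟨h4, ENNReal.sum_ne_top.2 h5⟩) h
  rw [ENNReal.toReal_add h4 (ENNReal.sum_ne_top.2 h5), ENNReal.toReal_sum h5] at h6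
  refine h6.trans (le_of_eq ?_)
  congr 1
  refine Finset.sum_congr rfl fun n _ => ?_
  rw [ENNReal.toReal_mul, ENNReal.toReal_ofReal (kg_nonneg hP n)]
  congr 1
  by_cases h : n ≤ m
  · rw [if_pos h, if_pos h]
  · rw [if_neg h, if_neg h]

/-- `n^γ φ^n` is bounded -/
lemma pow_bound (γ φ : ℝ) (h0 : 0 ≤ φ) (h1 : φ < 1) :
    ∃ B : ℝ, 0 < B ∧ ∀ n : ℕ, 1 ≤ n → φ ^ n ≤ B * (n : ℝ) ^ (-γ) := by
  have hlim : Tendsto (fun n : ℕ => (n : ℝ) ^ γ * φ ^ n) atTop (𝓝 0) := by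
    obtain ⟨k, hk⟩ := exists_nat_ge γ
    have h2 := tendsto_pow_const_mul_const_pow_of_lt_one k h0 h1
    refine squeeze_zero' (Eventually.of_forall fun n => by positivity) ?_ h2
    filter_upwards [eventually_ge_atTop 1] with n hn
    gcongr
    rw [← Real.rpow_natCast]
    exact Real.rpow_le_rpow_of_exponent_le (by exact_mod_cast hn) hk
  obtain ⟨B, hB⟩ := hlim.bddAbove_range
  refine ⟨max B 1, lt_of_lt_of_le one_pos (le_max_right _ _), fun n hn => ?_⟩
  have hn0 : (0:ℝ) < n := by exact_mod_cast hn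
  have h3 : (n : ℝ) ^ γ * φ ^ n ≤ max B 1 := (hB ⟨n, rfl⟩).trans (le_max_left _ _)
  rw [Real.rpow_neg hn0.le, ← div_eq_mul_inv, le_div_iff₀ (Real.rpow_pos_of_pos hn0 _)]
  linarith

theorem wm_bound (hP : Par K α μc γ q φ) (hρ : IsStep ρ fun n => ENNReal.ofReal (K n)) :
    ∃ C : ℝ, 0 < C ∧ ∀ N m : ℕ, m < N → (wm ρ μc γ N m).toReal ≤
      C * (∑ j ∈ Finset.Icc 1 N, (j : ℝ) ^ (-(α * γ))) * ((m : ℝ) + 1) ^ (-((1 + α) * γ)) := by
  obtain ⟨C, hC, hkC⟩ := kg_le hP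
  obtain ⟨Cz, hCz, hz⟩ := zm_bound hP hρ
  obtain ⟨c3, c4, hc3, hc4, hkb⟩ := kb_bounds hP.hK
  obtain ⟨B, hB, hBφ⟩ := pow_bound γ φ hP.φ0 hP.φ1
  have hα := hP.hK.α_pos
  have hγ := hP.γ0
  set b : ℝ := (1 + α) * γ with hb
  have hb0 : 0 < b := by rw [hb]; positivity
  obtain ⟨D, hD, hmain⟩ := renewal_bound C b b q hC.le hP.hb hb0.le le_rfl hP.q1
  set S : ℕ → ℝ := fun N => ∑ j ∈ Finset.Icc 1 N, (j : ℝ) ^ (-(α * γ)) with hS
  have hSmono : Monotone S := by
    intro N N' h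
    exact Finset.sum_le_sum_of_subset_of_nonneg (Finset.Icc_subset_Icc_right h)
      fun j _ _ => Real.rpow_nonneg (Nat.cast_nonneg _) _
  have hS1 : ∀ N, 1 ≤ N → 1 ≤ S N := by
    intro N hN
    have : S 1 ≤ S N := hSmono hN
    simpa [hS] using this
  refine ⟨D * (c4 ^ γ * B + C * Cz) + 1, by positivity, ?_⟩
  intro N m hmN
  -- the auxiliary sequences, for a fixed difference
  set r : ℕ := N - m with hr
  set y : ℕ → ℝ := fun M => (wm ρ μc γ (M - 1 + r) (M - 1)).toReal with hy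
  set a : ℕ → ℝ := fun M => (kb (fun n => ENNReal.ofReal (K n)) (M - 1 + r) ^ γ *
    phi μc γ ^ (M - 1 + r)).toReal +
    ∑ n ∈ Finset.Ico M (M - 1 + r), kg K γ φ n * (zm ρ μc γ (M - 1 + r - n)).toReal with ha
  have hr1 : 1 ≤ r := by omega
  have haA : ∀ M, 1 ≤ M → M ≤ m + 1 → a M ≤ (c4 ^ γ * B + C * Cz) * S N * (M : ℝ) ^ (-b) := by
    intro M hM hMm
    have hM0 : (0:ℝ) < M := by exact_mod_cast hM
    set N' := M - 1 + r with hN'
    have hN'N : N' ≤ N := by omega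
    have hN'1 : 1 ≤ N' := by omega
    have hN'M : M ≤ N' := by omega
    have hN'0 : (0:ℝ) < N' := by exact_mod_cast hN'1
    have hMN'r : (M : ℝ) ≤ N' := by exact_mod_cast hN'M
    have hMb : 0 < (M : ℝ) ^ (-b) := Real.rpow_pos_of_pos hM0 _
    have hSN := hS1 N (by omega)
    have e1 : (kb (fun n => ENNReal.ofReal (K n)) N' ^ γ * phi μc γ ^ N').toReal ≤
        c4 ^ γ * B * (M : ℝ) ^ (-b) := by
      apply ENNReal.toReal_le_of_le_ofReal (by positivity)
      calc kb (fun n => ENNReal.ofReal (K n)) N' ^ γ * phi μc γ ^ N'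
          ≤ ENNReal.ofReal (c4 ^ γ * (N' : ℝ) ^ (-(α * γ))) * ENNReal.ofReal (B * (N' : ℝ) ^ (-γ)) := by
            gcongr
            · refine (ENNReal.rpow_le_rpow (hkb N' hN'1).2 hγ.le).trans (le_of_eq ?_)
              rw [ENNReal.ofReal_rpow_of_nonneg (by positivity) hγ.le]
              congr 1
              rw [Real.mul_rpow hc4.le (by positivity), ← Real.rpow_mul hN'0.le]
              congr 2; ring
            · rw [hP.hφ, ← ENNReal.ofReal_pow hP.φ0]
              exact ENNReal.ofReal_le_ofReal (hBφ N' hN'1)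
        _ = ENNReal.ofReal (c4 ^ γ * B * (N' : ℝ) ^ (-b)) := by
            rw [← ENNReal.ofReal_mul (by positivity)]
            congr 1
            have : (N' : ℝ) ^ (-b) = (N' : ℝ) ^ (-(α * γ)) * (N' : ℝ) ^ (-γ) := by
              rw [← Real.rpow_add hN'0]; congr 1; rw [hb]; ring
            rw [this]; ring
        _ ≤ _ := by
            apply ENNReal.ofReal_le_ofReal
            apply mul_le_mul_of_nonneg_left _ (by positivity)
            exact Real.rpow_le_rpow_of_nonpos hM0 hMN'r (by linarith)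
    have e2 : ∑ n ∈ Finset.Ico M N', kg K γ φ n * (zm ρ μc γ (N' - n)).toReal ≤
        C * (M : ℝ) ^ (-b) * (Cz * S N) := by
      calc ∑ n ∈ Finset.Ico M N', kg K γ φ n * (zm ρ μc γ (N' - n)).toReal
          ≤ ∑ n ∈ Finset.Ico M N', C * (M : ℝ) ^ (-b) * (Cz * ((N' - n : ℕ) : ℝ) ^ (-(α * γ))) := by
            refine Finset.sum_le_sum fun n hn => ?_
            rw [Finset.mem_Ico] at hn
            have h1 : kg K γ φ n ≤ C * (M : ℝ) ^ (-b) := by
              refine (hkC n (by omega)).trans (mul_le_mul_of_nonneg_left ?_ hC.le)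
              exact Real.rpow_le_rpow_of_nonpos hM0 (by exact_mod_cast hn.1) (by linarith)
            exact mul_le_mul h1 (hz _ (by omega)) ENNReal.toReal_nonneg (by positivity)
        _ = C * (M : ℝ) ^ (-b) * (Cz * ∑ n ∈ Finset.Ico M N', ((N' - n : ℕ) : ℝ) ^ (-(α * γ))) := by
            rw [Finset.mul_sum, Finset.mul_sum]
        _ ≤ _ := by
            apply mul_le_mul_of_nonneg_left _ (by positivity)
            apply mul_le_mul_of_nonneg_left _ hCz.le
            have h4 : ∑ n ∈ Finset.Ico M N', ((N' - n : ℕ) : ℝ) ^ (-(α * γ)) =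
                ∑ j ∈ (Finset.Ico M N').image (N' - ·), (j : ℝ) ^ (-(α * γ)) := by
              rw [Finset.sum_image]
              intro x hx y hy hxy
              simp only [Finset.coe_Ico, Set.mem_Ico] at hx hy
              dsimp only at hxy
              omega
            rw [h4]
            apply Finset.sum_le_sum_of_subset_of_nonneg
            · intro j hj
              rw [Finset.mem_image] at hj
              obtain ⟨x, hx, rfl⟩ := hj
              rw [Finset.mem_Ico] at hx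
              rw [Finset.mem_Icc]; omega
            · intro j _ _; exact Real.rpow_nonneg (Nat.cast_nonneg _) _
    have e3 : c4 ^ γ * B * (M : ℝ) ^ (-b) ≤ c4 ^ γ * B * (M : ℝ) ^ (-b) * S N :=
      le_mul_of_one_le_right (by positivity) hSN
    calc a M ≤ c4 ^ γ * B * (M : ℝ) ^ (-b) + C * (M : ℝ) ^ (-b) * (Cz * S N) := add_le_add e1 e2
      _ ≤ _ := by nlinarith
  have hrec : ∀ M, 1 ≤ M → M ≤ m + 1 → y M ≤ a M + ∑ n ∈ Finset.Ico 1 M, kg K γ φ n * y (M - n) := by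
    intro M hM _
    have h1 := wm_step_real hP hρ (M - 1 + r) (M - 1) (by omega)
    refine h1.trans (le_of_eq ?_)
    simp only [ha, hy]
    rw [add_assoc]
    congr 1
    have h2 : Finset.Ico 1 (M - 1 + r) = Finset.Ico 1 M ∪ Finset.Ico M (M - 1 + r) := by
      rw [Finset.Ico_union_Ico_eq_Ico hM (by omega)]
    have h3 : Disjoint (Finset.Ico 1 M) (Finset.Ico M (M - 1 + r)) :=
      Finset.Ico_disjoint_Ico_consecutive 1 M (M - 1 + r)
    rw [h2, Finset.sum_union h3, add_comm]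
    congr 1
    · refine Finset.sum_congr rfl fun n hn => ?_
      rw [Finset.mem_Ico] at hn
      rw [if_neg (by omega)]
    · refine Finset.sum_congr rfl fun n hn => ?_
      rw [Finset.mem_Ico] at hn
      rw [if_pos (by omega)]
      have e1 : M - 1 + r - n = M - n - 1 + r := by omega
      have e2 : M - 1 - n = M - n - 1 := by omega
      rw [e1, e2]
  have ha0 : ∀ M, 0 ≤ a M := fun M => add_nonneg ENNReal.toReal_nonneg
    (Finset.sum_nonneg fun n _ => mul_nonneg (kg_nonneg hP n) ENNReal.toReal_nonneg)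
  have hSN := hS1 N (by omega)
  have h := hmain (kg K γ φ) a y ((c4 ^ γ * B + C * Cz) * S N) (m + 1) (kg_nonneg hP) ha0
    (fun _ => ENNReal.toReal_nonneg) (by positivity) hkC hP.hq haA hrec (m + 1) (by omega) le_rfl
  have e1 : y (m + 1) = (wm ρ μc γ N m).toReal := by
    simp only [hy]
    congr 2
    omega
  rw [e1] at h
  refine h.trans ?_
  push_cast
  have h5 : 0 ≤ ((m : ℝ) + 1) ^ (-b) := Real.rpow_nonneg (by positivity) _
  have h6 : D * ((c4 ^ γ * B + C * Cz) * S N) ≤ (D * (c4 ^ γ * B + C * Cz) + 1) * S N := by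
    nlinarith
  exact mul_le_mul_of_nonneg_right h6 h5

end moments

end Pool.Agent.H.MP_9ba241_pr
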