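import Pool.Agent.H.MP_9ba241_pr.Defs

open MeasureTheory ProbabilityTheory Filter Topology
open scoped ENNReal NNReal

namespace Pool.Agent.H.MP_9ba241_pr

/-- partial sums of `m^{-p}` compared with `N^{b-p}` -/
lemma sum_rpow_le (b p : ℝ) (hb : 1 < b) (hp : p ≤ b) (N : ℕ) :
    ∑ m ∈ Finset.Icc 1 N, (m : ℝ) ^ (-p) ≤ (N : ℝ) ^ (b - p) * ∑' m : ℕ, (m : ℝ) ^ (-b) := by
  have hs : Summable fun m : ℕ => (m : ℝ) ^ (-b) := Real.summable_nat_rpow.2 (by linarith)
  calc ∑ m ∈ Finset.Icc 1 N, (m : ℝ) ^ (-p)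
      ≤ ∑ m ∈ Finset.Icc 1 N, (N : ℝ) ^ (b - p) * (m : ℝ) ^ (-b) := by
        refine Finset.sum_le_sum fun m hm => ?_
        rw [Finset.mem_Icc] at hm
        have hm0 : (0:ℝ) < m := by exact_mod_cast hm.1
        have hmN : (m:ℝ) ≤ N := by exact_mod_cast hm.2
        have h1 : (m : ℝ) ^ (-p) = (m : ℝ) ^ (b - p) * (m : ℝ) ^ (-b) := by
          rw [← Real.rpow_add hm0]; congr 1; ring
        rw [h1]
        exact mul_le_mul_of_nonneg_right (Real.rpow_le_rpow hm0.le hmN (by linarith))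
          (Real.rpow_nonneg hm0.le _)
    _ = (N : ℝ) ^ (b - p) * ∑ m ∈ Finset.Icc 1 N, (m : ℝ) ^ (-b) := by rw [Finset.mul_sum]
    _ ≤ _ := by
        apply mul_le_mul_of_nonneg_left _ (Real.rpow_nonneg (Nat.cast_nonneg _) _)
        exact hs.sum_le_tsum _ fun m _ => Real.rpow_nonneg (Nat.cast_nonneg _) _

/-- summing a defective renewal inequality -/
lemma sum_renewal_le (k a z : ℕ → ℝ) (hk : ∀ n, 0 ≤ k n) (ha : ∀ n, 0 ≤ a n) (hz : ∀ n, 0 ≤ z n)
    (q : ℝ) (hq1 : q < 1) (hkq : ∀ s : Finset ℕ, ∑ n ∈ s, k n ≤ q) (L : ℕ)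
    (hrec : ∀ N, 1 ≤ N → N ≤ L → z N ≤ a N + ∑ n ∈ Finset.Ico 1 N, k n * z (N - n)) :
    ∀ N ≤ L, ∑ m ∈ Finset.Icc 1 N, z m ≤ (∑ m ∈ Finset.Icc 1 N, a m) / (1 - q) := by
  have hq0 : 0 ≤ q := by simpa using hkq ∅
  intro N
  induction N with
  | zero => intro _; simp
  | succ N ih =>
    intro hNL
    have ih := ih (by omega)
    have h1 : ∑ m ∈ Finset.Icc 1 (N + 1), z m ≤ ∑ m ∈ Finset.Icc 1 (N + 1), a m +
        ∑ m ∈ Finset.Icc 1 (N + 1), ∑ n ∈ Finset.Ico 1 m, k n * z (m - n) := by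
      rw [← Finset.sum_add_distrib]
      refine Finset.sum_le_sum fun m hm => ?_
      rw [Finset.mem_Icc] at hm
      exact hrec m hm.1 (by omega)
    have h2 : ∑ m ∈ Finset.Icc 1 (N + 1), ∑ n ∈ Finset.Ico 1 m, k n * z (m - n) ≤
        ∑ n ∈ Finset.Icc 1 (N + 1), k n * ∑ m ∈ Finset.Icc 1 N, z m := by
      have h3 : ∑ m ∈ Finset.Icc 1 (N + 1), ∑ n ∈ Finset.Ico 1 m, k n * z (m - n) =
          ∑ n ∈ Finset.Icc 1 (N + 1), ∑ m ∈ Finset.Ioc n (N + 1), k n * z (m - n) := by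
        apply Finset.sum_comm'
        intro m n
        simp only [Finset.mem_Icc, Finset.mem_Ico, Finset.mem_Ioc]
        omega
      rw [h3]
      refine Finset.sum_le_sum fun n hn => ?_
      rw [← Finset.mul_sum]
      apply mul_le_mul_of_nonneg_left _ (hk n)
      rw [Finset.mem_Icc] at hn
      have h4 : ∑ m ∈ Finset.Ioc n (N + 1), z (m - n) = ∑ m ∈ (Finset.Ioc n (N + 1)).image (· - n), z m := by
        rw [Finset.sum_image]
        intro x hx y hy hxy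
        simp only [Finset.coe_Ioc, Set.mem_Ioc] at hx hy
        dsimp only at hxy
        omega
      rw [h4]
      apply Finset.sum_le_sum_of_subset_of_nonneg
      · intro m hm
        rw [Finset.mem_image] at hm
        obtain ⟨x, hx, rfl⟩ := hm
        rw [Finset.mem_Ioc] at hx
        rw [Finset.mem_Icc]; omega
      · intro m _ _; exact hz m
    rw [← Finset.sum_mul] at h2
    have h5 : 0 ≤ ∑ m ∈ Finset.Icc 1 N, z m := Finset.sum_nonneg fun m _ => hz m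
    have h6 := mul_le_mul_of_nonneg_right (hkq (Finset.Icc 1 (N + 1))) h5
    have h7 : ∑ m ∈ Finset.Icc 1 N, a m ≤ ∑ m ∈ Finset.Icc 1 (N + 1), a m :=
      Finset.sum_le_sum_of_subset_of_nonneg (Finset.Icc_subset_Icc_right (Nat.le_succ N))
        fun m _ _ => ha m
    have h8 : 0 < 1 - q := by linarith
    rw [le_div_iff₀ h8] at ih ⊢
    have h9 : 0 ≤ ∑ m ∈ Finset.Icc 1 (N + 1), z m := Finset.sum_nonneg fun m _ => hz m
    nlinarith

/-- A defective renewal inequality with polynomial kernel. -/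
theorem renewal_bound (C b p q : ℝ) (hC : 0 ≤ C) (hb : 1 < b) (hp0 : 0 ≤ p) (hp : p ≤ b)
    (hq1 : q < 1) :
    ∃ D : ℝ, 0 ≤ D ∧ ∀ (k a z : ℕ → ℝ) (A : ℝ) (L : ℕ), (∀ n, 0 ≤ k n) → (∀ n, 0 ≤ a n) →
      (∀ n, 0 ≤ z n) → 0 ≤ A →
      (∀ n, 1 ≤ n → k n ≤ C * (n : ℝ) ^ (-b)) → (∀ s : Finset ℕ, ∑ n ∈ s, k n ≤ q) →
      (∀ N, 1 ≤ N → N ≤ L → a N ≤ A * (N : ℝ) ^ (-p)) →
      (∀ N, 1 ≤ N → N ≤ L → z N ≤ a N + ∑ n ∈ Finset.Ico 1 N, k n * z (N - n)) →
      ∀ N, 1 ≤ N → N ≤ L → z N ≤ D * A * (N : ℝ) ^ (-p) := by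
  -- choice of δ
  obtain ⟨δ, hδ0, hδ1, hδ⟩ : ∃ δ : ℝ, 0 < δ ∧ δ < 1 ∧ q * (1 - δ) ^ (-p) ≤ (1 + q) / 2 := by
    have hcont : ContinuousAt (fun δ : ℝ => q * (1 - δ) ^ (-p)) 0 := by
      apply ContinuousAt.mul continuousAt_const
      apply ContinuousAt.rpow_const
      · fun_prop
      · left; norm_num
    have hlt : (fun δ : ℝ => q * (1 - δ) ^ (-p)) 0 < (1 + q) / 2 := by
      simp only [sub_zero, Real.one_rpow, mul_one]; linarith
    have hev := hcont.eventually (gt_mem_nhds hlt)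
    rw [Metric.eventually_nhds_iff] at hev
    obtain ⟨e, he, hev⟩ := hev
    refine ⟨min (e / 2) (1 / 2), by positivity, lt_of_le_of_lt (min_le_right _ _) (by norm_num), ?_⟩
    apply le_of_lt
    apply hev
    rw [dist_zero_right, Real.norm_eq_abs, abs_of_pos (by positivity)]
    exact lt_of_le_of_lt (min_le_left _ _) (by linarith)
  set ζ : ℝ := ∑' m : ℕ, (m : ℝ) ^ (-b) with hζ
  have hζ0 : 0 ≤ ζ := tsum_nonneg fun m => Real.rpow_nonneg (Nat.cast_nonneg _) _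
  have h1q : 0 < 1 - q := by linarith
  set D : ℝ := (1 + C * δ ^ (-b) * ζ / (1 - q)) / (1 - (1 + q) / 2) with hD
  have hD' : (1 + C * δ ^ (-b) * ζ / (1 - q)) = D * (1 - (1 + q) / 2) := by
    rw [hD, div_mul_cancel₀]; linarith
  have hδb : 0 < δ ^ (-b) := Real.rpow_pos_of_pos hδ0 _
  have hD0 : 0 ≤ D := by
    rw [hD]; apply div_nonneg
    · positivity
    · linarith
  refine ⟨D, hD0, ?_⟩
  intro k a z A L hk ha hz hA hkC hkq haA hrec N
  induction N using Nat.strong_induction_on with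
  | _ N ih =>
    intro hN1 hNL
    have hN0 : (0:ℝ) < N := by exact_mod_cast hN1
    have hrecN := hrec N hN1 hNL
    have hsum := sum_renewal_le k a z hk ha hz q hq1 hkq L hrec N hNL
    have hsuma : ∑ m ∈ Finset.Icc 1 N, a m ≤ A * ((N : ℝ) ^ (b - p) * ζ) := by
      calc ∑ m ∈ Finset.Icc 1 N, a m ≤ ∑ m ∈ Finset.Icc 1 N, A * (m : ℝ) ^ (-p) := by
            refine Finset.sum_le_sum fun m hm => ?_
            rw [Finset.mem_Icc] at hm
            exact haA m hm.1 (by omega)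
        _ = A * ∑ m ∈ Finset.Icc 1 N, (m : ℝ) ^ (-p) := by rw [Finset.mul_sum]
        _ ≤ _ := mul_le_mul_of_nonneg_left (sum_rpow_le b p hb hp N) hA
    -- pointwise bound of the summands
    have hterm : ∀ n ∈ Finset.Ico 1 N, k n * z (N - n) ≤
        k n * (D * A * ((1 - δ) * N) ^ (-p)) + C * (δ * N) ^ (-b) * z (N - n) := by
      intro n hn
      rw [Finset.mem_Ico] at hn
      have hn0 : (0:ℝ) < n := by exact_mod_cast hn.1
      rcases le_or_gt (n : ℝ) (δ * N) with h | h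
      · have h1 : z (N - n) ≤ D * A * ((N - n : ℕ) : ℝ) ^ (-p) := ih (N - n) (by omega) (by omega) (by omega)
        have h2 : (1 - δ) * N ≤ ((N - n : ℕ) : ℝ) := by
          rw [Nat.cast_sub hn.2.le]; linarith
        have h3 : ((N - n : ℕ) : ℝ) ^ (-p) ≤ ((1 - δ) * N) ^ (-p) :=
          Real.rpow_le_rpow_of_nonpos (by apply mul_pos <;> linarith) h2 (by linarith)
        have h4 : z (N - n) ≤ D * A * ((1 - δ) * N) ^ (-p) :=
          h1.trans (mul_le_mul_of_nonneg_left h3 (by positivity))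
        have h5 : 0 ≤ C * (δ * N) ^ (-b) * z (N - n) :=
          mul_nonneg (mul_nonneg hC (Real.rpow_nonneg (by positivity) _)) (hz _)
        have h6 := mul_le_mul_of_nonneg_left h4 (hk n)
        linarith
      · have h1 : k n ≤ C * (δ * N) ^ (-b) := by
          refine (hkC n hn.1).trans (mul_le_mul_of_nonneg_left ?_ hC)
          exact Real.rpow_le_rpow_of_nonpos (by positivity) h.le (by linarith)
        have h2 : 0 ≤ k n * (D * A * ((1 - δ) * N) ^ (-p)) := by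
          apply mul_nonneg (hk n)
          apply mul_nonneg (by positivity)
          apply Real.rpow_nonneg
          apply mul_nonneg <;> linarith
        have h3 := mul_le_mul_of_nonneg_right h1 (hz (N - n))
        linarith
    have hS1 : ∑ n ∈ Finset.Ico 1 N, k n * (D * A * ((1 - δ) * N) ^ (-p)) ≤
        (1 + q) / 2 * (D * A * (N : ℝ) ^ (-p)) := by
      rw [← Finset.sum_mul]
      have h1 : ((1 - δ) * (N:ℝ)) ^ (-p) = (1 - δ) ^ (-p) * (N : ℝ) ^ (-p) :=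
        Real.mul_rpow (by linarith) hN0.le
      rw [h1]
      have h2 : 0 ≤ (1 - δ) ^ (-p) := Real.rpow_nonneg (by linarith) _
      have h3 : 0 ≤ (N : ℝ) ^ (-p) := Real.rpow_nonneg hN0.le _
      calc (∑ n ∈ Finset.Ico 1 N, k n) * (D * A * ((1 - δ) ^ (-p) * (N : ℝ) ^ (-p)))
          ≤ q * (D * A * ((1 - δ) ^ (-p) * (N : ℝ) ^ (-p))) :=
            mul_le_mul_of_nonneg_right (hkq _) (by positivity)
        _ = (q * (1 - δ) ^ (-p)) * (D * A * (N : ℝ) ^ (-p)) := by ring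
        _ ≤ _ := mul_le_mul_of_nonneg_right hδ (by positivity)
    have hS2 : ∑ n ∈ Finset.Ico 1 N, C * (δ * N) ^ (-b) * z (N - n) ≤
        C * δ ^ (-b) * ζ / (1 - q) * (A * (N : ℝ) ^ (-p)) := by
      rw [← Finset.mul_sum]
      have h1 : ∑ n ∈ Finset.Ico 1 N, z (N - n) ≤ ∑ m ∈ Finset.Icc 1 N, z m := by
        have h4 : ∑ n ∈ Finset.Ico 1 N, z (N - n) = ∑ m ∈ (Finset.Ico 1 N).image (N - ·), z m := by
          rw [Finset.sum_image]
          intro x hx y hy hxy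
          simp only [Finset.coe_Ico, Set.mem_Ico] at hx hy
          dsimp only at hxy
          omega
        rw [h4]
        apply Finset.sum_le_sum_of_subset_of_nonneg
        · intro m hm
          rw [Finset.mem_image] at hm
          obtain ⟨x, hx, rfl⟩ := hm
          rw [Finset.mem_Ico] at hx
          rw [Finset.mem_Icc]; omega
        · intro m _ _; exact hz m
      have h2 : ∑ n ∈ Finset.Ico 1 N, z (N - n) ≤ A * ((N : ℝ) ^ (b - p) * ζ) / (1 - q) :=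
        h1.trans (hsum.trans (div_le_div_of_nonneg_right hsuma h1q.le))
      have h3 : (δ * (N:ℝ)) ^ (-b) = δ ^ (-b) * (N : ℝ) ^ (-b) := Real.mul_rpow hδ0.le hN0.le
      have h5 : (N : ℝ) ^ (-b) * (N : ℝ) ^ (b - p) = (N : ℝ) ^ (-p) := by
        rw [← Real.rpow_add hN0]; congr 1; ring
      calc C * (δ * N) ^ (-b) * ∑ n ∈ Finset.Ico 1 N, z (N - n)
          ≤ C * (δ * N) ^ (-b) * (A * ((N : ℝ) ^ (b - p) * ζ) / (1 - q)) :=
            mul_le_mul_of_nonneg_left h2 (mul_nonneg hC (Real.rpow_nonneg (by positivity) _))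
        _ = C * δ ^ (-b) * ζ / (1 - q) * (A * ((N : ℝ) ^ (-b) * (N : ℝ) ^ (b - p))) := by
            rw [h3]; ring
        _ = _ := by rw [h5]
    have hfin := (Finset.sum_le_sum hterm)
    rw [Finset.sum_add_distrib] at hfin
    have ha' := haA N hN1 hNL
    have key : D * A * (N : ℝ) ^ (-p) = (D * (1 - (1 + q) / 2)) * (A * (N : ℝ) ^ (-p)) +
        (1 + q) / 2 * (D * A * (N : ℝ) ^ (-p)) := by ring
    rw [key, ← hD']
    have : (1 + C * δ ^ (-b) * ζ / (1 - q)) * (A * (N : ℝ) ^ (-p)) =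
        A * (N : ℝ) ^ (-p) + C * δ ^ (-b) * ζ / (1 - q) * (A * (N : ℝ) ^ (-p)) := by ring
    rw [this]
    linarith

end Pool.Agent.H.MP_9ba241_pr
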