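import Pool.Agent.H.MP_9ba241_pr.Seq

open MeasureTheory ProbabilityTheory Filter Topology
open scoped ENNReal NNReal

set_option linter.unusedSectionVars false

namespace Pool.Agent.H.MP_9ba241_pr

section split
variable {E : Type*} [MeasurableSpace E] (μ0 : Measure E) [IsProbabilityMeasure μ0]

/-- the law of an i.i.d. sequence -/
noncomputable def seqLaw : Measure (ℕ → E) := Measure.infinitePi fun _ : ℕ => μ0

instance : IsProbabilityMeasure (seqLaw μ0) := by unfold seqLaw; infer_instance

/-- shift of a sequence -/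
def sh (n : ℕ) (x : ℕ → E) : ℕ → E := fun i => x (n + i)

lemma measurable_sh (n : ℕ) : Measurable (sh n : (ℕ → E) → (ℕ → E)) :=
  measurable_pi_lambda _ fun i => measurable_pi_apply (n + i)

lemma map_sh (n : ℕ) : (seqLaw μ0).map (sh n) = seqLaw μ0 :=
  Measure.map_infinitePi_infinitePi_of_inj (P := fun _ : ℕ => μ0) (f := fun i => n + i)
    (fun i j h => by simpa using h)

lemma indep_coord : iIndepFun (fun (i : ℕ) (x : ℕ → E) => x i) (seqLaw μ0) :=
  iIndepFun_infinitePi (P := fun _ => μ0) (X := fun _ e => e) fun _ => measurable_id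

lemma indep_split (n : ℕ) :
    Indep (⨆ i ∈ Set.Iio n, MeasurableSpace.comap (fun x : ℕ → E => x i) inferInstance)
      (⨆ i ∈ Set.Ici n, MeasurableSpace.comap (fun x : ℕ → E => x i) inferInstance)
      (seqLaw μ0) := by
  apply indep_iSup_of_disjoint
  · intro i; exact (measurable_pi_apply i).comap_le
  · exact (iIndepFun_iff_iIndep _ _ _).1 (indep_coord μ0)
  · rw [Set.disjoint_left]
    intro i h1 h2
    have h1' : i < n := h1
    have h2' : n ≤ i := h2
    omega

lemma lintegral_split (n : ℕ) (f g : (ℕ → E) → ℝ≥0∞) (hf : Measurable f) (hg : Measurable g)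
    (hdep : DependsOn f (Set.Iio n)) :
    ∫⁻ x, f x * g (sh n x) ∂seqLaw μ0 = (∫⁻ x, f x ∂seqLaw μ0) * ∫⁻ x, g x ∂seqLaw μ0 := by
  classical
  obtain ⟨e0⟩ : Nonempty E := nonempty_of_isProbabilityMeasure μ0
  set tr : (ℕ → E) → (ℕ → E) := fun x i => if i < n then x i else e0 with htr
  have h1 : f = f ∘ tr := by
    ext x
    apply hdep
    intro i hi
    simp only [htr]
    rw [if_pos (show i < n from hi)]
  have hle1 : (⨆ i ∈ Set.Iio n, MeasurableSpace.comap (fun x : ℕ → E => x i) inferInstance) ≤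
      (inferInstance : MeasurableSpace (ℕ → E)) :=
    iSup₂_le fun i _ => (measurable_pi_apply i).comap_le
  have hle2 : (⨆ i ∈ Set.Ici n, MeasurableSpace.comap (fun x : ℕ → E => x i) inferInstance) ≤
      (inferInstance : MeasurableSpace (ℕ → E)) :=
    iSup₂_le fun i _ => (measurable_pi_apply i).comap_le
  have htrm : Measurable[⨆ i ∈ Set.Iio n,
      MeasurableSpace.comap (fun x : ℕ → E => x i) inferInstance] tr := by
    refine @measurable_pi_lambda _ _ _ (_) _ tr fun i => ?_
    by_cases hi : i < n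
    · simp only [htr, if_pos hi]
      have : Measurable[MeasurableSpace.comap (fun x : ℕ → E => x i) inferInstance]
          (fun x : ℕ → E => x i) := comap_measurable _
      exact this.mono (le_iSup₂_of_le i hi le_rfl) le_rfl
    · simp only [htr, if_neg hi]
      exact measurable_const
  have hshm : Measurable[⨆ i ∈ Set.Ici n,
      MeasurableSpace.comap (fun x : ℕ → E => x i) inferInstance] (sh n : (ℕ → E) → (ℕ → E)) := by
    refine @measurable_pi_lambda _ _ _ (_) _ (sh n) fun i => ?_
    have : Measurable[MeasurableSpace.comap (fun x : ℕ → E => x (n + i)) inferInstance]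
        (fun x : ℕ → E => x (n + i)) := comap_measurable _
    exact this.mono (le_iSup₂_of_le (n + i) (by simp) le_rfl) le_rfl
  have hfm : Measurable[⨆ i ∈ Set.Iio n,
      MeasurableSpace.comap (fun x : ℕ → E => x i) inferInstance] f := by
    rw [h1]; exact hf.comp htrm
  have hgm : Measurable[⨆ i ∈ Set.Ici n,
      MeasurableSpace.comap (fun x : ℕ → E => x i) inferInstance] (fun x => g (sh n x)) :=
    hg.comp hshm
  rw [lintegral_mul_eq_lintegral_mul_lintegral_of_independent_measurableSpace hle1 hle2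
    (indep_split μ0 n) hfm hgm]
  congr 1
  conv_rhs => rw [← map_sh μ0 n]
  rw [lintegral_map hg (measurable_sh n)]

/-- first-step decomposition -/
lemma map_first (μ0 : Measure E) [IsProbabilityMeasure μ0] :
    (seqLaw μ0).map (fun x => (x 0, sh 1 x)) = μ0.prod (seqLaw μ0) := by
  have hm : Measurable fun x : ℕ → E => (x 0, sh 1 x) :=
    (measurable_pi_apply 0).prodMk (measurable_sh 1)
  symm
  apply Measure.prod_eq
  intro s t hs ht
  rw [Measure.map_apply hm (hs.prod ht)]
  have h1 := lintegral_split μ0 1 (fun x => s.indicator 1 (x 0)) (fun x => t.indicator 1 x)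
    ((measurable_one.indicator hs).comp (measurable_pi_apply 0)) (measurable_one.indicator ht)
    (by
      intro x y hxy
      show s.indicator 1 (x 0) = s.indicator 1 (y 0)
      rw [hxy 0 (by simp)])
  have h2 : ∫⁻ x, s.indicator (1 : E → ℝ≥0∞) (x 0) ∂seqLaw μ0 = μ0 s := by
    have := (measurePreserving_eval_infinitePi (fun _ : ℕ => μ0) 0)
    have h3 : ∫⁻ x, s.indicator (1 : E → ℝ≥0∞) (x 0) ∂seqLaw μ0 =
        ∫⁻ e, s.indicator (1 : E → ℝ≥0∞) e ∂((seqLaw μ0).map (fun x => x 0)) := by
      rw [lintegral_map (measurable_one.indicator hs) (measurable_pi_apply 0)]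
    rw [h3]
    have h4 : (seqLaw μ0).map (fun x => x 0) = μ0 := this.map_eq
    rw [h4, lintegral_indicator_one hs]
  rw [h2, lintegral_indicator_one ht] at h1
  rw [← h1]
  have hmset : MeasurableSet ((fun x : ℕ → E => (x 0, sh 1 x)) ⁻¹' (s ×ˢ t)) := hm (hs.prod ht)
  rw [← lintegral_indicator_one hmset]
  congr 1; ext x
  by_cases hx : x 0 ∈ s
  · by_cases hx' : sh 1 x ∈ t
    · simp [Set.indicator, hx, hx']
    · simp [Set.indicator, hx, hx']
  · simp [Set.indicator, hx]

end split

/-! ### moments -/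

section moments
variable (μc : Measure ℝ) [IsProbabilityMeasure μc]

/-- weight of `n` steps in the lower half plane -/
noncomputable def En (n : ℕ) (c : ℕ → ℝ) : ℝ≥0∞ :=
  ENNReal.ofReal (Real.exp (∑ i ∈ Finset.range n, c i))

lemma measurable_En (n : ℕ) : Measurable (En n) := by
  unfold En
  apply ENNReal.measurable_ofReal.comp
  apply Real.measurable_exp.comp
  exact Finset.measurable_sum _ fun i _ => measurable_pi_apply i

lemma En_zero (c : ℕ → ℝ) : En 0 c = 1 := by simp [En]

lemma En_add (n m : ℕ) (c : ℕ → ℝ) : En (n + m) c = En n c * En m (sh n c) := by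
  unfold En sh
  rw [← ENNReal.ofReal_mul (Real.exp_pos _).le, ← Real.exp_add, Finset.sum_range_add]

/-- the fractional moment of one step -/
noncomputable def phi (γ : ℝ) : ℝ≥0∞ := ∫⁻ x, ENNReal.ofReal (Real.exp (γ * x)) ∂μc

lemma En_rpow (n : ℕ) (c : ℕ → ℝ) (γ : ℝ) :
    En n c ^ γ = ENNReal.ofReal (Real.exp (γ * ∑ i ∈ Finset.range n, c i)) := by
  unfold En
  rw [ENNReal.ofReal_rpow_of_pos (Real.exp_pos _), ← Real.exp_mul]
  congr 2; ring

lemma dependsOn_En (n : ℕ) : DependsOn (En n) (Set.Iio n) := by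
  intro c c' h
  unfold En
  rw [Finset.sum_congr rfl fun i hi => h i (Finset.mem_range.1 hi)]

lemma lintegral_En_rpow (γ : ℝ) (n : ℕ) : ∫⁻ c, En n c ^ γ ∂seqLaw μc = phi μc γ ^ n := by
  induction n with
  | zero => simp [En_zero]
  | succ n ih =>
    have h1 : ∀ c, En (n + 1) c ^ γ = En n c ^ γ * (En 1 (sh n c)) ^ γ := by
      intro c
      rw [En_add, ENNReal.mul_rpow_of_ne_top (by unfold En; finiteness) (by unfold En; finiteness)]
    simp_rw [h1]
    rw [lintegral_split μc n (fun c => En n c ^ γ) (fun c => En 1 c ^ γ)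
      ((measurable_En n).pow_const γ) ((measurable_En 1).pow_const γ)
      (fun c c' h => by show En n c ^ γ = En n c' ^ γ; rw [dependsOn_En n h]), ih, pow_succ]
    congr 1
    simp_rw [En_rpow]
    unfold phi
    have h2 : (seqLaw μc).map (fun x => x 0) = μc :=
      (measurePreserving_eval_infinitePi (fun _ : ℕ => μc) 0).map_eq
    conv_rhs => rw [← h2]
    rw [lintegral_map (by fun_prop) (measurable_pi_apply 0)]
    simp

lemma rpow_finset_sum_le {ι : Type*} (s : Finset ι) (f : ι → ℝ≥0∞) (γ : ℝ) (h0 : 0 < γ)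
    (h1 : γ ≤ 1) : (∑ i ∈ s, f i) ^ γ ≤ ∑ i ∈ s, f i ^ γ := by
  classical
  induction s using Finset.induction_on with
  | empty => simp [ENNReal.zero_rpow_of_pos h0]
  | insert a s ha ih =>
    rw [Finset.sum_insert ha, Finset.sum_insert ha]
    exact (ENNReal.rpow_add_le_add_rpow _ _ h0.le h1).trans (by gcongr)

/-- moment version of a first-step inequality -/
lemma moment_step (γ : ℝ) (h0 : 0 < γ) (h1 : γ ≤ 1) (F A : (ℕ → ℝ) → ℝ≥0∞)
    (s : Finset ℕ) (κ : ℕ → ℝ≥0∞) (X : ℕ → (ℕ → ℝ) → ℝ≥0∞)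
    (hA : Measurable A) (hX : ∀ n, Measurable (X n))
    (hF : ∀ c, F c ≤ A c + ∑ n ∈ s, κ n * (1 + En n c) * X n (sh n c)) :
    ∫⁻ c, F c ^ γ ∂seqLaw μc ≤ ∫⁻ c, A c ^ γ ∂seqLaw μc +
      ∑ n ∈ s, κ n ^ γ * (1 + phi μc γ ^ n) * ∫⁻ c, X n c ^ γ ∂seqLaw μc := by
  have hp : ∀ c, F c ^ γ ≤ A c ^ γ + ∑ n ∈ s, κ n ^ γ * ((1 + En n c ^ γ) * X n (sh n c) ^ γ) := by
    intro c
    calc F c ^ γ ≤ (A c + ∑ n ∈ s, κ n * (1 + En n c) * X n (sh n c)) ^ γ :=
          ENNReal.rpow_le_rpow (hF c) h0.le
      _ ≤ A c ^ γ + (∑ n ∈ s, κ n * (1 + En n c) * X n (sh n c)) ^ γ :=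
          ENNReal.rpow_add_le_add_rpow _ _ h0.le h1
      _ ≤ A c ^ γ + ∑ n ∈ s, (κ n * (1 + En n c) * X n (sh n c)) ^ γ := by
          gcongr; exact rpow_finset_sum_le _ _ _ h0 h1
      _ ≤ _ := by
          gcongr with n _
          rw [ENNReal.mul_rpow_of_nonneg _ _ h0.le, ENNReal.mul_rpow_of_nonneg _ _ h0.le, mul_assoc]
          gcongr
          refine (ENNReal.rpow_add_le_add_rpow _ _ h0.le h1).trans ?_
          rw [ENNReal.one_rpow]
  refine (lintegral_mono hp).trans ?_
  rw [lintegral_add_left (hA.pow_const γ)]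
  gcongr
  rw [lintegral_finsetSum _ (fun n _ => by
    apply Measurable.const_mul
    exact (measurable_const.add ((measurable_En n).pow_const γ)).mul
      (((hX n).comp (measurable_sh n)).pow_const γ))]
  gcongr with n _
  have hmeas : Measurable fun c => (1 + En n c ^ γ) * X n (sh n c) ^ γ :=
    (measurable_const.add ((measurable_En n).pow_const γ)).mul
      (((hX n).comp (measurable_sh n)).pow_const γ)
  rw [lintegral_const_mul _ hmeas, mul_assoc]
  gcongr
  rw [lintegral_split μc n (fun c => 1 + En n c ^ γ) (fun c => X n c ^ γ)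
    (measurable_const.add ((measurable_En n).pow_const γ)) ((hX n).pow_const γ)
    (fun c c' h => by show 1 + En n c ^ γ = 1 + En n c' ^ γ; rw [dependsOn_En n h])]
  rw [lintegral_add_left measurable_const, lintegral_En_rpow]
  simp

end moments

end Pool.Agent.H.MP_9ba241_pr
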