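import Pool.Agent.H.MP_9ba241_pr.Split

open MeasureTheory ProbabilityTheory Filter Topology
open scoped ENNReal NNReal

set_option linter.unusedSectionVars false

namespace Pool.Agent.H.MP_9ba241_pr

abbrev Conf := ℕ → ℕ × Bool

/-- renewal times of a sequence -/
def tt (x : Conf) (j : ℕ) : ℕ := ∑ l ∈ Finset.range j, (x l).1

/-- step `i` is in the lower half plane -/
def dn (x : Conf) (i : ℕ) : Prop := ∃ j, tt x j ≤ i ∧ i < tt x (j + 1) ∧ (x j).2 = true

lemma tt_zero (x : Conf) : tt x 0 = 0 := rfl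

lemma tt_succ (x : Conf) (j : ℕ) : tt x (j + 1) = (x 0).1 + tt (sh 1 x) j := by
  unfold tt sh
  rw [Finset.sum_range_succ']
  rw [add_comm]
  congr 1
  refine Finset.sum_congr rfl fun l _ => by rw [add_comm]

lemma dn_iff (x : Conf) (i : ℕ) : dn x i ↔
    (i < (x 0).1 ∧ (x 0).2 = true) ∨ ((x 0).1 ≤ i ∧ dn (sh 1 x) (i - (x 0).1)) := by
  constructor
  · rintro ⟨j, h1, h2, h3⟩
    cases j with
    | zero =>
      left
      rw [tt_succ] at h2
      exact ⟨by simpa [tt_zero] using h2, h3⟩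
    | succ j =>
      right
      rw [tt_succ] at h1 h2
      refine ⟨by omega, j, by omega, ?_, ?_⟩
      · rw [show j + 1 = j + 1 from rfl] at h2; omega
      · rw [show sh 1 x j = x (1 + j) from rfl, add_comm]; exact h3
  · rintro (⟨h1, h2⟩ | ⟨h1, j, h2, h3, h4⟩)
    · exact ⟨0, by simp [tt_zero], by rw [tt_succ]; simp [tt_zero, h1], h2⟩
    · refine ⟨j + 1, ?_, ?_, ?_⟩
      · rw [tt_succ]; omega
      · rw [tt_succ]; omega
      · rw [add_comm]; exact h4

lemma dn_of_lt (x : Conf) (i : ℕ) (h : i < (x 0).1) : dn x i ↔ (x 0).2 = true := by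
  rw [dn_iff]
  constructor
  · rintro (⟨_, h2⟩ | ⟨h1, _⟩)
    · exact h2
    · omega
  · intro h2; exact Or.inl ⟨h, h2⟩

lemma dn_of_ge (x : Conf) (i : ℕ) (h : (x 0).1 ≤ i) : dn x i ↔ dn (sh 1 x) (i - (x 0).1) := by
  rw [dn_iff]
  constructor
  · rintro (⟨h1, _⟩ | ⟨_, h2⟩)
    · omega
    · exact h2
  · intro h2; exact Or.inr ⟨h, h2⟩

lemma measurable_tt (j : ℕ) : Measurable fun x : Conf => tt x j := by
  unfold tt
  exact Finset.measurable_sum _ fun l _ => measurable_fst.comp (measurable_pi_apply l)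

lemma measurableSet_dn (i : ℕ) : MeasurableSet {x : Conf | dn x i} := by
  have : {x : Conf | dn x i} = ⋃ j, ({x | tt x j ≤ i} ∩ ({x | i < tt x (j + 1)} ∩
      {x : Conf | (x j).2 = true})) := by
    ext x; simp only [dn, Set.mem_ofPred_eq, Set.mem_iUnion, Set.mem_inter_iff]
  rw [this]
  refine MeasurableSet.iUnion fun j => ?_
  refine (measurableSet_le (measurable_tt j) measurable_const).inter
    ((measurableSet_lt measurable_const (measurable_tt (j + 1))).inter ?_)
  exact (measurable_snd.comp (measurable_pi_apply j)) (MeasurableSet.singleton true)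

open Classical in
/-- Boltzmann weight of the first `N` steps -/
noncomputable def gw (N : ℕ) (c : ℕ → ℝ) (x : Conf) : ℝ≥0∞ :=
  ENNReal.ofReal (Real.exp (∑ i ∈ Finset.range N, if dn x i then c i else 0))

lemma gw_zero (c : ℕ → ℝ) (x : Conf) : gw 0 c x = 1 := by simp [gw]

lemma measurable_gw (N : ℕ) : Measurable fun p : (ℕ → ℝ) × Conf => gw N p.1 p.2 := by
  classical
  unfold gw
  apply ENNReal.measurable_ofReal.comp
  apply Real.measurable_exp.comp
  refine Finset.measurable_sum _ fun i _ => ?_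
  refine Measurable.ite ?_ ?_ measurable_const
  · exact measurable_snd (measurableSet_dn i)
  · exact (measurable_pi_apply i).comp measurable_fst

lemma measurable_gw' (N : ℕ) (c : ℕ → ℝ) : Measurable (gw N c) :=
  Measurable.of_uncurry_left (f := gw N) (x := c) (measurable_gw N)

/-- weight of the first excursion -/
noncomputable def ew (n : ℕ) (b : Bool) (c : ℕ → ℝ) : ℝ≥0∞ := if b then En n c else 1

lemma gw_step (n N : ℕ) (c : ℕ → ℝ) (x : Conf) (h : n ≤ (x 0).1)
    (h' : n < N → (x 0).1 = n) (hn : n ≤ N) :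
    gw N c x = ew n (x 0).2 c * gw (N - n) (sh n c) (sh 1 x) := by
  classical
  unfold gw ew
  have h1 : N = n + (N - n) := by omega
  conv_lhs => rw [h1]
  rw [Finset.sum_range_add, Real.exp_add, ENNReal.ofReal_mul (Real.exp_pos _).le]
  congr 1
  · unfold En
    have h2 : ∀ i ∈ Finset.range n, (if dn x i then c i else 0) = if (x 0).2 = true then c i else 0 := by
      intro i hi
      rw [Finset.mem_range] at hi
      simp only [dn_of_lt x i (by omega)]
    rw [Finset.sum_congr rfl h2]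
    by_cases hb : (x 0).2 = true
    · simp [hb]
    · simp [hb]
  · congr 2
    refine Finset.sum_congr rfl fun i hi => ?_
    rw [Finset.mem_range] at hi
    have h3 : (x 0).1 = n := h' (by omega)
    simp only [dn_of_ge x (n + i) (by omega), h3, Nat.add_sub_cancel_left, sh]

lemma gw_of_le (N : ℕ) (c : ℕ → ℝ) (x : Conf) (h : N ≤ (x 0).1) :
    gw N c x = ew N (x 0).2 c := by
  rw [gw_step N N c x h (fun h => absurd h (lt_irrefl _)) le_rfl, Nat.sub_self, gw_zero, mul_one]

lemma gw_of_ge (N : ℕ) (c : ℕ → ℝ) (x : Conf) (h : (x 0).1 ≤ N) :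
    gw N c x = ew (x 0).1 (x 0).2 c * gw (N - (x 0).1) (sh (x 0).1 c) (sh 1 x) :=
  gw_step (x 0).1 N c x le_rfl (fun _ => rfl) h

section law
variable (ρ : Measure (ℕ × Bool)) [IsProbabilityMeasure ρ] (k : ℕ → ℝ≥0∞)

/-- `ρ` gives mass `k n / 2` to `(n, b)` -/
def IsStep : Prop := ∀ n b, ρ {(n, b)} = k n * 2⁻¹

variable {ρ k}

lemma first_step (hρ : IsStep ρ k) (Φ : ℕ → Bool → Conf → ℝ≥0∞) (hΦ : ∀ n b, Measurable (Φ n b)) :
    ∫⁻ x, Φ (x 0).1 (x 0).2 (sh 1 x) ∂seqLaw ρ =
      ∑' n, k n * 2⁻¹ * (∫⁻ y, Φ n false y ∂seqLaw ρ + ∫⁻ y, Φ n true y ∂seqLaw ρ) := by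
  have hm : Measurable fun x : Conf => (x 0, sh 1 x) :=
    (measurable_pi_apply 0).prodMk (measurable_sh 1)
  have hΦm : Measurable fun p : (ℕ × Bool) × Conf => Φ p.1.1 p.1.2 p.2 :=
    measurable_from_prod_countable_right fun a => hΦ a.1 a.2
  have h1 : ∫⁻ x, Φ (x 0).1 (x 0).2 (sh 1 x) ∂seqLaw ρ =
      ∫⁻ p, Φ p.1.1 p.1.2 p.2 ∂((seqLaw ρ).map fun x => (x 0, sh 1 x)) := by
    rw [lintegral_map hΦm hm]
  rw [h1, map_first, lintegral_prod _ hΦm.aemeasurable, lintegral_countable', ENNReal.tsum_prod']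
  congr 1; ext n
  rw [tsum_bool]
  dsimp only
  rw [hρ, hρ]
  ring

lemma tsum_k (hρ : IsStep ρ k) : ∑' n, k n = 1 := by
  have h := first_step hρ (fun _ _ _ => 1) (fun _ _ => measurable_const)
  simp only [lintegral_const, measure_univ, mul_one] at h
  rw [h]
  congr 1; ext n
  rw [mul_assoc, one_add_one_eq_two, ENNReal.inv_mul_cancel two_ne_zero ENNReal.ofNat_ne_top,
    mul_one]

/-- tail of the inter-arrival law -/
noncomputable def kb (k : ℕ → ℝ≥0∞) (N : ℕ) : ℝ≥0∞ := ∑' n, if N ≤ n then k n else 0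

lemma tsum_split (hk0 : k 0 = 0) (g : ℕ → ℝ≥0∞) (N : ℕ) (_hN : 1 ≤ N) (G : ℝ≥0∞)
    (hg : ∀ n, N ≤ n → g n = G) :
    ∑' n, k n * g n = kb k N * G + ∑ n ∈ Finset.Ico 1 N, k n * g n := by
  have h1 : ∀ n, k n * g n = (if N ≤ n then k n else 0) * G +
      (if n ∈ Finset.Ico 1 N then k n * g n else 0) := by
    intro n
    by_cases h : N ≤ n
    · rw [if_pos h, if_neg (by simp; omega), add_zero, hg n h]
    · rw [if_neg h, zero_mul, zero_add]
      by_cases h0 : n = 0
      · subst h0; simp [hk0]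
      · rw [if_pos (by simp; omega)]
  rw [tsum_congr h1, ENNReal.tsum_add, ENNReal.tsum_mul_right]
  congr 1
  rw [tsum_eq_sum (s := Finset.Ico 1 N)]
  · refine Finset.sum_congr rfl fun n hn => ?_
    rw [if_pos hn]
  · intro n hn; rw [if_neg hn]

/-- partition function -/
noncomputable def Zf (ρ : Measure (ℕ × Bool)) [IsProbabilityMeasure ρ] (N : ℕ) (c : ℕ → ℝ) :
    ℝ≥0∞ := ∫⁻ x, gw N c x ∂seqLaw ρ

lemma Zf_zero (c : ℕ → ℝ) : Zf ρ 0 c = 1 := by
  unfold Zf
  simp only [gw_zero, lintegral_const, measure_univ, mul_one]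

lemma measurable_Zf (N : ℕ) : Measurable (Zf ρ N) :=
  (measurable_gw N).lintegral_prod_right'

lemma Zf_step (hρ : IsStep ρ k) (hk0 : k 0 = 0) (N : ℕ) (hN : 1 ≤ N) (c : ℕ → ℝ) :
    Zf ρ N c = kb k N * (2⁻¹ * (1 + En N c)) +
      ∑ n ∈ Finset.Ico 1 N, (k n * 2⁻¹) * (1 + En n c) * Zf ρ (N - n) (sh n c) := by
  have h1 : ∀ x : Conf, gw N c x =
      (fun (n : ℕ) (b : Bool) (y : Conf) =>
        if N ≤ n then ew N b c else ew n b c * gw (N - n) (sh n c) y) (x 0).1 (x 0).2 (sh 1 x) := by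
    intro x
    dsimp only
    by_cases h : N ≤ (x 0).1
    · rw [if_pos h]; exact gw_of_le N c x h
    · rw [if_neg h]; exact gw_of_ge N c x (by omega)
  unfold Zf
  simp_rw [h1]
  rw [first_step hρ (fun (n : ℕ) (b : Bool) (y : Conf) =>
        if N ≤ n then ew N b c else ew n b c * gw (N - n) (sh n c) y) (by
      intro n b
      by_cases h : N ≤ n
      · simp only [if_pos h]; exact measurable_const
      · simp only [if_neg h]; exact (measurable_gw' _ _).const_mul _)]
  have h2 : ∀ n, k n * 2⁻¹ * (∫⁻ y, (if N ≤ n then ew N false c else ew n false c * gw (N - n) (sh n c) y)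
      ∂seqLaw ρ + ∫⁻ y, (if N ≤ n then ew N true c else ew n true c * gw (N - n) (sh n c) y)
      ∂seqLaw ρ) = k n * (if N ≤ n then 2⁻¹ * (1 + En N c) else
        2⁻¹ * (1 + En n c) * Zf ρ (N - n) (sh n c)) := by
    intro n
    by_cases h : N ≤ n
    · simp only [if_pos h, ew, lintegral_const, measure_univ, mul_one]
      simp only [Bool.false_eq_true, if_false, if_true]
      ring
    · simp only [if_neg h]
      rw [lintegral_const_mul _ (measurable_gw' _ _), lintegral_const_mul _ (measurable_gw' _ _)]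
      simp only [ew, Bool.false_eq_true, if_false, if_true]
      unfold Zf
      ring
  simp_rw [h2]
  rw [tsum_split hk0 _ N hN (2⁻¹ * (1 + En N c)) (fun n hn => by rw [if_pos hn])]
  congr 1
  refine Finset.sum_congr rfl fun n hn => ?_
  rw [Finset.mem_Ico] at hn
  rw [if_neg (by omega)]
  unfold Zf
  ring

/-- there is a lower step in `[m, N)` -/
def evW (N m : ℕ) : Set Conf := {x | ∃ i, m ≤ i ∧ i < N ∧ dn x i}

lemma measurableSet_evW (N m : ℕ) : MeasurableSet (evW N m) := by
  have : evW N m = ⋃ i, ⋃ (_ : m ≤ i ∧ i < N), {x | dn x i} := by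
    ext x
    simp only [evW, Set.mem_ofPred_eq, Set.mem_iUnion, exists_prop]
    exact ⟨fun ⟨i, h1, h2, h3⟩ => ⟨i, ⟨h1, h2⟩, h3⟩, fun ⟨i, ⟨h1, h2⟩, h3⟩ => ⟨i, h1, h2, h3⟩⟩
  rw [this]
  exact MeasurableSet.iUnion fun i => MeasurableSet.iUnion fun _ => measurableSet_dn i

lemma evW_of_le (N m : ℕ) (x : Conf) (h : (x 0).1 ≤ m) :
    x ∈ evW N m ↔ sh 1 x ∈ evW (N - (x 0).1) (m - (x 0).1) := by
  constructor
  · rintro ⟨i, h1, h2, h3⟩
    rw [dn_of_ge x i (by omega)] at h3
    exact ⟨i - (x 0).1, by omega, by omega, h3⟩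
  · rintro ⟨i, h1, h2, h3⟩
    refine ⟨i + (x 0).1, by omega, by omega, ?_⟩
    rw [dn_of_ge x _ (by omega), Nat.add_sub_cancel]
    exact h3

/-- partition function restricted to `evW` -/
noncomputable def Wf (ρ : Measure (ℕ × Bool)) [IsProbabilityMeasure ρ] (N m : ℕ) (c : ℕ → ℝ) :
    ℝ≥0∞ := ∫⁻ x, (evW N m).indicator (gw N c) x ∂seqLaw ρ

/-- partition function restricted to the complement -/
noncomputable def Vf (ρ : Measure (ℕ × Bool)) [IsProbabilityMeasure ρ] (N m : ℕ) (c : ℕ → ℝ) :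
    ℝ≥0∞ := ∫⁻ x, (evW N m)ᶜ.indicator (gw N c) x ∂seqLaw ρ

lemma Wf_add_Vf (N m : ℕ) (c : ℕ → ℝ) : Wf ρ N m c + Vf ρ N m c = Zf ρ N c := by
  unfold Wf Vf Zf
  rw [← lintegral_add_left ((measurable_gw' N c).indicator (measurableSet_evW N m))]
  congr 1; ext x
  exact congrFun (Set.indicator_self_add_compl (evW N m) (gw N c)) x

lemma Wf_le (N m : ℕ) (c : ℕ → ℝ) : Wf ρ N m c ≤ Zf ρ N c := by
  rw [← Wf_add_Vf N m c]; exact le_self_add

lemma Vf_le (N m : ℕ) (c : ℕ → ℝ) : Vf ρ N m c ≤ Zf ρ N c := by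
  rw [← Wf_add_Vf N m c]; exact le_add_self

lemma measurable_Wf (N m : ℕ) : Measurable (Wf ρ N m) := by
  have h : Measurable fun p : (ℕ → ℝ) × Conf => (evW N m).indicator (gw N p.1) p.2 := by
    have : (fun p : (ℕ → ℝ) × Conf => (evW N m).indicator (gw N p.1) p.2) =
        (Prod.snd ⁻¹' evW N m).indicator fun p => gw N p.1 p.2 := by
      ext p; rfl
    rw [this]
    exact (measurable_gw N).indicator (measurable_snd (measurableSet_evW N m))
  exact h.lintegral_prod_right'

lemma Wf_step (hρ : IsStep ρ k) (hk0 : k 0 = 0) (N m : ℕ) (hN : 1 ≤ N) (c : ℕ → ℝ) :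
    Wf ρ N m c ≤ kb k N * (2⁻¹ * En N c) +
      ∑ n ∈ Finset.Ico 1 N, (k n * 2⁻¹) * (1 + En n c) *
        (if n ≤ m then Wf ρ (N - n) (m - n) (sh n c) else Zf ρ (N - n) (sh n c)) := by
  set Φ : ℕ → Bool → Conf → ℝ≥0∞ := fun n b y =>
    if N ≤ n then (if b then En N c else 0) else
      ew n b c * (if n ≤ m then (evW (N - n) (m - n)).indicator (gw (N - n) (sh n c)) y
        else gw (N - n) (sh n c) y) with hΦ
  have hΦm : ∀ n b, Measurable (Φ n b) := by
    intro n b
    simp only [hΦ]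
    by_cases h : N ≤ n
    · simp only [if_pos h]; exact measurable_const
    · simp only [if_neg h]
      by_cases h' : n ≤ m
      · simp only [if_pos h']
        exact ((measurable_gw' _ _).indicator (measurableSet_evW _ _)).const_mul _
      · simp only [if_neg h']
        exact (measurable_gw' _ _).const_mul _
  have h1 : ∀ x : Conf, (evW N m).indicator (gw N c) x ≤ Φ (x 0).1 (x 0).2 (sh 1 x) := by
    intro x
    simp only [hΦ]
    by_cases h : N ≤ (x 0).1
    · rw [if_pos h]
      by_cases hx : x ∈ evW N m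
      · rw [Set.indicator_of_mem hx]
        obtain ⟨i, h1, h2, h3⟩ := hx
        rw [dn_of_lt x i (by omega)] at h3
        rw [gw_of_le N c x h, h3]; simp [ew]
      · rw [Set.indicator_of_notMem hx]; exact zero_le
    · rw [if_neg h]
      by_cases h' : (x 0).1 ≤ m
      · rw [if_pos h']
        by_cases hx : x ∈ evW N m
        · rw [Set.indicator_of_mem hx, Set.indicator_of_mem ((evW_of_le N m x h').1 hx)]
          exact (gw_of_ge N c x (by omega)).le
        · rw [Set.indicator_of_notMem hx]; exact zero_le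
      · rw [if_neg h']
        refine (Set.indicator_le_self _ _ _).trans ?_
        exact (gw_of_ge N c x (by omega)).le
  calc Wf ρ N m c ≤ ∫⁻ x, Φ (x 0).1 (x 0).2 (sh 1 x) ∂seqLaw ρ := lintegral_mono h1
    _ = ∑' n, k n * 2⁻¹ * (∫⁻ y, Φ n false y ∂seqLaw ρ + ∫⁻ y, Φ n true y ∂seqLaw ρ) :=
        first_step hρ Φ hΦm
    _ = ∑' n, k n * (if N ≤ n then 2⁻¹ * En N c else 2⁻¹ * (1 + En n c) *
          (if n ≤ m then Wf ρ (N - n) (m - n) (sh n c) else Zf ρ (N - n) (sh n c))) := by
        congr 1; ext n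
        simp only [hΦ]
        by_cases h : N ≤ n
        · simp only [if_pos h, lintegral_const, measure_univ, mul_one, Bool.false_eq_true, if_false,
            if_true, zero_add]
          ring
        · simp only [if_neg h]
          by_cases h' : n ≤ m
          · simp only [if_pos h']
            rw [lintegral_const_mul _ ((measurable_gw' _ _).indicator (measurableSet_evW _ _)),
              lintegral_const_mul _ ((measurable_gw' _ _).indicator (measurableSet_evW _ _))]
            simp only [ew, Bool.false_eq_true, if_false, if_true]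
            unfold Wf
            ring
          · simp only [if_neg h']
            rw [lintegral_const_mul _ (measurable_gw' _ _), lintegral_const_mul _ (measurable_gw' _ _)]
            simp only [ew, Bool.false_eq_true, if_false, if_true]
            unfold Zf
            ring
    _ = _ := by
        rw [tsum_split hk0 _ N hN (2⁻¹ * En N c) (fun n hn => by rw [if_pos hn])]
        congr 1
        refine Finset.sum_congr rfl fun n hn => ?_
        rw [Finset.mem_Ico] at hn
        rw [if_neg (show ¬ N ≤ n by omega)]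
        ring

/-- probability that the first `N` steps are in the upper half plane -/
noncomputable def Uf (ρ : Measure (ℕ × Bool)) [IsProbabilityMeasure ρ] (N : ℕ) : ℝ≥0∞ :=
  seqLaw ρ (evW N 0)ᶜ

lemma Uf_le_one (N : ℕ) : Uf ρ N ≤ 1 := prob_le_one

lemma Uf_anti : Antitone (Uf ρ) := by
  intro N N' h
  apply measure_mono
  intro x hx hx'
  obtain ⟨i, h1, h2, h3⟩ := hx'
  exact hx ⟨i, h1, by omega, h3⟩

lemma Uf_step (hρ : IsStep ρ k) (hk0 : k 0 = 0) (N : ℕ) (hN : 1 ≤ N) :
    Uf ρ N = kb k N * 2⁻¹ + ∑ n ∈ Finset.Ico 1 N, (k n * 2⁻¹) * Uf ρ (N - n) := by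
  set Φ : ℕ → Bool → Conf → ℝ≥0∞ := fun n b y =>
    if b then 0 else if N ≤ n then 1 else (evW (N - n) 0)ᶜ.indicator 1 y with hΦ
  have hΦm : ∀ n b, Measurable (Φ n b) := by
    intro n b
    simp only [hΦ]
    cases b
    · by_cases h : N ≤ n
      · simp only [if_pos h]; exact measurable_const
      · simp only [if_neg h]
        exact measurable_one.indicator (measurableSet_evW _ _).compl
    · exact measurable_const
  have h1 : ∀ x : Conf, 1 ≤ (x 0).1 →
      (evW N 0)ᶜ.indicator (1 : Conf → ℝ≥0∞) x = Φ (x 0).1 (x 0).2 (sh 1 x) := by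
    intro x hx0
    simp only [hΦ]
    by_cases hb : (x 0).2 = true
    · rw [if_pos hb, Set.indicator_of_notMem]
      intro h
      exact h ⟨0, le_rfl, by omega, (dn_of_lt x 0 (by omega)).2 hb⟩
    · rw [if_neg hb]
      by_cases h : N ≤ (x 0).1
      · rw [if_pos h, Set.indicator_of_mem]
        · rfl
        · rintro ⟨i, _, h2, h3⟩
          rw [dn_of_lt x i (by omega)] at h3
          exact hb h3
      · rw [if_neg h]
        have hiff : x ∈ (evW N 0)ᶜ ↔ sh 1 x ∈ (evW (N - (x 0).1) 0)ᶜ := by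
          rw [Set.mem_compl_iff, Set.mem_compl_iff, not_iff_not]
          constructor
          · rintro ⟨i, _, h2, h3⟩
            by_cases hi : i < (x 0).1
            · rw [dn_of_lt x i hi] at h3; exact absurd h3 hb
            · rw [dn_of_ge x i (by omega)] at h3
              exact ⟨i - (x 0).1, Nat.zero_le _, by omega, h3⟩
          · rintro ⟨i, _, h2, h3⟩
            refine ⟨i + (x 0).1, Nat.zero_le _, by omega, ?_⟩
            rw [dn_of_ge x _ (by omega), Nat.add_sub_cancel]
            exact h3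
        by_cases hx : x ∈ (evW N 0)ᶜ
        · rw [Set.indicator_of_mem hx, Set.indicator_of_mem (hiff.1 hx)]
          rfl
        · rw [Set.indicator_of_notMem hx, Set.indicator_of_notMem (fun h => hx (hiff.2 h))]
  have hae : ∀ᵐ x ∂seqLaw ρ, 1 ≤ (x 0).1 := by
    have h2 := first_step hρ (fun n _ _ => if n = 0 then (1 : ℝ≥0∞) else 0)
      (fun _ _ => measurable_const)
    have h3 : ∀ n, k n * 2⁻¹ * (∫⁻ _ : Conf, (if n = 0 then (1 : ℝ≥0∞) else 0) ∂seqLaw ρ +
        ∫⁻ _ : Conf, (if n = 0 then (1 : ℝ≥0∞) else 0) ∂seqLaw ρ) = 0 := by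
      intro n
      by_cases h : n = 0
      · rw [h, hk0, zero_mul, zero_mul]
      · simp only [if_neg h, lintegral_zero, add_zero, mul_zero]
    simp_rw [h3] at h2
    rw [tsum_zero, lintegral_eq_zero_iff] at h2
    · filter_upwards [h2] with x hx
      by_contra hcon
      have h4 : (x 0).1 = 0 := by omega
      rw [if_pos h4] at hx
      exact one_ne_zero hx
    · refine Measurable.ite ?_ measurable_const measurable_const
      exact (measurable_fst.comp (measurable_pi_apply 0)) (MeasurableSet.singleton 0)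
  have h2 : Uf ρ N = ∫⁻ x, Φ (x 0).1 (x 0).2 (sh 1 x) ∂seqLaw ρ := by
    unfold Uf
    rw [← lintegral_indicator_one (measurableSet_evW N 0).compl]
    apply lintegral_congr_ae
    filter_upwards [hae] with x hx
    exact h1 x hx
  rw [h2, first_step hρ Φ hΦm]
  have h3 : ∀ n, k n * 2⁻¹ * (∫⁻ y, Φ n false y ∂seqLaw ρ + ∫⁻ y, Φ n true y ∂seqLaw ρ) =
      k n * (if N ≤ n then 2⁻¹ else 2⁻¹ * Uf ρ (N - n)) := by
    intro n
    simp only [hΦ, Bool.false_eq_true, if_false, if_true, lintegral_zero, add_zero]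
    by_cases h : N ≤ n
    · simp only [if_pos h, lintegral_const, measure_univ, mul_one]
    · simp only [if_neg h]
      rw [lintegral_indicator_one (measurableSet_evW _ _).compl]
      unfold Uf
      ring
  simp_rw [h3]
  rw [tsum_split hk0 _ N hN 2⁻¹ (fun n hn => by rw [if_pos hn])]
  congr 1
  refine Finset.sum_congr rfl fun n hn => ?_
  rw [Finset.mem_Ico] at hn
  rw [if_neg (show ¬ N ≤ n by omega)]
  ring

end law

attribute [irreducible] gw

end Pool.Agent.H.MP_9ba241_pr
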