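import Pool.Agent.H.MP_9ba241_pr.Liminf

open MeasureTheory ProbabilityTheory Filter Topology
open scoped ENNReal NNReal

set_option linter.unusedSectionVars false
set_option linter.style.haveILetI false
set_option maxHeartbeats 400000

namespace Pool.Agent.H.MP_9ba241_pr

section renewal
variable {Ω' : Type*} {mΩ' : MeasurableSpace Ω'} {K : ℕ → ℝ} {α : ℝ} {P : Measure Ω'}
  [IsProbabilityMeasure P] {ξ : ℕ → Ω' → ℕ} {ζ : ℕ → Ω' → Bool}

/-- the sequence of excursions -/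
def XX (ξ : ℕ → Ω' → ℕ) (ζ : ℕ → Ω' → Bool) (x : Ω') : Conf := fun i => (ξ i x, ζ i x)

/-- the law of one excursion -/
noncomputable def rho (P : Measure Ω') (ξ : ℕ → Ω' → ℕ) (ζ : ℕ → Ω' → Bool) :
    Measure (ℕ × Bool) := P.map fun x => (ξ 0 x, ζ 0 x)

lemma RenewalSigns.meas_pair (hR : RenewalSigns K P ξ ζ) (i : ℕ) :
    Measurable fun x => (ξ i x, ζ i x) := (hR.meas_ξ i).prodMk (hR.meas_ζ i)

lemma RenewalSigns.meas_XX (hR : RenewalSigns K P ξ ζ) : Measurable (XX ξ ζ) :=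
  measurable_pi_lambda _ fun i => hR.meas_pair i

lemma RenewalSigns.singleton (hR : RenewalSigns K P ξ ζ) (i n : ℕ) (b : Bool) :
    P.map (fun x => (ξ i x, ζ i x)) {(n, b)} = ENNReal.ofReal (K n) * 2⁻¹ := by
  rw [Measure.map_apply (hR.meas_pair i) (MeasurableSet.singleton _)]
  have h := (hR.indep_pair i).measure_inter_preimage_eq_mul {n} {b}
    (MeasurableSet.singleton n) (MeasurableSet.singleton b)
  have e1 : ξ i ⁻¹' {n} = {x | ξ i x = n} := rfl
  have e2 : ζ i ⁻¹' {b} = {x | ζ i x = b} := rfl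
  rw [e1, e2, hR.law_ξ, hR.law_ζ] at h
  rw [← h]
  congr 1
  ext x
  simp [Prod.ext_iff]

lemma RenewalSigns.isProb_rho (hR : RenewalSigns K P ξ ζ) : IsProbabilityMeasure (rho P ξ ζ) :=
  Measure.isProbabilityMeasure_map (hR.meas_pair 0).aemeasurable

lemma RenewalSigns.isStep (hR : RenewalSigns K P ξ ζ) :
    IsStep (rho P ξ ζ) fun n => ENNReal.ofReal (K n) := fun n b => hR.singleton 0 n b

lemma RenewalSigns.map_XX (hR : RenewalSigns K P ξ ζ) [IsProbabilityMeasure (rho P ξ ζ)] :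
    P.map (XX ξ ζ) = seqLaw (rho P ξ ζ) := by
  have h1 := hR.indep.map_fun_eq_infinitePi_map (fun i => hR.meas_pair i)
  have h2 : ∀ i, P.map (fun x => (ξ i x, ζ i x)) = rho P ξ ζ := by
    intro i
    haveI : IsFiniteMeasure (P.map (fun x => (ξ i x, ζ i x))) :=
      Measure.isFiniteMeasure_map _ _
    apply Measure.ext_of_singleton
    rintro ⟨n, b⟩
    rw [hR.singleton i n b]
    exact (hR.singleton 0 n b).symm
  unfold seqLaw
  rw [show (XX ξ ζ) = fun x i => (ξ i x, ζ i x) from rfl, h1]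
  simp_rw [h2]

lemma lower_iff (i : ℕ) (x : Ω') : Lower ξ ζ (i + 1) x ↔ dn (XX ξ ζ x) i := by
  unfold Lower dn
  refine exists_congr fun j => ?_
  have e : ∀ j, tau ξ j x = tt (XX ξ ζ x) j := fun j => rfl
  rw [e, e]
  constructor
  · rintro ⟨h1, h2, h3⟩
    exact ⟨by omega, by omega, h3⟩
  · rintro ⟨h1, h2, h3⟩
    exact ⟨by omega, by omega, h3⟩

/-- the step energies -/
def cc (lam h : ℝ) (w : ℕ → ℝ) (i : ℕ) : ℝ := -2 * lam * (w (i + 1) + h)

lemma boltz_eq (lam h : ℝ) (w : ℕ → ℝ) (N : ℕ) (x : Ω') :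
    ENNReal.ofReal (boltz ξ ζ lam h w N x) = gw N (cc lam h w) (XX ξ ζ x) := by
  classical
  unfold boltz gw
  congr 2
  have h1 : Finset.Icc 1 N = Finset.Ico 1 (N + 1) := by
    ext n; simp only [Finset.mem_Icc, Finset.mem_Ico]; omega
  rw [h1, Finset.sum_Ico_eq_sum_range, Finset.mul_sum]
  refine Finset.sum_congr (by simp) fun i _ => ?_
  unfold Delta cc
  rw [add_comm 1 i]
  simp only [lower_iff]
  by_cases h : dn (XX ξ ζ x) i
  · rw [if_pos h, if_pos h]; ring
  · rw [if_neg h, if_neg h]; ring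

lemma boltz_pos (lam h : ℝ) (w : ℕ → ℝ) (N : ℕ) (x : Ω') : 0 < boltz ξ ζ lam h w N x :=
  Real.exp_pos _

lemma boltz_toReal (lam h : ℝ) (w : ℕ → ℝ) (N : ℕ) (x : Ω') :
    boltz ξ ζ lam h w N x = (gw N (cc lam h w) (XX ξ ζ x)).toReal := by
  rw [← boltz_eq, ENNReal.toReal_ofReal (boltz_pos lam h w N x).le]

lemma RenewalSigns.meas_boltz (hR : RenewalSigns K P ξ ζ) (lam h : ℝ) (w : ℕ → ℝ) (N : ℕ) :
    Measurable (boltz ξ ζ lam h w N) := by
  have h1 : Measurable fun x => (gw N (cc lam h w) (XX ξ ζ x)).toReal :=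
    ((measurable_gw' N (cc lam h w)).comp hR.meas_XX).ennreal_toReal
  have h2 : boltz ξ ζ lam h w N = fun x => (gw N (cc lam h w) (XX ξ ζ x)).toReal := by
    ext x; exact boltz_toReal lam h w N x
  rw [h2]; exact h1

lemma RenewalSigns.Zpart_eq (hR : RenewalSigns K P ξ ζ) [IsProbabilityMeasure (rho P ξ ζ)]
    (lam h : ℝ) (w : ℕ → ℝ) (N : ℕ) :
    Zpart P ξ ζ lam h w N = (Zf (rho P ξ ζ) N (cc lam h w)).toReal := by
  unfold Zpart
  rw [integral_eq_lintegral_of_nonneg_ae (Eventually.of_forall fun x => (boltz_pos lam h w N x).le)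
    (hR.meas_boltz lam h w N).aestronglyMeasurable]
  congr 1
  unfold Zf
  rw [← hR.map_XX, lintegral_map (measurable_gw' _ _) hR.meas_XX]
  exact lintegral_congr fun x => boltz_eq lam h w N x

lemma staysUp_eq (ε : ℝ) (hε0 : 0 < ε) (N : ℕ) (hN : 1 ≤ N) :
    staysUp ξ ζ ε N = XX ξ ζ ⁻¹' (evW N (mi ε N))ᶜ := by
  have hN0 : (0:ℝ) < N := by exact_mod_cast hN
  have hc : 0 < ⌈ε * N⌉₊ := Nat.ceil_pos.2 (by positivity)
  ext x
  simp only [staysUp, Set.mem_ofPred_eq, Set.mem_preimage, Set.mem_compl_iff]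
  constructor
  · rintro h ⟨i, h1, h2, h3⟩
    have h4 := h (i + 1) (by
      have : ⌈ε * N⌉₊ ≤ i + 1 := by unfold mi at h1; omega
      exact Nat.ceil_le.1 this) (by omega)
    unfold Delta at h4
    rw [if_pos ((lower_iff i x).2 h3)] at h4
    exact one_ne_zero h4
  · intro h n h1 h2
    unfold Delta
    rw [if_neg]
    intro h3
    have hn : ⌈ε * N⌉₊ ≤ n := Nat.ceil_le.2 h1
    obtain ⟨i, rfl⟩ : ∃ i, n = i + 1 := ⟨n - 1, by omega⟩
    exact h ⟨i, by unfold mi; omega, by omega, (lower_iff i x).1 h3⟩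

lemma RenewalSigns.num_eq (hR : RenewalSigns K P ξ ζ) [IsProbabilityMeasure (rho P ξ ζ)]
    (lam h : ℝ) (w : ℕ → ℝ) (ε : ℝ) (hε0 : 0 < ε) (N : ℕ) (hN : 1 ≤ N) :
    ∫ x in staysUp ξ ζ ε N, boltz ξ ζ lam h w N x ∂P =
      (Vf (rho P ξ ζ) N (mi ε N) (cc lam h w)).toReal := by
  have hm : MeasurableSet (staysUp ξ ζ ε N) := by
    rw [staysUp_eq ε hε0 N hN]
    exact hR.meas_XX (measurableSet_evW _ _).compl
  rw [integral_eq_lintegral_of_nonneg_ae (Eventually.of_forall fun x => (boltz_pos lam h w N x).le)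
    (hR.meas_boltz lam h w N).aestronglyMeasurable]
  congr 1
  unfold Vf
  rw [← hR.map_XX, lintegral_map ((measurable_gw' _ _).indicator (measurableSet_evW _ _).compl)
    hR.meas_XX, ← lintegral_indicator hm]
  refine lintegral_congr fun x => ?_
  by_cases hx : x ∈ staysUp ξ ζ ε N
  · rw [Set.indicator_of_mem hx]
    rw [staysUp_eq ε hε0 N hN] at hx
    have hx' : XX ξ ζ x ∈ (evW N (mi ε N))ᶜ := hx
    rw [Set.indicator_of_mem hx']
    exact boltz_eq lam h w N x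
  · rw [Set.indicator_of_notMem hx]
    rw [staysUp_eq ε hε0 N hN] at hx
    have hx' : XX ξ ζ x ∉ (evW N (mi ε N))ᶜ := hx
    rw [Set.indicator_of_notMem hx']

lemma RenewalSigns.polymer_eq (hR : RenewalSigns K P ξ ζ) [IsProbabilityMeasure (rho P ξ ζ)]
    (lam h : ℝ) (w : ℕ → ℝ) (ε : ℝ) (hε0 : 0 < ε) (N : ℕ) (hN : 1 ≤ N) :
    polymer P ξ ζ lam h w N (staysUp ξ ζ ε N) =
      (Vf (rho P ξ ζ) N (mi ε N) (cc lam h w) / Zf (rho P ξ ζ) N (cc lam h w)).toReal := by
  unfold polymer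
  rw [hR.num_eq lam h w ε hε0 N hN, hR.Zpart_eq, ENNReal.toReal_div]

lemma gw_le (N : ℕ) (c : ℕ → ℝ) (x : Conf) :
    gw N c x ≤ ENNReal.ofReal (Real.exp (∑ i ∈ Finset.range N, |c i|)) := by
  classical
  unfold gw
  apply ENNReal.ofReal_le_ofReal
  apply Real.exp_le_exp.2
  refine Finset.sum_le_sum fun i _ => ?_
  split_ifs
  · exact le_abs_self _
  · exact abs_nonneg _

lemma Zf_ne_top (ρ : Measure (ℕ × Bool)) [IsProbabilityMeasure ρ] (N : ℕ) (c : ℕ → ℝ) :
    Zf ρ N c ≠ ∞ := by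
  refine ne_top_of_le_ne_top (b := ENNReal.ofReal (Real.exp (∑ i ∈ Finset.range N, |c i|)))
    ENNReal.ofReal_ne_top ?_
  unfold Zf
  calc ∫⁻ x, gw N c x ∂seqLaw ρ ≤ ∫⁻ _, ENNReal.ofReal (Real.exp (∑ i ∈ Finset.range N, |c i|)) ∂seqLaw ρ :=
        lintegral_mono fun x => gw_le N c x
    _ = _ := by simp

end renewal

section charges
variable {Ω : Type*} {mΩ : MeasurableSpace Ω} {ν : Measure ℝ} {Q : Measure Ω}
  [IsProbabilityMeasure Q] {ω : ℕ → Ω → ℝ}

/-- law of one step energy -/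
noncomputable def muc (ν : Measure ℝ) (lam h : ℝ) : Measure ℝ := ν.map fun t => -2 * lam * (t + h)

lemma Charges.isProb_ν (hC : Charges ν Q ω) : IsProbabilityMeasure ν := by
  rw [← hC.law 0]; exact Measure.isProbabilityMeasure_map (hC.meas 0).aemeasurable

lemma Charges.isProb_muc (hC : Charges ν Q ω) (lam h : ℝ) : IsProbabilityMeasure (muc ν lam h) := by
  haveI := hC.isProb_ν
  exact Measure.isProbabilityMeasure_map (by fun_prop)

lemma Charges.meas_cc (hC : Charges ν Q ω) (lam h : ℝ) :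
    Measurable fun a => cc lam h (fun n => ω n a) := by
  apply measurable_pi_lambda
  intro i
  unfold cc
  exact ((hC.meas (i + 1)).add_const h).const_mul _

lemma Charges.map_cc (hC : Charges ν Q ω) (lam h : ℝ) [IsProbabilityMeasure (muc ν lam h)] :
    Q.map (fun a => cc lam h (fun n => ω n a)) = seqLaw (muc ν lam h) := by
  have h0 : iIndepFun (fun (i : ℕ) a => -2 * lam * (ω (i + 1) a + h)) Q := by
    have h1 : iIndepFun (fun (i : ℕ) => ω (i + 1)) Q :=
      hC.indep.precomp (g := fun i : ℕ => i + 1) (add_left_injective 1)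
    have h2 := h1.comp (fun _ t => -2 * lam * (t + h)) (fun _ => by fun_prop)
    exact h2
  have h1 := h0.map_fun_eq_infinitePi_map (fun i => ((hC.meas (i + 1)).add_const h).const_mul _)
  have h2 : ∀ i, Q.map (fun a => -2 * lam * (ω (i + 1) a + h)) = muc ν lam h := by
    intro i
    unfold muc
    rw [← hC.law (i + 1), Measure.map_map (by fun_prop) (hC.meas (i + 1))]
    rfl
  unfold seqLaw
  simp_rw [h2] at h1
  exact h1

lemma phi_muc (ν : Measure ℝ) (lam h γ : ℝ) :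
    phi (muc ν lam h) γ = ∫⁻ t, ENNReal.ofReal (Real.exp (γ * (-2 * lam * (t + h)))) ∂ν := by
  unfold phi muc
  rw [lintegral_map (by fun_prop) (by fun_prop)]

/-- one-step moment -/
noncomputable def ph (ν : Measure ℝ) (lam h γ : ℝ) : ℝ :=
  ∫ t, Real.exp (γ * (-2 * lam * (t + h))) ∂ν

lemma ph_integrable (hexp : ∀ t : ℝ, Integrable (fun x => Real.exp (t * x)) ν) (lam h γ : ℝ) :
    Integrable (fun t => Real.exp (γ * (-2 * lam * (t + h)))) ν := by
  have h1 := (hexp (-2 * γ * lam)).const_mul (Real.exp (-2 * γ * lam * h))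
  refine h1.congr (Eventually.of_forall fun t => ?_)
  show Real.exp (-2 * γ * lam * h) * Real.exp (-2 * γ * lam * t) = _
  rw [← Real.exp_add]; congr 1; ring

lemma phi_eq_ph (hexp : ∀ t : ℝ, Integrable (fun x => Real.exp (t * x)) ν) (lam h γ : ℝ) :
    phi (muc ν lam h) γ = ENNReal.ofReal (ph ν lam h γ) := by
  rw [phi_muc]
  unfold ph
  rw [ofReal_integral_eq_lintegral_ofReal (ph_integrable hexp lam h γ)
    (Eventually.of_forall fun t => (Real.exp_pos _).le)]

end charges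

section main
variable {Ω Ω' : Type*} {mΩ : MeasurableSpace Ω} {mΩ' : MeasurableSpace Ω'} {K : ℕ → ℝ} {α : ℝ}
  {P : Measure Ω'} [IsProbabilityMeasure P] {ξ : ℕ → Ω' → ℕ} {ζ : ℕ → Ω' → Bool}
  {ν : Measure ℝ} {Q : Measure Ω} [IsProbabilityMeasure Q] {ω : ℕ → Ω → ℝ}

lemma polymer_mem (P : Measure Ω') [IsProbabilityMeasure P] (hR : RenewalSigns K P ξ ζ) (lam h : ℝ)
    (w : ℕ → ℝ) (ε : ℝ) (hε0 : 0 < ε) (N : ℕ) (hN : 1 ≤ N) :
    0 ≤ polymer P ξ ζ lam h w N (staysUp ξ ζ ε N) ∧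
      polymer P ξ ζ lam h w N (staysUp ξ ζ ε N) ≤ 1 := by
  haveI := hR.isProb_rho
  rw [hR.polymer_eq lam h w ε hε0 N hN]
  refine ⟨ENNReal.toReal_nonneg, ?_⟩
  apply ENNReal.toReal_le_of_le_ofReal zero_le_one
  rw [ENNReal.ofReal_one]
  exact ENNReal.div_le_of_le_mul (by rw [one_mul]; exact Vf_le N _ _)

theorem limsup_eq_one {γ q : ℝ} (hR : RenewalSigns K P ξ ζ) (hC : Charges ν Q ω) (lam h : ℝ)
    (hP : Par K α (muc ν lam h) γ q (ph ν lam h γ)) (ε : ℝ) (hε0 : 0 < ε) (hε1 : ε < 1) :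
    ∀ᵐ a ∂Q, limsup (fun N => polymer P ξ ζ lam h (fun n => ω n a) N (staysUp ξ ζ ε N)) atTop = 1 := by
  haveI := hR.isProb_rho
  haveI := hC.isProb_muc lam h
  have h1 := canon_limsup hP hR.isStep ε hε0 hε1
  rw [← hC.map_cc lam h] at h1
  have h2 := ae_of_ae_map (hC.meas_cc lam h).aemeasurable h1
  filter_upwards [h2] with a ha
  set u : ℕ → ℝ := fun N => polymer P ξ ζ lam h (fun n => ω n a) N (staysUp ξ ζ ε N) with hu
  have hub : ∀ᶠ N in atTop, u N ≤ 1 := by
    filter_upwards [eventually_ge_atTop 1] with N hN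
    exact (polymer_mem P hR lam h _ ε hε0 N hN).2
  have hlb : ∀ᶠ N in atTop, 0 ≤ u N := by
    filter_upwards [eventually_ge_atTop 1] with N hN
    exact (polymer_mem P hR lam h _ ε hε0 N hN).1
  have hcob : IsCoboundedUnder (· ≤ ·) atTop u :=
    (isBoundedUnder_of_eventually_ge hlb).isCoboundedUnder_le
  have hbd : IsBoundedUnder (· ≤ ·) atTop u := isBoundedUnder_of_eventually_le hub
  apply le_antisymm
  · exact limsup_le_of_le hcob hub
  · apply le_of_forall_lt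
    intro b hb
    have hη : 0 < ENNReal.ofReal ((1 - b) / 2) := by
      rw [ENNReal.ofReal_pos]; linarith
    have hfr := ha _ hη
    have hfr2 : ∃ᶠ N in atTop, (1 + b) / 2 ≤ u N := by
      refine (hfr.and_eventually (eventually_ge_atTop 1)).mono ?_
      rintro N ⟨hN, hN1⟩
      simp only [hu]
      rw [hR.polymer_eq lam h _ ε hε0 N hN1]
      set c := cc lam h (fun n => ω n a) with hc
      obtain ⟨cz, hcz, hz⟩ := Zf_lower (ρ := rho P ξ ζ) hP.hK hR.isStep
      have hZ0 : Zf (rho P ξ ζ) N c ≠ 0 := by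
        have h3 := hz N hN1 c
        have hN0 : (0:ℝ) < N := by exact_mod_cast hN1
        have : 0 < ENNReal.ofReal (cz * (N : ℝ) ^ (-α)) := by
          rw [ENNReal.ofReal_pos]; positivity
        exact (lt_of_lt_of_le this h3).ne'
      have hZt := Zf_ne_top (rho P ξ ζ) N c
      have hsum : Wf (rho P ξ ζ) N (mi ε N) c / Zf (rho P ξ ζ) N c +
          Vf (rho P ξ ζ) N (mi ε N) c / Zf (rho P ξ ζ) N c = 1 := by
        rw [← ENNReal.add_div, Wf_add_Vf, ENNReal.div_self hZ0 hZt]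
      have hWt : Wf (rho P ξ ζ) N (mi ε N) c / Zf (rho P ξ ζ) N c ≠ ∞ := by
        intro h; rw [h, top_add] at hsum; exact ENNReal.top_ne_one hsum
      have hVt : Vf (rho P ξ ζ) N (mi ε N) c / Zf (rho P ξ ζ) N c ≠ ∞ := by
        intro h; rw [h, add_top] at hsum; exact ENNReal.top_ne_one hsum
      have h4 := congrArg ENNReal.toReal hsum
      rw [ENNReal.toReal_add hWt hVt, ENNReal.toReal_one] at h4
      have h5 : (Wf (rho P ξ ζ) N (mi ε N) c / Zf (rho P ξ ζ) N c).toReal ≤ (1 - b) / 2 :=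
        ENNReal.toReal_le_of_le_ofReal (by linarith) hN.le
      linarith
    have := le_limsup_of_frequently_le hfr2 hbd
    linarith

theorem liminf_eq_zero {γ q : ℝ} (hR : RenewalSigns K P ξ ζ) (hC : Charges ν Q ω)
    (hexp : ∀ t : ℝ, Integrable (fun x => Real.exp (t * x)) ν) (lam h : ℝ)
    (hP : Par K α (muc ν lam h) γ q (ph ν lam h γ)) (h1 : 1 < ph ν lam h 1)
    (ε : ℝ) (hε0 : 0 < ε) (hε1 : ε < 1) :
    ∀ᵐ a ∂Q, liminf (fun N => polymer P ξ ζ lam h (fun n => ω n a) N (staysUp ξ ζ ε N)) atTop = 0 := by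
  haveI := hR.isProb_rho
  haveI := hC.isProb_muc lam h
  have h3 : 1 < phi (muc ν lam h) 1 := by
    rw [phi_eq_ph hexp, ← ENNReal.ofReal_one]
    exact (ENNReal.ofReal_lt_ofReal_iff (by linarith)).2 h1
  have h4 : phi (muc ν lam h) 2 ≠ ∞ := by
    rw [phi_eq_ph hexp]; exact ENNReal.ofReal_ne_top
  have h1 := canon_liminf hP hR.isStep h3 h4 ε hε0 hε1
  rw [← hC.map_cc lam h] at h1
  have h2 := ae_of_ae_map (hC.meas_cc lam h).aemeasurable h1
  filter_upwards [h2] with a ha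
  set u : ℕ → ℝ := fun N => polymer P ξ ζ lam h (fun n => ω n a) N (staysUp ξ ζ ε N) with hu
  have hub : ∀ᶠ N in atTop, u N ≤ 1 := by
    filter_upwards [eventually_ge_atTop 1] with N hN
    exact (polymer_mem P hR lam h _ ε hε0 N hN).2
  have hlb : ∀ᶠ N in atTop, 0 ≤ u N := by
    filter_upwards [eventually_ge_atTop 1] with N hN
    exact (polymer_mem P hR lam h _ ε hε0 N hN).1
  have hcob : IsCoboundedUnder (· ≥ ·) atTop u :=
    (isBoundedUnder_of_eventually_le hub).isCoboundedUnder_ge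
  have hbd : IsBoundedUnder (· ≥ ·) atTop u := isBoundedUnder_of_eventually_ge hlb
  apply le_antisymm
  · apply le_of_forall_gt
    intro b hb
    have hη : 0 < ENNReal.ofReal (b / 2) := by
      rw [ENNReal.ofReal_pos]; linarith
    have hfr := ha _ hη
    have hfr2 : ∃ᶠ N in atTop, u N ≤ b / 2 := by
      refine (hfr.and_eventually (eventually_ge_atTop 1)).mono ?_
      rintro N ⟨hN, hN1⟩
      simp only [hu]
      rw [hR.polymer_eq lam h _ ε hε0 N hN1]
      exact ENNReal.toReal_le_of_le_ofReal (by linarith) hN.le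
    have := liminf_le_of_frequently_le hfr2 hbd
    linarith
  · exact le_liminf_of_le hcob hlb

end main

end Pool.Agent.H.MP_9ba241_pr
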