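import Pool.Agent.H.MP_9ba241_pr.KBounds

open MeasureTheory ProbabilityTheory Filter Topology
open scoped ENNReal NNReal

set_option linter.unusedSectionVars false

namespace Pool.Agent.H.MP_9ba241_pr

/-- total weight of the renewal epochs up to `m` -/
noncomputable def TT (m : ℕ) (c : ℕ → ℝ) (x : Conf) : ℝ≥0∞ :=
  ∑' j, if tt x j ≤ m then gw (tt x j) c x else 0

lemma measurable_gw_tt (j : ℕ) : Measurable fun p : (ℕ → ℝ) × Conf => gw (tt p.2 j) p.1 p.2 := by
  have h1 : Measurable fun q : ℕ × ((ℕ → ℝ) × Conf) => gw q.1 q.2.1 q.2.2 :=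
    measurable_from_prod_countable_right fun n => measurable_gw n
  have h2 : Measurable fun p : (ℕ → ℝ) × Conf => (tt p.2 j, p) :=
    ((measurable_tt j).comp measurable_snd).prodMk measurable_id
  have h3 := h1.comp h2
  simp only [Function.comp_def] at h3
  exact h3

lemma measurable_TT (m : ℕ) : Measurable fun p : (ℕ → ℝ) × Conf => TT m p.1 p.2 := by
  unfold TT
  refine Measurable.tsum fun j => ?_
  refine Measurable.ite ?_ (measurable_gw_tt j) measurable_const
  exact measurableSet_le ((measurable_tt j).comp measurable_snd) measurable_const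

lemma measurable_TT' (m : ℕ) (c : ℕ → ℝ) : Measurable (TT m c) :=
  Measurable.of_uncurry_left (f := TT m) (x := c) (measurable_TT m)

lemma TT_step (m : ℕ) (c : ℕ → ℝ) (x : Conf) : TT m c x =
    1 + (if (x 0).1 ≤ m then ew (x 0).1 (x 0).2 c * TT (m - (x 0).1) (sh (x 0).1 c) (sh 1 x)
      else 0) := by
  unfold TT
  rw [tsum_eq_zero_add' ENNReal.summable]
  congr 1
  · rw [tt_zero, if_pos (Nat.zero_le _), gw_zero]
  · by_cases h : (x 0).1 ≤ m
    · rw [if_pos h, ← ENNReal.tsum_mul_left]
      congr 1; ext j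
      rw [tt_succ]
      by_cases h' : tt (sh 1 x) j ≤ m - (x 0).1
      · rw [if_pos h', if_pos (by omega), gw_of_ge _ c x (by omega), Nat.add_sub_cancel_left]
      · rw [if_neg h', if_neg (by omega), mul_zero]
    · rw [if_neg h]
      rw [ENNReal.tsum_eq_zero]
      intro j
      rw [if_neg]
      rw [tt_succ]; omega

section law
variable {ρ : Measure (ℕ × Bool)} [IsProbabilityMeasure ρ] {k : ℕ → ℝ≥0∞}

/-- expected total weight of the renewal epochs up to `m` -/
noncomputable def Tm (ρ : Measure (ℕ × Bool)) [IsProbabilityMeasure ρ] (m : ℕ) (c : ℕ → ℝ) :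
    ℝ≥0∞ := ∫⁻ x, TT m c x ∂seqLaw ρ

lemma measurable_Tm (m : ℕ) : Measurable (Tm ρ m) :=
  (measurable_TT m).lintegral_prod_right'

lemma Tm_mono (c : ℕ → ℝ) : Monotone fun m => Tm ρ m c := by
  intro m m' h
  apply lintegral_mono
  intro x
  apply ENNReal.tsum_le_tsum
  intro j
  by_cases h1 : tt x j ≤ m
  · rw [if_pos h1, if_pos (h1.trans h)]
  · rw [if_neg h1]; exact zero_le

lemma Tm_step (hρ : IsStep ρ k) (hk0 : k 0 = 0) (m : ℕ) (c : ℕ → ℝ) :
    Tm ρ m c = 1 + ∑ n ∈ Finset.Icc 1 m, (k n * 2⁻¹) * (1 + En n c) * Tm ρ (m - n) (sh n c) := by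
  set Φ : ℕ → Bool → Conf → ℝ≥0∞ := fun n b y =>
    if n ≤ m then ew n b c * TT (m - n) (sh n c) y else 0 with hΦ
  have hΦm : ∀ n b, Measurable (Φ n b) := by
    intro n b
    simp only [hΦ]
    by_cases h : n ≤ m
    · simp only [if_pos h]; exact (measurable_TT' _ _).const_mul _
    · simp only [if_neg h]; exact measurable_const
  have h1 : Tm ρ m c = ∫⁻ x, (1 + Φ (x 0).1 (x 0).2 (sh 1 x)) ∂seqLaw ρ := by
    unfold Tm
    congr 1; ext x
    exact TT_step m c x
  rw [h1, lintegral_add_left measurable_const, first_step hρ Φ hΦm]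
  congr 1
  · simp
  · rw [tsum_eq_sum (s := Finset.Icc 1 m)]
    · refine Finset.sum_congr rfl fun n hn => ?_
      rw [Finset.mem_Icc] at hn
      simp only [hΦ, if_pos hn.2]
      rw [lintegral_const_mul _ (measurable_TT' _ _), lintegral_const_mul _ (measurable_TT' _ _)]
      simp only [ew, Bool.false_eq_true, if_false, if_true]
      unfold Tm
      ring
    · intro n hn
      rw [Finset.mem_Icc, not_and_or] at hn
      rcases hn with h | h
      · have : n = 0 := by omega
        rw [this, hk0, zero_mul, zero_mul]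
      · simp only [hΦ, if_neg h, lintegral_zero, add_zero, mul_zero]

lemma Vf_step (hρ : IsStep ρ k) (hk0 : k 0 = 0) (N m : ℕ) (hm : m < N) (c : ℕ → ℝ) :
    Vf ρ N m c ≤ ∑ n ∈ Finset.Icc 1 m, (k n * 2⁻¹) * (1 + En n c) * Vf ρ (N - n) (m - n) (sh n c)
      + Uf ρ N := by
  set Φ : ℕ → Bool → Conf → ℝ≥0∞ := fun n b y =>
    if n ≤ m then ew n b c * (evW (N - n) (m - n))ᶜ.indicator (gw (N - n) (sh n c)) y else
      if b then 0 else if N ≤ n then 1 else (evW (N - n) 0)ᶜ.indicator 1 y with hΦ
  have hΦm : ∀ n b, Measurable (Φ n b) := by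
    intro n b
    simp only [hΦ]
    by_cases h' : n ≤ m
    · simp only [if_pos h']
      exact ((measurable_gw' _ _).indicator (measurableSet_evW _ _).compl).const_mul _
    · simp only [if_neg h']
      cases b
      · by_cases h : N ≤ n
        · simp only [if_pos h, Bool.false_eq_true, if_false]; exact measurable_const
        · simp only [if_neg h, Bool.false_eq_true, if_false]
          exact measurable_one.indicator (measurableSet_evW _ _).compl
      · simp only [if_true]; exact measurable_const
  have h1 : ∀ x : Conf, (evW N m)ᶜ.indicator (gw N c) x ≤ Φ (x 0).1 (x 0).2 (sh 1 x) := by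
    intro x
    simp only [hΦ]
    by_cases hx : x ∈ evW N m
    · rw [Set.indicator_of_notMem (by simpa using hx)]; exact zero_le
    rw [Set.indicator_of_mem (by simpa using hx)]
    by_cases h : (x 0).1 ≤ m
    · rw [if_pos h, Set.indicator_of_mem]
      · exact (gw_of_ge N c x (by omega)).le
      · intro h2; exact hx ((evW_of_le N m x h).2 h2)
    · rw [if_neg h]
      have hb : ¬ (x 0).2 = true := by
        intro hb
        exact hx ⟨m, le_rfl, hm, (dn_of_lt x m (by omega)).2 hb⟩
      rw [if_neg hb]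
      by_cases h' : N ≤ (x 0).1
      · rw [if_pos h', gw_of_le N c x h']
        simp [ew, hb]
      · rw [if_neg h', Set.indicator_of_mem]
        · rw [gw_of_ge N c x (by omega)]
          have h3 : gw (N - (x 0).1) (sh (x 0).1 c) (sh 1 x) = 1 := by
            classical
            unfold gw
            rw [Finset.sum_eq_zero]
            · simp
            · intro i hi
              rw [Finset.mem_range] at hi
              rw [if_neg]
              intro h4
              apply hx
              refine ⟨i + (x 0).1, by omega, by omega, ?_⟩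
              rw [dn_of_ge x _ (by omega), Nat.add_sub_cancel]
              exact h4
          rw [h3]; simp [ew, hb]
        · rintro ⟨i, _, h2, h3⟩
          apply hx
          refine ⟨i + (x 0).1, by omega, by omega, ?_⟩
          rw [dn_of_ge x _ (by omega), Nat.add_sub_cancel]
          exact h3
  have h2 : ∀ n, k n * 2⁻¹ * (∫⁻ y, Φ n false y ∂seqLaw ρ + ∫⁻ y, Φ n true y ∂seqLaw ρ) ≤
      (if n ∈ Finset.Icc 1 m then (k n * 2⁻¹) * (1 + En n c) * Vf ρ (N - n) (m - n) (sh n c) else 0)
        + k n * (if N ≤ n then 2⁻¹ else 2⁻¹ * Uf ρ (N - n)) := by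
    intro n
    by_cases h : n ≤ m
    · by_cases h0 : n = 0
      · rw [h0, hk0]; simp
      · rw [if_pos (Finset.mem_Icc.2 ⟨by omega, h⟩)]
        refine le_trans (le_of_eq ?_) le_self_add
        simp only [hΦ, if_pos h]
        rw [lintegral_const_mul _ ((measurable_gw' _ _).indicator (measurableSet_evW _ _).compl),
          lintegral_const_mul _ ((measurable_gw' _ _).indicator (measurableSet_evW _ _).compl)]
        simp only [ew, Bool.false_eq_true, if_false, if_true]
        unfold Vf
        ring
    · rw [if_neg (fun h' => h (Finset.mem_Icc.1 h').2), zero_add]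
      simp only [hΦ, if_neg h, Bool.false_eq_true, if_false, if_true, lintegral_zero, add_zero]
      by_cases h' : N ≤ n
      · simp only [if_pos h', lintegral_const, measure_univ, mul_one, le_refl]
      · simp only [if_neg h']
        rw [lintegral_indicator_one (measurableSet_evW _ _).compl]
        unfold Uf
        rw [mul_assoc]
  calc Vf ρ N m c ≤ ∫⁻ x, Φ (x 0).1 (x 0).2 (sh 1 x) ∂seqLaw ρ := lintegral_mono h1
    _ = ∑' n, k n * 2⁻¹ * (∫⁻ y, Φ n false y ∂seqLaw ρ + ∫⁻ y, Φ n true y ∂seqLaw ρ) :=
        first_step hρ Φ hΦm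
    _ ≤ ∑' n, ((if n ∈ Finset.Icc 1 m then
          (k n * 2⁻¹) * (1 + En n c) * Vf ρ (N - n) (m - n) (sh n c) else 0)
          + k n * (if N ≤ n then 2⁻¹ else 2⁻¹ * Uf ρ (N - n))) := ENNReal.tsum_le_tsum h2
    _ = _ := by
        rw [ENNReal.tsum_add]
        congr 1
        · rw [tsum_eq_sum (s := Finset.Icc 1 m)]
          · refine Finset.sum_congr rfl fun n hn => by rw [if_pos hn]
          · intro n hn; rw [if_neg hn]
        · rw [Uf_step hρ hk0 N (by omega), tsum_split hk0 _ N (by omega) 2⁻¹
            (fun n hn => by rw [if_pos hn])]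
          congr 1
          refine Finset.sum_congr rfl fun n hn => ?_
          rw [Finset.mem_Ico] at hn
          rw [if_neg (show ¬ N ≤ n by omega)]
          ring

lemma Vf_le_Tm (hρ : IsStep ρ k) (hk0 : k 0 = 0) (r : ℕ) (hr : 1 ≤ r) (m : ℕ) :
    ∀ c : ℕ → ℝ, Vf ρ (m + r) m c ≤ Uf ρ r * Tm ρ m c := by
  induction m using Nat.strong_induction_on with
  | _ m ih =>
    intro c
    refine (Vf_step hρ hk0 (m + r) m (by omega) c).trans ?_
    rw [Tm_step hρ hk0 m c, mul_add, mul_one, add_comm]
    gcongr
    · exact Uf_anti (by omega)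
    · rw [Finset.mul_sum]
      refine Finset.sum_le_sum fun n hn => ?_
      rw [Finset.mem_Icc] at hn
      have h1 : m + r - n = (m - n) + r := by omega
      rw [h1]
      calc k n * 2⁻¹ * (1 + En n c) * Vf ρ (m - n + r) (m - n) (sh n c)
          ≤ k n * 2⁻¹ * (1 + En n c) * (Uf ρ r * Tm ρ (m - n) (sh n c)) := by
            gcongr; exact ih (m - n) (by omega) (sh n c)
        _ = _ := by ring

end law

end Pool.Agent.H.MP_9ba241_pr
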